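import Pool.Agent.W_0649d4.Final

/-! MP_0649d4_al, Theorem Q: `S` abelian. -/

namespace MNQ

open MNF

open scoped commutatorElement

universe u w

/-- a trivial derived subgroup means commutative. -/
theorem Abel_comm {G : Type u} [Group G] [Finite G] {S : Subgroup G}
    (hs : Nat.card (commutator S) = 1) (x y : S) : x * y = y * x := by
  have h1 : commutator S = ⊥ := Subgroup.card_eq_one.1 hs
  have h2 : ⁅x, y⁆ ∈ commutator S := by
    rw [commutator_def]
    exact Subgroup.commutator_mem_commutator (Subgroup.mem_top x) (Subgroup.mem_top y)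
  rw [h1, Subgroup.mem_bot, commutatorElement_eq_one_iff_mul_comm] at h2
  exact h2

/-- If `S` is abelian there are no essential subgroups. -/
theorem Abel_noEss (p : ℕ) [Fact p.Prime] {G : Type u} [Group G] [Finite G] {S : Subgroup G}
    (F : FusionSystem S) (hF : F.Saturated p) (hs : Nat.card (commutator S) = 1)
    (Q : Subgroup G) : ¬ F.Essential p Q := by
  intro hQ
  have hQS : Q = S := by
    refine le_antisymm hQ.1.1 fun x hx => ?_
    refine hQ.1.2 Q (FusionSystem.Conj.refl _ hQ.1.1) ⟨hx, ?_⟩
    show x ∈ Subgroup.centralizer (Q : Set G)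
    rw [Subgroup.mem_centralizer_iff]
    intro y hy
    exact congrArg Subtype.val (Abel_comm hs ⟨y, hQ.1.1 hy⟩ ⟨x, hx⟩)
  subst hQS
  obtain ⟨M, -, hM, -⟩ := hQ.2.2
  exact card_out F p hF (hM.trans (Subgroup.card_subgroup_dvd_card M))

/-- `S` abelian: no essential subgroups, so `main_ineq` applies. -/
theorem abelian_case (p : ℕ) [Fact p.Prime] {k : Type w} [Field k] [IsAlgClosed k] [CharP k p]
    {G : Type u} [Group G] [Finite G] {S : Subgroup G} (hS : IsPGroup p S) (F : FusionSystem S)
    (hF : F.Saturated p) (hs : Nat.card (commutator S) = 1)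
    (α : ∀ P : Subgroup G, Cocycle (F.Out P) k) (hα : Compatible F α) (X : Finset S)
    (Y : S → Finset (Subgroup G)) (Z : Finset (S →* ℂˣ)) (hX : IsElementTransversal F X)
    (hY : ∀ x ∈ X, IsCentricTransversal (F.cent x) (Y x)) (hZ : IsLinTransversal F Z) :
    kInv F α X Y ≤ 1 * mTop F α Z := by
  have h1 : Nat.card (ConjClasses (commutator S)) = 1 := by
    have h2 := (Nat.card_eq_one_iff_unique.1 hs).1
    have h3 : Subsingleton (ConjClasses (commutator S)) :=
      ⟨fun a b => by
        obtain ⟨a, rfl⟩ := ConjClasses.exists_rep a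
        obtain ⟨b, rfl⟩ := ConjClasses.exists_rep b
        rw [Subsingleton.elim a b]⟩
    have h4 : Nonempty (ConjClasses (commutator S)) := ⟨ConjClasses.mk 1⟩
    exact Nat.card_eq_one_iff_unique.2 ⟨h3, h4⟩
  have h2 := main_ineq F p hS hF (fun Q hQ => absurd hQ (Abel_noEss p F hF hs Q)) α hα X hX Y hY Z
    hZ
  rw [h1] at h2
  exact h2

end MNQ
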