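import Mathlib

/-! MP_0649d4_al, Theorem Q: the abstract form of Lemma 7. -/

namespace MNQ

/-- `[Q, R]` -/
def AbsBZ_com {Q : Type*} [Group Q] (R : Subgroup (MulAut Q)) : Subgroup Q :=
  Subgroup.closure {c : Q | ∃ r ∈ R, ∃ q : Q, c = r q * q⁻¹}

/-- `[Q, R]` is normal in `Q`. -/
theorem AbsBZ_com_normal {Q : Type*} [Group Q] (R : Subgroup (MulAut Q)) :
    (AbsBZ_com R).Normal := by
  refine ⟨fun x hx g => ?_⟩
  unfold AbsBZ_com at hx ⊢
  induction hx using Subgroup.closure_induction with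
  | mem x h =>
    obtain ⟨r, hr, q, rfl⟩ := h
    have h1 : r g * g⁻¹ ∈ Subgroup.closure {c : Q | ∃ r ∈ R, ∃ q : Q, c = r q * q⁻¹} :=
      Subgroup.subset_closure ⟨r, hr, g, rfl⟩
    have h2 : r (g * q) * (g * q)⁻¹ ∈
        Subgroup.closure {c : Q | ∃ r ∈ R, ∃ q : Q, c = r q * q⁻¹} :=
      Subgroup.subset_closure ⟨r, hr, g * q, rfl⟩
    have h3 := Subgroup.mul_mem _ (Subgroup.inv_mem _ h1) h2
    have e : g * (r q * q⁻¹) * g⁻¹ = (r g * g⁻¹)⁻¹ * (r (g * q) * (g * q)⁻¹) := by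
      rw [map_mul]
      group
    rw [e]
    exact h3
  | one => simp
  | mul x y _ _ hx hy =>
    have e : g * (x * y) * g⁻¹ = (g * x * g⁻¹) * (g * y * g⁻¹) := by group
    rw [e]
    exact Subgroup.mul_mem _ hx hy
  | inv x _ hx =>
    have e : g * x⁻¹ * g⁻¹ = (g * x * g⁻¹)⁻¹ := by group
    rw [e]
    exact Subgroup.inv_mem _ hx

/-- The join of finitely many normal subgroups of order at most `c`. -/
theorem AbsBZ_card_sup {Q ι : Type*} [Group Q] [Finite Q] (N : ι → Subgroup Q)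
    (hN : ∀ i, (N i).Normal) (c : ℕ) (hc : ∀ i, Nat.card (N i) ≤ c) (s : Finset ι) :
    Nat.card (s.sup N : Subgroup Q) ≤ c ^ s.card := by
  classical
  induction s using Finset.induction_on with
  | empty => simp
  | insert a s ha ih =>
    rw [Finset.sup_insert, Finset.card_insert_of_notMem ha, pow_succ, mul_comm]
    haveI := hN a
    have h1 : Nat.card ((N a ⊔ s.sup N : Subgroup Q) : Set Q) ≤
        Nat.card (N a : Set Q) * Nat.card ((s.sup N : Subgroup Q) : Set Q) := by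
      rw [Subgroup.normal_mul]
      exact Set.natCard_mul_le
    exact h1.trans (Nat.mul_le_mul (hc a) ih)

/-- If `σ q = z q` and `σ z = z` then `σ ^ j q = z ^ j q`. -/
theorem AbsBZ_pow {Q : Type*} [Group Q] (σ : MulAut Q) (q z : Q) (h1 : σ q = z * q)
    (h2 : σ z = z) (j : ℕ) : (σ ^ j) q = z ^ j * q := by
  induction j with
  | zero => simp
  | succ j ih =>
    rw [pow_succ', MulAut.mul_apply, ih, map_mul, map_pow, h2, h1, pow_succ, mul_assoc]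

/-- The abstract form of Lemma 7. `A` is a group of automorphisms of the finite `p`-group `Q`,
containing `Inn(Q)`, every normal `p`-subgroup of `A` lies in `Inn(Q)`; `[Q, R]` has order
at most `c` for every Sylow `R` and there are at most `n` Sylow subgroups. Then there are `A`-invariant
subgroups `B`, `Z` of `Q`, `|B| ≤ c ^ n`, with (h2) and (h3): `B = ⟨[Q, R] : R⟩`
(each `[Q, R]` is normal in `Q`), `L = ⟨R : R Sylow⟩`, `Z = Fix(L)`. See the text, Lemma 7. -/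
theorem exists_BZ (p : ℕ) [Fact p.Prime] {Q : Type*} [Group Q] [Finite Q] (hQ : IsPGroup p Q)
    (A : Subgroup (MulAut Q)) (hinn : (MulAut.conj (G := Q)).range ≤ A)
    (hrel : ∀ W : Subgroup (MulAut Q), W ≤ A → (∀ a ∈ A, ∀ w ∈ W, a * w * a⁻¹ ∈ W) →
      IsPGroup p W → W ≤ (MulAut.conj (G := Q)).range) (c n : ℕ)
    (hc : ∀ R : Subgroup (MulAut Q), R ≤ A → IsPGroup p R →
      Nat.card (Subgroup.closure {c : Q | ∃ r ∈ R, ∃ q : Q, c = r q * q⁻¹}) ≤ c)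
    (hn : Nat.card (Sylow p A) ≤ n) :
    ∃ B Z : Subgroup Q, Nat.card B ≤ c ^ n ∧
      (∀ m₁ m₂ : Q, (∀ b ∈ B, m₁ * b = b * m₁) → (∀ b ∈ B, m₂ * b = b * m₂) →
        m₁⁻¹ * m₂⁻¹ * m₁ * m₂ ∈ Z) ∧
      ∀ τ ∈ A, (∃ m : ℕ, τ ^ p ^ m = 1) → (∀ b ∈ B, τ b * b⁻¹ ∈ Z) →
        τ ∈ (MulAut.conj (G := Q)).range := by
  classical
  -- the subgroups `B` and `Z`
  obtain ⟨B, hBdef⟩ : ∃ B : Subgroup Q, B = Subgroup.closure
      {c : Q | ∃ τ ∈ A, (∃ m : ℕ, τ ^ p ^ m = 1) ∧ ∃ q : Q, c = τ q * q⁻¹} := ⟨_, rfl⟩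
  have hBmem : ∀ τ ∈ A, (∃ m : ℕ, τ ^ p ^ m = 1) → ∀ q : Q, τ q * q⁻¹ ∈ B := by
    intro τ hτ hm q
    rw [hBdef]
    exact Subgroup.subset_closure ⟨τ, hτ, hm, q, rfl⟩
  have hconj : ∀ a ∈ A, ∀ τ ∈ A, (∃ m : ℕ, τ ^ p ^ m = 1) →
      a * τ * a⁻¹ ∈ A ∧ ∃ m : ℕ, (a * τ * a⁻¹) ^ p ^ m = 1 := by
    rintro a ha τ hτ ⟨m, hm⟩
    refine ⟨A.mul_mem (A.mul_mem ha hτ) (A.inv_mem ha), m, ?_⟩
    rw [conj_pow, hm, mul_one, mul_inv_cancel]
  have hBinv : ∀ a ∈ A, ∀ b ∈ B, a b ∈ B := by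
    intro a ha b hb
    rw [hBdef] at hb
    induction hb using Subgroup.closure_induction with
    | mem x h =>
      obtain ⟨τ, hτ, hm, q, rfl⟩ := h
      obtain ⟨h1, h2⟩ := hconj a ha τ hτ hm
      have h3 := hBmem _ h1 h2 (a q)
      have e : a (τ q * q⁻¹) = (a * τ * a⁻¹) (a q) * (a q)⁻¹ := by
        rw [map_mul, map_inv, MulAut.mul_apply, MulAut.mul_apply, MulAut.inv_apply_self]
      rw [e]
      exact h3
    | one => rw [map_one]; exact B.one_mem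
    | mul x y _ _ hx hy => rw [map_mul]; exact B.mul_mem hx hy
    | inv x _ hx => rw [map_inv]; exact B.inv_mem hx
  obtain ⟨Z, hZ⟩ : ∃ Z : Subgroup Q, ∀ z, z ∈ Z ↔
      ∀ τ ∈ A, (∃ m : ℕ, τ ^ p ^ m = 1) → τ z = z := by
    refine ⟨{ carrier := {z | ∀ τ ∈ A, (∃ m : ℕ, τ ^ p ^ m = 1) → τ z = z}
              mul_mem' := ?_
              one_mem' := ?_
              inv_mem' := ?_ }, fun z => Iff.rfl⟩
    · intro x y hx hy τ hτ hm
      rw [map_mul, hx τ hτ hm, hy τ hτ hm]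
    · intro τ hτ hm
      exact map_one τ
    · intro x hx τ hτ hm
      rw [map_inv, hx τ hτ hm]
  have hZinv : ∀ a ∈ A, ∀ z ∈ Z, a z ∈ Z := by
    intro a ha z hz
    rw [hZ] at hz ⊢
    intro τ hτ hm
    have ha' : a⁻¹ ∈ A := A.inv_mem ha
    obtain ⟨h1, h2⟩ := hconj a⁻¹ ha' τ hτ hm
    have h3 := hz _ h1 h2
    rw [inv_inv, MulAut.mul_apply, MulAut.mul_apply] at h3
    have h4 := congrArg a h3
    rw [MulAut.apply_inv_self] at h4
    exact h4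
  -- the order of `B`
  have hcard : Nat.card B ≤ c ^ n := by
    haveI : Finite (Sylow p A) := inferInstance
    haveI := Fintype.ofFinite (Sylow p A)
    let N : Sylow p A → Subgroup Q := fun P => AbsBZ_com ((P : Subgroup A).map A.subtype)
    have hle : B ≤ (Finset.univ.sup N : Subgroup Q) := by
      rw [hBdef, Subgroup.closure_le]
      rintro x ⟨τ, hτ, ⟨m, hm⟩, q, rfl⟩
      have hp : IsPGroup p (Subgroup.zpowers (⟨τ, hτ⟩ : A)) := by
        rintro ⟨y, hy⟩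
        obtain ⟨k, rfl⟩ := Subgroup.mem_zpowers_iff.1 hy
        refine ⟨m, Subtype.ext ?_⟩
        have h1 : (⟨τ, hτ⟩ : A) ^ p ^ m = 1 := Subtype.ext hm
        show ((⟨τ, hτ⟩ : A) ^ k) ^ p ^ m = 1
        rw [← zpow_natCast, zpow_comm, zpow_natCast, h1, one_zpow]
      obtain ⟨P, hP⟩ := hp.exists_le_sylow
      have h1 : N P ≤ (Finset.univ.sup N : Subgroup Q) := Finset.le_sup (Finset.mem_univ P)
      refine h1 (Subgroup.subset_closure ⟨τ, ?_, q, rfl⟩)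
      exact Subgroup.mem_map.2 ⟨⟨τ, hτ⟩, hP (Subgroup.mem_zpowers _), rfl⟩
    have hcN : ∀ P, Nat.card (N P) ≤ c := by
      intro P
      refine hc _ ?_ ?_
      · rintro x ⟨y, _, rfl⟩
        exact y.2
      · exact P.isPGroup'.map _
    have h1 := AbsBZ_card_sup N (fun P => AbsBZ_com_normal _) c hcN Finset.univ
    have h2 : Nat.card B ≤ Nat.card (Finset.univ.sup N : Subgroup Q) :=
      Nat.card_le_card_of_injective _ (Subgroup.inclusion_injective hle)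
    have hc1 : 1 ≤ c := by
      haveI : Nonempty (Sylow p A) := inferInstance
      have h3 := hcN (Classical.arbitrary _)
      exact le_trans Nat.card_pos h3
    refine h2.trans (h1.trans (Nat.pow_le_pow_right hc1 ?_))
    rw [Finset.card_univ, ← Nat.card_eq_fintype_card]
    exact hn
  refine ⟨B, Z, hcard, ?_, ?_⟩
  · -- (h2)
    intro m₁ m₂ h₁ h₂
    rw [hZ]
    intro τ hτ hm
    -- `τ m` centralises `B` if `m` does
    have key : ∀ m : Q, (∀ b ∈ B, m * b = b * m) → ∀ b ∈ B, τ m * b = b * τ m := by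
      intro m h b hb
      have h3 := h _ (hBinv τ⁻¹ (A.inv_mem hτ) b hb)
      have h4 := congrArg τ h3
      rw [map_mul, map_mul, MulAut.apply_inv_self] at h4
      exact h4
    have hb₁ : τ m₁ * m₁⁻¹ ∈ B := hBmem τ hτ hm m₁
    have hb₂ : τ m₂ * m₂⁻¹ ∈ B := hBmem τ hτ hm m₂
    obtain ⟨b₁, e₁⟩ : ∃ b, b = τ m₁ * m₁⁻¹ := ⟨_, rfl⟩
    obtain ⟨b₂, e₂⟩ : ∃ b, b = τ m₂ * m₂⁻¹ := ⟨_, rfl⟩
    rw [← e₁] at hb₁
    rw [← e₂] at hb₂
    have f₁ : τ m₁ = b₁ * m₁ := by rw [e₁, inv_mul_cancel_right]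
    have f₂ : τ m₂ = b₂ * m₂ := by rw [e₂, inv_mul_cancel_right]
    have c11 : Commute m₁ b₁ := h₁ b₁ hb₁
    have c12 : Commute m₁ b₂ := h₁ b₂ hb₂
    have c21 : Commute m₂ b₁ := h₂ b₁ hb₁
    have c22 : Commute m₂ b₂ := h₂ b₂ hb₂
    have cb : Commute b₁ b₂ := by
      have h3 : Commute (b₁ * m₁) b₂ := by
        have := key m₁ h₁ b₂ hb₂
        rw [f₁] at this
        exact this
      have h4 := h3.mul_left c12.inv_left
      rwa [mul_inv_cancel_right] at h4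
    rw [map_mul, map_mul, map_mul, map_inv, map_inv, f₁, f₂]
    have g1 : (b₁ * m₁)⁻¹ = b₁⁻¹ * m₁⁻¹ := by
      rw [mul_inv_rev]
      exact (c11.inv_inv).eq
    have g2 : (b₂ * m₂)⁻¹ = b₂⁻¹ * m₂⁻¹ := by
      rw [mul_inv_rev]
      exact (c22.inv_inv).eq
    rw [g1, g2]
    have c1 : m₁⁻¹ * b₂⁻¹ = b₂⁻¹ * m₁⁻¹ := (c12.inv_inv).eq
    have c2 : m₂⁻¹ * b₁ = b₁ * m₂⁻¹ := (c21.inv_left).eq
    have c3 : m₁⁻¹ * b₁ = b₁ * m₁⁻¹ := (c11.inv_left).eq
    have c4 : m₁ * b₂ = b₂ * m₁ := c12.eq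
    have c5 : m₂⁻¹ * b₂ = b₂ * m₂⁻¹ := (c22.inv_left).eq
    have c6 : m₁⁻¹ * b₂ = b₂ * m₁⁻¹ := (c12.inv_left).eq
    have c7 : b₁ * b₂ = b₂ * b₁ := cb.eq
    have c8 : b₂⁻¹ * b₁ = b₁ * b₂⁻¹ := (cb.symm.inv_left).eq
    calc b₁⁻¹ * m₁⁻¹ * (b₂⁻¹ * m₂⁻¹) * (b₁ * m₁) * (b₂ * m₂)
        = b₁⁻¹ * (m₁⁻¹ * b₂⁻¹) * (m₂⁻¹ * b₁) * (m₁ * b₂) * m₂ := by simp only [mul_assoc]
      _ = b₁⁻¹ * (b₂⁻¹ * m₁⁻¹) * (b₁ * m₂⁻¹) * (b₂ * m₁) * m₂ := by rw [c1, c2, c4]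
      _ = b₁⁻¹ * b₂⁻¹ * (m₁⁻¹ * b₁) * (m₂⁻¹ * b₂) * m₁ * m₂ := by simp only [mul_assoc]
      _ = b₁⁻¹ * b₂⁻¹ * (b₁ * m₁⁻¹) * (b₂ * m₂⁻¹) * m₁ * m₂ := by rw [c3, c5]
      _ = b₁⁻¹ * (b₂⁻¹ * b₁) * (m₁⁻¹ * b₂) * m₂⁻¹ * m₁ * m₂ := by simp only [mul_assoc]
      _ = b₁⁻¹ * (b₁ * b₂⁻¹) * (b₂ * m₁⁻¹) * m₂⁻¹ * m₁ * m₂ := by rw [c8, c6]
      _ = m₁⁻¹ * m₂⁻¹ * m₁ * m₂ := by group
  · -- (h3)
    intro τ hτ hm hτB
    let J : Subgroup (MulAut Q) :=
      { carrier := {σ | σ ∈ A ∧ (∀ q, σ q * q⁻¹ ∈ B) ∧ (∀ b ∈ B, σ b * b⁻¹ ∈ Z) ∧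
          ∀ z ∈ Z, σ z = z}
        mul_mem' := by
          rintro σ ρ ⟨s1, s2, s3, s4⟩ ⟨r1, r2, r3, r4⟩
          refine ⟨A.mul_mem s1 r1, fun q => ?_, fun b hb => ?_, fun z hz => ?_⟩
          · have e : (σ * ρ) q * q⁻¹ = σ (ρ q * q⁻¹) * (σ q * q⁻¹) := by
              rw [MulAut.mul_apply, map_mul, map_inv]
              group
            rw [e]
            exact B.mul_mem (hBinv σ s1 _ (r2 q)) (s2 q)
          · have e : (σ * ρ) b * b⁻¹ = σ (ρ b * b⁻¹) * (σ b * b⁻¹) := by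
              rw [MulAut.mul_apply, map_mul, map_inv]
              group
            rw [e, s4 _ (r3 b hb)]
            exact Z.mul_mem (r3 b hb) (s3 b hb)
          · rw [MulAut.mul_apply, r4 z hz, s4 z hz]
        one_mem' := by
          refine ⟨A.one_mem, fun q => ?_, fun b hb => ?_, fun z hz => rfl⟩
          · rw [MulAut.one_apply, mul_inv_cancel]
            exact B.one_mem
          · rw [MulAut.one_apply, mul_inv_cancel]
            exact Z.one_mem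
        inv_mem' := by
          rintro σ ⟨s1, s2, s3, s4⟩
          have hi := A.inv_mem s1
          have s4' : ∀ z ∈ Z, σ⁻¹ z = z := by
            intro z hz
            have h5 := congrArg (σ⁻¹ : MulAut Q) (s4 z hz)
            rw [MulAut.inv_apply_self] at h5
            exact h5.symm
          have e : ∀ q, σ⁻¹ q * q⁻¹ = σ⁻¹ ((σ q * q⁻¹)⁻¹) := by
            intro q
            rw [mul_inv_rev, inv_inv, map_mul, map_inv, MulAut.inv_apply_self]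
          refine ⟨hi, fun q => ?_, fun b hb => ?_, s4'⟩
          · rw [e]
            exact hBinv _ hi _ (B.inv_mem (s2 q))
          · rw [e, s4' _ (Z.inv_mem (s3 b hb))]
            exact Z.inv_mem (s3 b hb) }
    have hJA : J ≤ A := fun σ hσ => hσ.1
    have hJn : ∀ a ∈ A, ∀ w ∈ J, a * w * a⁻¹ ∈ J := by
      rintro a ha σ ⟨s1, s2, s3, s4⟩
      have hai := A.inv_mem ha
      have e : ∀ q, (a * σ * a⁻¹) q * q⁻¹ = a (σ (a⁻¹ q) * (a⁻¹ q)⁻¹) := by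
        intro q
        rw [MulAut.mul_apply, MulAut.mul_apply, map_mul, map_inv, MulAut.apply_inv_self]
      refine ⟨A.mul_mem (A.mul_mem ha s1) hai, fun q => ?_, fun b hb => ?_, fun z hz => ?_⟩
      · rw [e]
        exact hBinv a ha _ (s2 _)
      · rw [e]
        exact hZinv a ha _ (s3 _ (hBinv _ hai b hb))
      · rw [MulAut.mul_apply, MulAut.mul_apply, s4 _ (hZinv _ hai z hz), MulAut.apply_inv_self]
    have hJp : IsPGroup p J := by
      obtain ⟨k, hk⟩ := (IsPGroup.iff_card (p := p) (G := Q)).1 hQ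
      rintro ⟨σ, s1, s2, s3, s4⟩
      refine ⟨k + k, Subtype.ext ?_⟩
      show σ ^ p ^ (k + k) = 1
      have hpow : ∀ x : Q, x ^ p ^ k = 1 := by
        intro x
        rw [← hk]
        exact pow_card_eq_one'
      have hB1 : ∀ b ∈ B, (σ ^ p ^ k) b = b := by
        intro b hb
        have h5 := AbsBZ_pow σ b (σ b * b⁻¹) (by rw [inv_mul_cancel_right])
          (s4 _ (s3 b hb)) (p ^ k)
        rw [h5, hpow, one_mul]
      have hB2 : ∀ (j : ℕ) (q : Q), (σ ^ j) q * q⁻¹ ∈ B := by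
        intro j q
        have h6 : σ ^ j ∈ J := J.pow_mem ⟨s1, s2, s3, s4⟩ j
        exact h6.2.1 q
      ext q
      have h7 := AbsBZ_pow (σ ^ p ^ k) q ((σ ^ p ^ k) q * q⁻¹) (by rw [inv_mul_cancel_right])
        (hB1 _ (hB2 _ q)) (p ^ k)
      rw [pow_add, pow_mul, h7, hpow, one_mul]
      rfl
    refine hrel J hJA hJn hJp ⟨hτ, hBmem τ hτ hm, hτB, fun z hz => ?_⟩
    exact (hZ z).1 hz τ hτ hm

end MNQ
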