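import Pool.Agent.W_0649q_h65.LinC

/-! MP_0649d4_al, Theorem Q, Lemma 4. -/

namespace MNQ

open Module

universe u v

/-- The subgroup `[Q, R] = ⟨φ r q * q⁻¹⟩`. -/
def commR {H Q : Type*} [Group H] [Group Q] (φ : H →* MulAut Q) (R : Subgroup H) : Subgroup Q :=
  Subgroup.closure {c | ∃ r ∈ R, ∃ q : Q, c = φ r q * q⁻¹}

/-- The action on an invariant subgroup. -/
theorem Chief_res {H : Type u} {Q : Type v} [Group H] [Group Q] (φ : H →* MulAut Q)
    (N : Subgroup Q) (hN : ∀ h, ∀ x ∈ N, φ h x ∈ N) :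
    ∃ ψ : H →* MulAut N, ∀ h (x : N), (ψ h x : Q) = φ h x := by
  refine ⟨{ toFun := fun h =>
              { toFun := fun x => ⟨φ h x, hN h x x.2⟩
                invFun := fun x => ⟨φ h⁻¹ x, hN h⁻¹ x x.2⟩
                left_inv := ?_
                right_inv := ?_
                map_mul' := ?_ }
            map_one' := ?_
            map_mul' := ?_ }, ?_⟩
  · intro x; ext; simp
  · intro x; ext; simp
  · intro x y; ext; simp
  · ext x; simp
  · intro a b; ext x; simp
  · intro h x; rfl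

/-- The action on the quotient by an invariant normal subgroup. -/
theorem Chief_quo {H : Type u} {Q : Type v} [Group H] [Group Q] (φ : H →* MulAut Q)
    (N : Subgroup Q) [N.Normal] (hN : ∀ h, ∀ x ∈ N, φ h x ∈ N) :
    ∃ ψ : H →* MulAut (Q ⧸ N), ∀ h (x : Q), ψ h (x : Q ⧸ N) = ((φ h x : Q) : Q ⧸ N) := by
  have hle : ∀ h, N ≤ N.comap (φ h).toMonoidHom := fun h x hx => hN h x hx
  refine ⟨{ toFun := fun h =>
              { toFun := QuotientGroup.map N N (φ h).toMonoidHom (hle h)
                invFun := QuotientGroup.map N N (φ h⁻¹).toMonoidHom (hle h⁻¹)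
                left_inv := ?_
                right_inv := ?_
                map_mul' := ?_ }
            map_one' := ?_
            map_mul' := ?_ }, ?_⟩
  · intro x
    obtain ⟨x, rfl⟩ := QuotientGroup.mk_surjective x
    simp
  · intro x
    obtain ⟨x, rfl⟩ := QuotientGroup.mk_surjective x
    simp
  · intro x y
    simp
  · ext x
    obtain ⟨x, rfl⟩ := QuotientGroup.mk_surjective x
    simp
  · intro a b
    ext x
    obtain ⟨x, rfl⟩ := QuotientGroup.mk_surjective x
    simp
  · intro h x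
    rfl

theorem Chief_map {H : Type u} {Q : Type v} [Group H] [Group Q] (φ : H →* MulAut Q)
    (N : Subgroup Q) [N.Normal] (ψ : H →* MulAut (Q ⧸ N))
    (hψ : ∀ h (x : Q), ψ h (x : Q ⧸ N) = ((φ h x : Q) : Q ⧸ N)) (R : Subgroup H) :
    commR ψ R = (commR φ R).map (QuotientGroup.mk' N) := by
  unfold commR
  rw [MonoidHom.map_closure]
  congr 1
  ext c
  constructor
  · rintro ⟨r, hr, q, rfl⟩
    obtain ⟨q, rfl⟩ := QuotientGroup.mk_surjective q
    exact ⟨φ r q * q⁻¹, ⟨r, hr, q, rfl⟩, by simp [hψ]⟩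
  · rintro ⟨_, ⟨r, hr, q, rfl⟩, rfl⟩
    exact ⟨r, hr, q, by simp [hψ]⟩

theorem Chief_pow {Q : Type v} [Group Q] (N : Subgroup Q) (p : ℕ) (hp : ∀ x ∈ N, x ^ p = 1)
    (θ : MulAut Q) (h1 : ∀ q, q⁻¹ * θ q ∈ N) (h2 : ∀ z ∈ N, θ z = z) : θ ^ p = 1 := by
  have key : ∀ (m : ℕ) (q : Q), (θ ^ m) q = q * (q⁻¹ * θ q) ^ m := by
    intro m q
    induction m with
    | zero => simp
    | succ m ih =>
      rw [pow_succ', MulAut.mul_apply, ih, map_mul, h2 _ (N.pow_mem (h1 q) m), pow_succ',
        mul_assoc q⁻¹, mul_inv_cancel_left]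
  ext q
  rw [key p q, hp _ (h1 q)]
  simp

theorem Chief_min (p : ℕ) [Fact p.Prime] {H : Type u} {Q : Type v} [Group H] [Group Q]
    [Finite Q] [Nontrivial Q] (hQ : IsPGroup p Q) (φ : H →* MulAut Q) :
    ∃ N : Subgroup Q, N ≤ Subgroup.center Q ∧ N ≠ ⊥ ∧ (∀ h, ∀ x ∈ N, φ h x ∈ N) ∧
      (∀ x ∈ N, x ^ p = 1) ∧
      ∀ W : Subgroup Q, W ≤ N → (∀ h, ∀ x ∈ W, φ h x ∈ W) → W = ⊥ ∨ W = N := by
  classical
  let S : Set (Subgroup Q) :=
    {N | N ≤ Subgroup.center Q ∧ N ≠ ⊥ ∧ ∀ h, ∀ x ∈ N, φ h x ∈ N}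
  have hne : S.Nonempty := by
    refine ⟨Subgroup.center Q, le_rfl, ?_, ?_⟩
    · have := hQ.center_nontrivial
      exact (Subgroup.nontrivial_iff_ne_bot _).1 this
    · intro h x hx
      rw [Subgroup.mem_center_iff] at hx ⊢
      intro g
      have := hx ((φ h).symm g)
      have h2 := congrArg (φ h) this
      simpa using h2
  obtain ⟨N, hN⟩ := (Set.toFinite S).exists_minimal hne
  obtain ⟨hc, hb, hi⟩ : N ≤ Subgroup.center Q ∧ N ≠ ⊥ ∧ ∀ h, ∀ x ∈ N, φ h x ∈ N := hN.prop
  have hm : ∀ W : Subgroup Q, W ≤ N → (∀ h, ∀ x ∈ W, φ h x ∈ W) → W = ⊥ ∨ W = N := by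
    intro W hW hWi
    by_cases h0 : W = ⊥
    · exact Or.inl h0
    · right
      have hWS : W ∈ S := ⟨hW.trans hc, h0, hWi⟩
      exact le_antisymm hW (hN.le_of_le hWS hW)
  refine ⟨N, hc, hb, hi, ?_, hm⟩
  let P : Subgroup Q :=
    { carrier := {x | x ∈ N ∧ x ^ p = 1}
      mul_mem' := by
        rintro a b ⟨ha, ha'⟩ ⟨hb, hb'⟩
        refine ⟨N.mul_mem ha hb, ?_⟩
        have : Commute a b := (Subgroup.mem_center_iff.1 (hc hb) a)
        rw [this.mul_pow, ha', hb', one_mul]
      one_mem' := ⟨N.one_mem, one_pow p⟩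
      inv_mem' := by
        rintro a ⟨ha, ha'⟩
        exact ⟨N.inv_mem ha, by rw [inv_pow, ha', inv_one]⟩ }
  have hPN : P ≤ N := fun x hx => hx.1
  have hPi : ∀ h, ∀ x ∈ P, φ h x ∈ P := by
    rintro h x ⟨hx, hx'⟩
    exact ⟨hi h x hx, by rw [← map_pow, hx', map_one]⟩
  rcases hm P hPN hPi with h | h
  · exfalso
    obtain ⟨n, hn⟩ := IsPGroup.iff_card.1 (hQ.to_subgroup N)
    have hn0 : n ≠ 0 := by
      rintro rfl
      rw [pow_zero] at hn
      exact hb ((Subgroup.card_eq_one).1 hn)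
    have hdvd : p ∣ Nat.card N := by
      rw [hn]; exact dvd_pow_self p hn0
    obtain ⟨x, hx⟩ := exists_prime_orderOf_dvd_card' (G := N) p hdvd
    have hx1 : (x : Q) ^ p = 1 := by
      have := pow_orderOf_eq_one x
      rw [hx] at this
      exact_mod_cast congrArg Subtype.val this
    have hxP : (x : Q) ∈ P := ⟨x.2, hx1⟩
    rw [h, Subgroup.mem_bot] at hxP
    have hx0 : x = 1 := by ext; exact hxP
    rw [hx0, orderOf_one] at hx
    exact (Fact.out : p.Prime).one_lt.ne hx
  · intro x hx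
    rw [← h] at hx
    exact hx.2

theorem Chief_aut (N : Type v) [Group N] [Finite N] (D : ℕ) (hD : Nat.card N ≤ D) :
    Nat.card (MulAut N) ≤ D ^ D := by
  have h1 : Nat.card (MulAut N) ≤ Nat.card (N → N) :=
    Nat.card_le_card_of_injective (fun θ : MulAut N => (θ : N → N)) DFunLike.coe_injective
  rw [Nat.card_fun] at h1
  have h0 : 0 < Nat.card N := Nat.card_pos
  calc Nat.card (MulAut N) ≤ Nat.card N ^ Nat.card N := h1
    _ ≤ D ^ Nat.card N := Nat.pow_le_pow_left hD _
    _ ≤ D ^ D := Nat.pow_le_pow_right (lt_of_lt_of_le h0 hD) hD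

theorem Chief_card {Q : Type v} [Group Q] [Finite Q] (N : Subgroup Q) [N.Normal] (p : ℕ)
    [Fact p.Prime] (C : Subgroup Q) (c : Q) (hc : c ∈ C) (hcN : c ∈ N) (hcp : c ^ p = 1)
    (hc1 : c ≠ 1) : p * Nat.card (C.map (QuotientGroup.mk' N)) ≤ Nat.card C := by
  let f : C →* Q ⧸ N := (QuotientGroup.mk' N).comp C.subtype
  have hr : f.range = C.map (QuotientGroup.mk' N) := by
    rw [MonoidHom.range_comp, Subgroup.range_subtype]
  have h1 := Subgroup.card_mul_index f.ker
  rw [Subgroup.index_ker, hr] at h1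
  let k : f.ker := ⟨⟨c, hc⟩, by
    rw [MonoidHom.mem_ker]
    exact (QuotientGroup.eq_one_iff c).2 hcN⟩
  have hk : orderOf k = p := by
    apply orderOf_eq_prime
    · ext
      simpa [k] using hcp
    · intro h
      exact hc1 (congrArg (fun z : f.ker => ((z : C) : Q)) h)
  have hdvd : p ∣ Nat.card f.ker := hk ▸ orderOf_dvd_natCard k
  have hle : p ≤ Nat.card f.ker := Nat.le_of_dvd Nat.card_pos hdvd
  rw [← h1]
  exact Nat.mul_le_mul_right _ hle

theorem Chief_ind (p : ℕ) [Fact p.Prime] (s D : ℕ)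
    (hD : ∀ {H : Type u} {N : Type v} [Group H] [Finite H] [Group N] [Finite N]
      (_hc : ∀ x y : N, x * y = y * x) (_hN : ∀ x : N, x ^ p = 1) (φ : H →* MulAut N)
      (_hirr : ∀ W : Subgroup N, (∀ h, ∀ w ∈ W, φ h w ∈ W) → W = ⊥ ∨ W = ⊤)
      (R : Sylow p H) (C : Subgroup N) (_hC : ∀ r ∈ R, ∀ x, φ r x * x⁻¹ ∈ C)
      (_hs : Nat.card C ≤ p ^ s) (_hne : ∃ r ∈ R, φ r ≠ 1), Nat.card N ≤ D)
    {H : Type u} [Group H] [Finite H] (R : Sylow p H) :
    ∀ (n : ℕ) {Q : Type v} [Group Q] [Finite Q] (_ : Nat.card Q ≤ n) (_ : IsPGroup p Q)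
      (φ : H →* MulAut Q) (t : ℕ) (_ : t ≤ s)
      (_ : Nat.card (commR φ (R : Subgroup H)) ≤ p ^ t),
      ∃ K : Subgroup H, K.Normal ∧ (∀ k ∈ K, ∃ n : ℕ, φ k ^ p ^ n = 1) ∧
        K.relIndex (Subgroup.normalClosure (R : Set H)) ≤ (D ^ D + 1) ^ t := by
  intro n
  induction n with
  | zero =>
    intro Q _ _ hn
    exact absurd (Nat.card_pos (α := Q)) (by omega)
  | succ n ih =>
    intro Q _ _ hn hQ φ t ht hcard
    rcases subsingleton_or_nontrivial Q with hQ0 | hQ1
    · refine ⟨⊤, inferInstance, ?_, ?_⟩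
      · intro k _
        exact ⟨0, by ext x; exact Subsingleton.elim _ _⟩
      · rw [Subgroup.relIndex_top_left]
        exact Nat.one_le_pow _ _ (Nat.succ_pos _)
    obtain ⟨N, hNc, hNb, hNi, hNp, hNm⟩ := Chief_min p hQ φ
    have hNn : N.Normal := ⟨fun x hx g => by
      have h := Subgroup.mem_center_iff.1 (hNc hx) g
      rw [h, mul_assoc, mul_inv_cancel, mul_one]
      exact hx⟩
    obtain ⟨φN, hφN⟩ := Chief_res φ N hNi
    obtain ⟨φQ, hφQ⟩ := Chief_quo φ N hNi
    have hmap := Chief_map φ N φQ hφQ (R : Subgroup H)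
    have hcardQ : Nat.card (Q ⧸ N) ≤ n := by
      have h1 := Subgroup.card_eq_card_quotient_mul_card_subgroup N
      have h2 : 1 < Nat.card N := (Subgroup.one_lt_card_iff_ne_bot N).2 hNb
      have h3 : 0 < Nat.card (Q ⧸ N) := Nat.card_pos
      nlinarith
    -- powers of elements of the intersection
    have hK : ∀ K₁ : Subgroup H, (∀ k ∈ K₁, ∃ n : ℕ, φQ k ^ p ^ n = 1) →
        ∀ k ∈ K₁ ⊓ φN.ker, ∃ n : ℕ, φ k ^ p ^ n = 1 := by
      rintro K₁ hK₁ k ⟨hk1, hk2⟩
      obtain ⟨m, hm⟩ := hK₁ k hk1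
      refine ⟨m + 1, ?_⟩
      rw [pow_succ, pow_mul]
      apply Chief_pow N p hNp
      · intro q
        have h1 : (φQ k ^ p ^ m) (q : Q ⧸ N) = (q : Q ⧸ N) := by rw [hm]; rfl
        rw [← map_pow, hφQ] at h1
        rw [← map_pow]
        exact QuotientGroup.eq.1 h1.symm
      · intro z hz
        have h1 : φN (k ^ p ^ m) = 1 := by
          rw [map_pow, (MonoidHom.mem_ker).1 hk2, one_pow]
        have h2 := hφN (k ^ p ^ m) ⟨z, hz⟩
        rw [h1] at h2
        rw [← map_pow]
        exact h2.symm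
    by_cases hR : ∃ r ∈ R, φN r ≠ 1
    · -- the Sylow subgroup acts non-trivially
      have hNcard : Nat.card N ≤ D := by
        refine hD (H := H) (N := N) ?_ ?_ φN ?_ R ((commR φ (R : Subgroup H)).subgroupOf N) ?_ ?_ hR
        · intro x y
          ext
          exact Subgroup.mem_center_iff.1 (hNc y.2) x
        · intro x
          ext
          exact hNp x x.2
        · intro W hW
          have hW' : ∀ h, ∀ x ∈ W.map N.subtype, φ h x ∈ W.map N.subtype := by
            rintro h _ ⟨w, hw, rfl⟩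
            exact ⟨φN h w, hW h w hw, hφN h w⟩
          rcases hNm (W.map N.subtype) (Subgroup.map_subtype_le W) hW' with h | h
          · left
            exact (Subgroup.map_eq_bot_iff_of_injective W N.subtype_injective).1 h
          · right
            rw [eq_top_iff]
            intro x _
            have hx : (x : Q) ∈ W.map N.subtype := by rw [h]; exact x.2
            obtain ⟨w, hw, hwx⟩ := hx
            have : w = x := Subtype.ext hwx
            exact this ▸ hw
        · intro r hr x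
          rw [Subgroup.mem_subgroupOf]
          apply Subgroup.subset_closure
          exact ⟨r, hr, x, by simp [hφN]⟩
        · have h1 : Nat.card ((commR φ (R : Subgroup H)).subgroupOf N) ≤
              Nat.card (commR φ (R : Subgroup H)) := by
            refine Nat.card_le_card_of_injective
              (fun x : (commR φ (R : Subgroup H)).subgroupOf N =>
                (⟨x.1.1, x.2⟩ : commR φ (R : Subgroup H))) ?_
            intro x y hxy
            have := congrArg Subtype.val hxy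
            exact Subtype.ext (Subtype.ext this)
          exact h1.trans (hcard.trans (Nat.pow_le_pow_right (Fact.out : p.Prime).pos ht))
      obtain ⟨r, hr, hrne⟩ := hR
      have hx : ∃ x : N, φN r x ≠ x := by
        by_contra hcon
        push Not at hcon
        exact hrne (by ext x; exact congrArg Subtype.val (hcon x))
      obtain ⟨x, hx⟩ := hx
      have hcC : φ r x * (x : Q)⁻¹ ∈ commR φ (R : Subgroup H) :=
        Subgroup.subset_closure ⟨r, hr, x, rfl⟩
      have hcN : φ r x * (x : Q)⁻¹ ∈ N := N.mul_mem (hNi r x x.2) (N.inv_mem x.2)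
      have hc1 : φ r x * (x : Q)⁻¹ ≠ 1 := by
        intro h
        apply hx
        ext
        rw [hφN]
        exact mul_inv_eq_one.1 h
      have hle := Chief_card N p (commR φ (R : Subgroup H)) _ hcC hcN (hNp _ hcN) hc1
      rw [← hmap] at hle
      have hpos : 0 < Nat.card (commR φQ (R : Subgroup H)) := Nat.card_pos
      have hp2 : 1 < p := (Fact.out : p.Prime).one_lt
      obtain ⟨t', rfl⟩ : ∃ t', t = t' + 1 := by
        cases t with
        | zero =>
          exfalso
          rw [pow_zero] at hcard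
          nlinarith
        | succ t' => exact ⟨t', rfl⟩
      have hle' : Nat.card (commR φQ (R : Subgroup H)) ≤ p ^ t' := by
        have h := hle.trans hcard
        rw [pow_succ, mul_comm (p ^ t') p] at h
        exact Nat.le_of_mul_le_mul_left h (by omega)
      obtain ⟨K₁, hK₁n, hK₁p, hK₁i⟩ := ih hcardQ (hQ.to_quotient N) φQ t' (by omega) hle'
      refine ⟨K₁ ⊓ φN.ker, inferInstance, hK K₁ hK₁p, ?_⟩
      have h1 : φN.ker.relIndex (Subgroup.normalClosure (R : Set H)) ≤ D ^ D + 1 := by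
        have h2 : φN.ker.relIndex (Subgroup.normalClosure (R : Set H)) ≤ φN.ker.index := by
          apply Nat.le_of_dvd
          · rw [Subgroup.index_ker]; exact Nat.card_pos
          · exact Subgroup.relIndex_dvd_index_of_normal _ _
        rw [Subgroup.index_ker] at h2
        have h3 : Nat.card φN.range ≤ Nat.card (MulAut N) :=
          Nat.card_le_card_of_injective (fun z : φN.range => (z : MulAut N)) Subtype.val_injective
        have h4 := Chief_aut N D hNcard
        omega
      calc (K₁ ⊓ φN.ker).relIndex (Subgroup.normalClosure (R : Set H))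
          ≤ K₁.relIndex (Subgroup.normalClosure (R : Set H)) *
            φN.ker.relIndex (Subgroup.normalClosure (R : Set H)) := Subgroup.relIndex_inf_le
        _ ≤ (D ^ D + 1) ^ t' * (D ^ D + 1) := Nat.mul_le_mul hK₁i h1
        _ = (D ^ D + 1) ^ (t' + 1) := (pow_succ _ _).symm
    · -- trivial action
      push Not at hR
      have hle' : Nat.card (commR φQ (R : Subgroup H)) ≤ p ^ t := by
        rw [hmap]
        exact (Nat.le_of_dvd Nat.card_pos (Subgroup.card_map_dvd _ _)).trans hcard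
      obtain ⟨K₁, hK₁n, hK₁p, hK₁i⟩ := ih hcardQ (hQ.to_quotient N) φQ t ht hle'
      refine ⟨K₁ ⊓ φN.ker, inferInstance, hK K₁ hK₁p, ?_⟩
      have h1 : φN.ker.relIndex (Subgroup.normalClosure (R : Set H)) = 1 := by
        rw [Subgroup.relIndex_eq_one]
        apply Subgroup.normalClosure_le_normal
        intro r hr
        exact (MonoidHom.mem_ker).2 (hR r hr)
      calc (K₁ ⊓ φN.ker).relIndex (Subgroup.normalClosure (R : Set H))
          ≤ K₁.relIndex (Subgroup.normalClosure (R : Set H)) *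
            φN.ker.relIndex (Subgroup.normalClosure (R : Set H)) := Subgroup.relIndex_inf_le
        _ = K₁.relIndex (Subgroup.normalClosure (R : Set H)) := by rw [h1, mul_one]
        _ ≤ (D ^ D + 1) ^ t := hK₁i

/-- **Lemma 4.** With `D` from `card_bound p s` and `b = (D)! `(a bound for `|MulAut N|`,
`|N| ≤ D`, e.g. `D ^ D`), the bound is `b ^ s`. Induction on `|Q|` of the statement with
`|commR φ R| ≤ p ^ t`, `t ≤ s` and bound `b ^ t`: if `Q ≠ 1`, let `N` be minimal among the
non-trivial `H`-invariant subgroups of the centre of `Q` (`Q` is a `p`-group, the centre is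
characteristic and non-trivial); `{x ∈ N : x ^ p = 1}` is invariant and non-trivial, so `N` has
exponent `p`. `H` acts on `Q ⧸ N`; `K₁` by induction, `K = K₁ ⊓ C_H(N)`. `k ∈ K`: `φ k ^ p ^ n` is
trivial on `Q ⧸ N` and on `N`, so `q ↦ q z` with `z ∈ N` fixed, and its `p`-th power is `1`. If
`R` is trivial on `N`, so is `normalClosure R`, and the relative index does not change (`t` stays;
`commR` of the quotient is the image of `commR`). If not: `commR φ R ⊓ N ≠ ⊥`, so the image of
`commR` in `Q ⧸ N` has order `≤ p ^ (t - 1)`, and `|H : C_H(N)| ≤ |MulAut N| ≤ b`;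
`K.relIndex L ≤ K₁.relIndex L * (C_H(N)).relIndex L`. -/
theorem chief_bound (p : ℕ) [Fact p.Prime] (s : ℕ) : ∃ F : ℕ, ∀ {H : Type u} {Q : Type v}
    [Group H] [Finite H] [Group Q] [Finite Q] (_hQ : IsPGroup p Q) (φ : H →* MulAut Q)
    (R : Sylow p H) (_hs : Nat.card (commR φ (R : Subgroup H)) ≤ p ^ s),
    ∃ K : Subgroup H, K.Normal ∧ (∀ k ∈ K, ∃ n : ℕ, φ k ^ p ^ n = 1) ∧
      K.relIndex (Subgroup.normalClosure (R : Set H)) ≤ F := by
  obtain ⟨D, hD⟩ := card_bound.{u, v} p s
  refine ⟨(D ^ D + 1) ^ s, ?_⟩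
  intro H Q _ _ _ _ hQ φ R hs
  refine Chief_ind.{u, v} p s D ?_ R (Nat.card Q) le_rfl hQ φ s le_rfl hs
  intro H N _ _ hG _ hc hN φ hirr R C hC hs hne
  let _ : CommGroup N := { hG with mul_comm := hc }
  exact hD hN φ hirr R C hC hs hne

end MNQ
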