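import Pool.Agent.W_0649q_h65.FusA

/-! MP_0649d4_al, Theorem Q: extension to the normaliser. -/

namespace MNQ

open MNF

private theorem ClimbX_fc {G : Type*} [Group G] [Finite G] {S : Subgroup G}
    (F : FusionSystem S) {Q : Subgroup G} (hQ : F.Centric Q) : F.FullyCentralized Q := by
  intro R hR
  obtain ⟨φ, hφ⟩ := hR
  have hle : cS S R ≤ R := hQ.2 R ⟨φ, hφ⟩
  have key : ∀ x : cS S R, ((φ.symm ⟨x, hle x.2⟩ : Q) : G) ∈ cS S Q := by
    intro x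
    have hx : (x : G) ∈ S ⊓ Subgroup.centralizer (R : Set G) := x.2
    have hx2 := Subgroup.mem_centralizer_iff.1 hx.2
    refine ⟨hQ.1 (φ.symm ⟨x, hle x.2⟩).2, Subgroup.mem_centralizer_iff.2 fun z hz => ?_⟩
    have h1 : (φ ⟨z, hz⟩ : R) * ⟨x, hle x.2⟩ = ⟨x, hle x.2⟩ * φ ⟨z, hz⟩ :=
      Subtype.ext (hx2 _ (φ ⟨z, hz⟩).2)
    have h2 := congrArg φ.symm h1
    rw [map_mul, map_mul, MulEquiv.symm_apply_apply] at h2
    exact congrArg Subtype.val h2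
  refine Nat.card_le_card_of_injective (fun x : cS S R => (⟨_, key x⟩ : cS S Q)) ?_
  intro x y hxy
  have h1 : ((φ.symm ⟨x, hle x.2⟩ : Q) : G) = ((φ.symm ⟨y, hle y.2⟩ : Q) : G) :=
    congrArg (fun z : cS S Q => (z : G)) hxy
  have h2 : (⟨x, hle x.2⟩ : R) = ⟨y, hle y.2⟩ := φ.symm.injective (Subtype.ext h1)
  have h3 : (x : G) = y := congrArg (fun z : R => (z : G)) h2
  exact Subtype.ext h3

/-- Extension to the normaliser: `Q` centric (so fully centralized: `cS S Q ≤ Q` for all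
conjugates), `a ∈ Aut_F(Q)` normalising `Aut_S(Q)` extends to `N_S(Q)` (`Saturated.extend` with
`R = nS S Q`), and the image of `N_S(Q)` is `N_S(Q)` (it normalises `a(Q) = Q`, same order). -/
theorem exists_extend (p : ℕ) [Fact p.Prime] {G : Type*} [Group G] [Finite G] {S : Subgroup G}
    (F : FusionSystem S) (hS : IsPGroup p S) (hF : F.Saturated p) {Q : Subgroup G}
    (hQ : F.Centric Q) (a : MulAut Q) (ha : a ∈ F.aut Q)
    (hn : ∀ t ∈ autS S Q, a * t * a⁻¹ ∈ autS S Q) :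
    ∃ b ∈ F.aut (nS S Q), ∀ (y : nS S Q) (hy : (y : G) ∈ Q), (b y : G) = a ⟨y, hy⟩ := by
  have hQS : Q ≤ S := hQ.1
  have ha' : a ∈ F.iso Q Q := (F.mem_aut hQS _).1 ha
  obtain ⟨R', ψ, hψ, hψa⟩ := hF.extend Q Q (nS S Q) a (le_nS hQS) ha' (ClimbX_fc F hQ)
    inf_le_left (by
      intro g hg
      have hg' := mem_nS.1 hg
      let t : MulAut Q := MulEquiv.mk' ((MulAut.conj g).toEquiv.subtypeEquiv (fun x => hg'.2 x)) (by
        intro a b
        apply Subtype.ext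
        simp)
      have htS : t ∈ autS S Q := ⟨g, hg'.1, fun x => rfl⟩
      obtain ⟨h, hh, hhx⟩ := hn t htS
      refine ⟨h, hh, fun x => ⟨(hg'.2 x).1 x.2, ?_⟩⟩
      have h1 := hhx (a x)
      rw [← h1, MulAut.mul_apply, MulAut.mul_apply, MulAut.inv_apply_self]
      rfl)
  have hR'S : R' ≤ S := F.le_left (F.symm_mem hψ)
  have key : ∀ y ∈ R', ∀ z ∈ Q, y * z * y⁻¹ ∈ Q := by
    intro y hy z hz
    obtain ⟨g, hg⟩ := ψ.surjective ⟨y, hy⟩
    obtain ⟨w, hw⟩ := a.surjective ⟨z, hz⟩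
    have hg' := mem_nS.1 g.2
    have hgw : (g : G) * w * (g : G)⁻¹ ∈ Q := (hg'.2 w).1 w.2
    have h1 := hψa w
    have h2 := hψa ⟨_, hgw⟩
    have h3 : (⟨(g : G) * w * (g : G)⁻¹, mem_le (le_nS hQS) hgw⟩ : nS S Q) =
        g * ⟨w, mem_le (le_nS hQS) w.2⟩ * g⁻¹ := Subtype.ext rfl
    rw [h3, map_mul, map_mul, map_inv, hg] at h2
    have h4 : y * (ψ ⟨w, mem_le (le_nS hQS) w.2⟩ : G) * y⁻¹ = a ⟨_, hgw⟩ := h2
    rw [h1, hw] at h4
    have h5 : y * z * y⁻¹ = a ⟨_, hgw⟩ := h4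
    rw [h5]
    exact (a ⟨_, hgw⟩).2
  have hle : R' ≤ nS S Q := by
    intro y hy
    refine mem_nS.2 ⟨hR'S hy, fun x => ⟨fun hx => key y hy x hx, fun hx => ?_⟩⟩
    have h1 := key y⁻¹ (R'.inv_mem hy) _ hx
    have h2 : y⁻¹ * (y * x * y⁻¹) * y⁻¹⁻¹ = x := by group
    rwa [h2] at h1
  have hcard : Nat.card R' = Nat.card (nS S Q) := (Nat.card_congr ψ.toEquiv).symm
  have heq : R' = nS S Q := Subgroup.eq_of_le_of_card_ge hle hcard.ge
  subst heq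
  exact ⟨ψ, Or.inr hψ, fun y hy => hψa ⟨y, hy⟩⟩

end MNQ
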