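import Pool.Agent.W_0649q_h65.ClimbN
import Pool.Agent.W_0649q_h65.ClimbX

/-! MP_0649d4_al, Theorem Q, Lemma 8. -/

namespace MNQ

open MNF

universe u

theorem relIndex_ne_zero_fin {A : Type*} [Group A] [Finite A] (H K : Subgroup A) :
    H.relIndex K ≠ 0 := Subgroup.index_ne_zero_of_finite

/-- One step: `N ≤ Aut_F(Q)`, every `a ∈ N` extends to some `b ∈ Aut_F(Q₁)`, `Q ≤ Q₁ ≤ S`. Two
elements of `N` whose extensions differ by the restriction of an element of `Aut_F(S)` differ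
themselves by such a restriction. -/
theorem climb_step {G : Type*} [Group G] [Finite G] {S : Subgroup G} (F : FusionSystem S)
    {Q Q₁ : Subgroup G} (hQ : Q ≤ S) (hQ₁ : Q₁ ≤ S) (hQQ : Q ≤ Q₁) (N : Subgroup (MulAut Q))
    (hN : ∀ a ∈ N, ∃ b ∈ F.aut Q₁, ∀ (y : Q₁) (hy : (y : G) ∈ Q), (b y : G) = a ⟨y, hy⟩) :
    (restS F hQ).relIndex N ≤ (restS F hQ₁).relIndex (F.aut Q₁) := by
  classical
  choose! b hb hbe using hN
  have key : ∀ a ∈ N, ∀ a' ∈ N, (b a)⁻¹ * b a' ∈ restS F hQ₁ → a⁻¹ * a' ∈ restS F hQ := by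
    rintro a ha a' ha' ⟨σ, hσ, h⟩
    refine ⟨σ, hσ, fun y => ?_⟩
    have h1 := h ⟨y, hQQ y.2⟩
    have h2 : (b a' ⟨y, hQQ y.2⟩ : G) = a' y := hbe a' ha' ⟨y, hQQ y.2⟩ y.2
    have h3 : ((b a ⟨(a⁻¹ * a') y, hQQ ((a⁻¹ * a') y).2⟩ : Q₁) : G) = a' y := by
      rw [hbe a ha ⟨(a⁻¹ * a') y, hQQ ((a⁻¹ * a') y).2⟩ ((a⁻¹ * a') y).2]
      change ((a ((a⁻¹ * a') y) : Q) : G) = a' y
      rw [MulAut.mul_apply, MulAut.apply_inv_self]
    have h4 : b a' ⟨y, hQQ y.2⟩ = b a ⟨(a⁻¹ * a') y, hQQ ((a⁻¹ * a') y).2⟩ :=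
      Subtype.ext (h2.trans h3.symm)
    rw [MulAut.mul_apply, h4, MulAut.inv_apply_self] at h1
    exact h1
  let g : (N ⧸ (restS F hQ).subgroupOf N) → (F.aut Q₁ ⧸ (restS F hQ₁).subgroupOf (F.aut Q₁)) :=
    fun q => QuotientGroup.mk ⟨b (q.out : N), hb _ (q.out : N).2⟩
  have hg : Function.Injective g := by
    intro q q' hqq
    have h1 := QuotientGroup.eq.1 hqq
    rw [Subgroup.mem_subgroupOf] at h1
    have h2 := key _ (q.out : N).2 _ (q'.out : N).2 h1
    have h3 : (QuotientGroup.mk (q.out) : N ⧸ (restS F hQ).subgroupOf N) =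
        QuotientGroup.mk (q'.out) := by
      rw [QuotientGroup.eq, Subgroup.mem_subgroupOf]
      exact h2
    rwa [QuotientGroup.out_eq', QuotientGroup.out_eq'] at h3
  exact Nat.card_le_card_of_injective g hg

/-- **Lemma 8.** By induction on `|S| - |Q|`: the restrictions to `Q` of elements of `Aut_F(S)` have
bounded index in `Aut_F(Q)`. `Q₁ = nS S Q` (centric by `Centric.mono`, of index `≤ f`,
`|Q₁| ≥ p |Q|` if `Q < S`, so with `c` from `normalizer_autS` the bound is `c ^ f`; state the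
induction with the bound `c ^ t` for `Q.relIndex S ≤ p ^ t` or `≤ t`..). -/
theorem climb (p : ℕ) [Fact p.Prime] (s f : ℕ) : ∃ c : ℕ, ∀ {G : Type u} [Group G]
    [Finite G] {S : Subgroup G} (F : FusionSystem S) (_hS : IsPGroup p S) (_hF : F.Saturated p)
    (_hs : Nat.card (commutator S) ≤ p ^ s) {Q : Subgroup G} (hQ : F.Centric Q)
    (_hi : Q.relIndex S ≤ f), (restS F hQ.1).relIndex (F.aut Q) ≤ c := by
  obtain ⟨c₀, hc₀⟩ := normalizer_autS.{u} p s f
  refine ⟨(max c₀ 1) ^ f, ?_⟩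
  intro G _ _ S F hS hF hs
  have main : ∀ t : ℕ, ∀ {Q : Subgroup G} (hQ : F.Centric Q), Q.relIndex S ≤ f →
      Q.relIndex S ≤ t → (restS F hQ.1).relIndex (F.aut Q) ≤ (max c₀ 1) ^ t := by
    intro t
    induction t with
    | zero =>
      intro Q hQ hf ht
      exact absurd (Nat.le_zero.1 ht) (relIndex_ne_zero_fin _ _)
    | succ t ih =>
      intro Q hQ hf ht
      have hc1 : 1 ≤ max c₀ 1 := le_max_right _ _
      rcases eq_or_lt_of_le hQ.1 with heq | hlt
      · -- `Q = S`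
        subst heq
        have h1 : F.aut Q ≤ restS F hQ.1 := fun a ha => ⟨a, ha, fun y => rfl⟩
        rw [Subgroup.relIndex_eq_one.2 h1]
        exact Nat.one_le_pow _ _ hc1
      · have hn := lt_nS hS hlt
        have hnS : nS S Q ≤ S := inf_le_left
        have hc : F.Centric (nS S Q) := hQ.mono hn.le hnS
        have hmul := Subgroup.relIndex_mul_relIndex Q (nS S Q) S hn.le hnS
        have h2 : 2 ≤ Q.relIndex (nS S Q) := by
          have h0 : Q.relIndex (nS S Q) ≠ 0 := relIndex_ne_zero_fin _ _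
          have h1 : Q.relIndex (nS S Q) ≠ 1 := fun h =>
            absurd (Subgroup.relIndex_eq_one.1 h) (not_le_of_gt hn)
          omega
        have h3 : 1 ≤ (nS S Q).relIndex S :=
          Nat.one_le_iff_ne_zero.2 (relIndex_ne_zero_fin _ _)
        have h4 : (nS S Q).relIndex S ≤ t := by nlinarith
        have h5 : (nS S Q).relIndex S ≤ f := by nlinarith
        have h6 := ih hc h5 h4
        obtain ⟨N, hN, hNi, hNn⟩ := hc₀ F hS hF hs hQ hf
        have h7 := climb_step F hQ.1 hc.1 hn.le N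
          (fun a ha => exists_extend p F hS hF hQ a (hN ha) (hNn a ha))
        have h8 : ((restS F hQ.1) ⊓ N).relIndex N = (restS F hQ.1).relIndex N :=
          Subgroup.inf_relIndex_right _ _
        have h9 := Subgroup.relIndex_mul_relIndex ((restS F hQ.1) ⊓ N) N (F.aut Q)
          inf_le_right hN
        have h10 : (restS F hQ.1).relIndex (F.aut Q) ≤
            ((restS F hQ.1) ⊓ N).relIndex (F.aut Q) :=
          Subgroup.relIndex_le_of_le_left inf_le_left (relIndex_ne_zero_fin _ _)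
        calc (restS F hQ.1).relIndex (F.aut Q)
            ≤ (restS F hQ.1).relIndex N * N.relIndex (F.aut Q) := by
              rw [← h8, h9]; exact h10
          _ ≤ (max c₀ 1) ^ t * max c₀ 1 :=
              Nat.mul_le_mul (h7.trans h6) (hNi.trans (le_max_left _ _))
          _ = (max c₀ 1) ^ (t + 1) := (pow_succ _ _).symm
  intro Q hQ hi
  exact main f hQ hi hi

end MNQ
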