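import Pool.Agent.W_0649q_h65.FusA

/-! MP_0649d4_al, Theorem Q: the normaliser of `Aut_S(Q)`. -/

namespace MNQ

open MNF

universe u

/-- A normal subgroup `N` of a finite group: the kernel of the conjugation action has index at
most `|N| !`. -/
theorem ClimbN_aux1 {B : Type*} [Group B] [Finite B] (N : Subgroup B) [N.Normal] :
    (MulAut.conjNormal (H := N)).ker.index ≤ (Nat.card N).factorial := by
  classical
  rw [Subgroup.index_ker]
  refine (Nat.card_le_card_of_injective (fun x => x.1) Subtype.val_injective).trans ?_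
  have h1 : Nat.card (Equiv.Perm N) = (Nat.card N).factorial := by
    have := Fintype.ofFinite N
    rw [Nat.card_eq_fintype_card, Fintype.card_perm, Nat.card_eq_fintype_card]
  rw [← h1]
  exact Nat.card_le_card_of_injective (fun a : MulAut N => a.toEquiv) fun a b h => by
    ext x
    exact congrArg Subtype.val (DFunLike.congr_fun h x)

/-- `I ≤ W ≤ L`, `I` and `L` normal in `A`, `|L : I| ≤ u`: the normaliser of `W` in `A` has index at
most `u !`: it contains the kernel of the action of `A` on `L ⧸ I` by conjugation. -/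
theorem index_normalizer_le {A : Type*} [Group A] [Finite A] (I L W : Subgroup A) (hI : I.Normal)
    (hL : L.Normal) (hIW : I ≤ W) (hWL : W ≤ L) (u : ℕ) (hu : I.relIndex L ≤ u) :
    (Subgroup.normalizer (W : Set A)).index ≤ u.factorial := by
  classical
  have _ := hI
  have _ := hL
  have hN : (L.map (QuotientGroup.mk' I)).Normal :=
    hL.map _ (QuotientGroup.mk'_surjective I)
  have _ := hN
  set N : Subgroup (A ⧸ I) := L.map (QuotientGroup.mk' I) with hNdef
  set K : Subgroup A := (MulAut.conjNormal (H := N)).ker.comap (QuotientGroup.mk' I) with hK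
  have hcard : Nat.card N = I.relIndex L := by
    rw [hNdef, ← Subgroup.relIndex_ker, QuotientGroup.ker_mk']
  have hKi : K.index ≤ u.factorial := by
    rw [hK, Subgroup.index_comap_of_surjective _ (QuotientGroup.mk'_surjective I)]
    refine (ClimbN_aux1 N).trans ?_
    rw [hcard]
    exact Nat.factorial_le hu
  have key : ∀ a ∈ K, ∀ w ∈ W, a * w * a⁻¹ ∈ W := by
    intro a ha w hw
    have h1 : MulAut.conjNormal (H := N) (QuotientGroup.mk' I a) = 1 := ha
    have hwN : (QuotientGroup.mk' I w) ∈ N := Subgroup.mem_map_of_mem _ (hWL hw)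
    have h2 := congrArg Subtype.val (DFunLike.congr_fun h1 ⟨QuotientGroup.mk' I w, hwN⟩)
    rw [MulAut.conjNormal_apply] at h2
    have h3 : QuotientGroup.mk' I (a * w * a⁻¹) = QuotientGroup.mk' I w := by
      rw [map_mul, map_mul, map_inv]
      exact h2
    have h4 : (a * w * a⁻¹)⁻¹ * w ∈ I := QuotientGroup.eq.mp h3
    have h5 := W.mul_mem hw (W.inv_mem (hIW h4))
    have h6 : w * ((a * w * a⁻¹)⁻¹ * w)⁻¹ = a * w * a⁻¹ := by group
    rw [h6] at h5
    exact h5
  have hle : K ≤ Subgroup.normalizer (W : Set A) := by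
    intro a ha
    rw [Subgroup.mem_normalizer_iff]
    intro w
    constructor
    · exact key a ha w
    · intro h
      have h1 := key a⁻¹ (K.inv_mem ha) _ h
      have h2 : a⁻¹ * (a * w * a⁻¹) * a⁻¹⁻¹ = w := by group
      rw [h2] at h1
      exact h1
  refine (Nat.le_of_dvd ?_ (Subgroup.index_dvd_of_le hle)).trans hKi
  exact Nat.pos_of_ne_zero Subgroup.index_ne_zero_of_finite

/-- A `p`-subgroup is contained in the normal closure of a Sylow subgroup. -/
theorem ClimbN_aux2 {A : Type*} [Group A] [Finite A] (p : ℕ) [Fact p.Prime] (R : Sylow p A)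
    (W : Subgroup A) (hW : IsPGroup p W) : W ≤ Subgroup.normalClosure ((R : Subgroup A) : Set A) := by
  obtain ⟨P, hP⟩ := hW.exists_le_sylow
  obtain ⟨g, hg⟩ := MulAction.exists_smul_eq A R P
  intro w hw
  have h1 : w ∈ (P : Subgroup A) := hP hw
  rw [← hg] at h1
  rw [Sylow.coe_subgroup_smul, Subgroup.mem_pointwise_smul_iff_inv_smul_mem] at h1
  have h2 := (inferInstance : (Subgroup.normalClosure ((R : Subgroup A) : Set A)).Normal).conj_mem
    _ (Subgroup.subset_normalClosure h1) g
  have h3 : g * ((MulAut.conj g)⁻¹ • w) * g⁻¹ = w := by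
    rw [← map_inv, MulAut.smul_def, MulAut.conj_apply]
    group
  rw [h3] at h2
  exact h2

/-- The normaliser of `Aut_S(Q)` has bounded index in `Aut_F(Q)`, `Q` centric. `F₀` from
`chief_bound p s`, `H = Aut_F(Q)` with `φ` the inclusion in `MulAut Q`; `K` from there,
`W = K ⊔ Inn(Q)` is a normal `p`-subgroup of `H`, `|W : Inn(Q)| ≤ |S : Q|` (`card_le_inn`);
`L` = normal closure of a Sylow subgroup contains all `p`-subgroups, so
`|L : Inn(Q)| ≤ |L : L ⊓ W| |L ⊓ W : Inn(Q)| ≤ F₀ f`; `index_normalizer_le`. -/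
theorem normalizer_autS (p : ℕ) [Fact p.Prime] (s f : ℕ) : ∃ c : ℕ, ∀ {G : Type u} [Group G]
    [Finite G] {S : Subgroup G} (F : FusionSystem S) (_hS : IsPGroup p S) (_hF : F.Saturated p)
    (_hs : Nat.card (commutator S) ≤ p ^ s) {Q : Subgroup G} (_hQ : F.Centric Q)
    (_hi : Q.relIndex S ≤ f), ∃ N : Subgroup (MulAut Q), N ≤ F.aut Q ∧
      N.relIndex (F.aut Q) ≤ c ∧ ∀ a ∈ N, ∀ t ∈ autS S Q, a * t * a⁻¹ ∈ autS S Q := by
  classical
  obtain ⟨F₀, hF₀⟩ := chief_bound.{u, u} p s
  refine ⟨(F₀ * f).factorial, ?_⟩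
  intro G _ _ S F hS hF hs Q hQ hi
  have hQS : Q ≤ S := hQ.1
  have hQp : IsPGroup p Q := by
    intro y
    obtain ⟨k, hk⟩ := hS ⟨y, hQS y.2⟩
    have hk' : (y : G) ^ p ^ k = 1 := congrArg Subtype.val hk
    exact ⟨k, Subtype.ext hk'⟩
  have _ : Finite (MulAut Q) := Finite.of_injective (fun a : MulAut Q => a.toEquiv) fun a b h => by
    ext x
    exact congrArg Subtype.val (DFunLike.congr_fun h x)
  obtain ⟨R⟩ : Nonempty (Sylow p (F.aut Q)) := inferInstance
  -- the bound for the commutator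
  have hRle : (R : Subgroup (F.aut Q)).map (F.aut Q).subtype ≤ F.aut Q := by
    rintro _ ⟨r, -, rfl⟩
    exact r.2
  have hRp : IsPGroup p ((R : Subgroup (F.aut Q)).map (F.aut Q).subtype) := R.isPGroup'.map _
  have hcomm := card_comm_le F p hS hF hQS _ hRle hRp
  have heq : Subgroup.closure {c : Q | ∃ r ∈ (R : Subgroup (F.aut Q)).map (F.aut Q).subtype,
      ∃ q : Q, c = r q * q⁻¹} = commR (F.aut Q).subtype (R : Subgroup (F.aut Q)) := by
    unfold commR
    congr 1
    ext c
    constructor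
    · rintro ⟨_, ⟨r, hr, rfl⟩, q, rfl⟩
      exact ⟨r, hr, q, rfl⟩
    · rintro ⟨r, hr, q, rfl⟩
      exact ⟨_, ⟨r, hr, rfl⟩, q, rfl⟩
  rw [heq] at hcomm
  obtain ⟨K, hKn, hKp, hKi⟩ := hF₀ hQp (F.aut Q).subtype R (hcomm.trans hs)
  have hKp' : IsPGroup p K := by
    rintro ⟨k, hk⟩
    obtain ⟨n, hn⟩ := hKp k hk
    refine ⟨n, Subtype.ext ?_⟩
    apply Subtype.ext
    exact hn
  have hinnp : IsPGroup p (F.inn Q) := by
    rintro ⟨a, ha⟩
    obtain ⟨y, hy⟩ := Subgroup.mem_subgroupOf.mp ha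
    obtain ⟨n, hn⟩ := hQp y
    refine ⟨n, Subtype.ext (Subtype.ext ?_)⟩
    change (a : MulAut Q) ^ p ^ n = 1
    rw [← hy, ← map_pow, hn, map_one]
  have _ := hKn
  set W' : Subgroup (F.aut Q) := K ⊔ F.inn Q with hW'
  have hW'p : IsPGroup p W' := hKp'.to_sup_of_normal_right hinnp
  -- the index of `Inn(Q)` in `W'`
  have hinncard : Nat.card (F.inn Q) = Nat.card (MulAut.conj (G := Q)).range := by
    unfold FusionSystem.inn
    have h1 : (MulAut.conj (G := Q)).range ≤ F.aut Q := by
      rintro _ ⟨y, rfl⟩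
      exact autS_le_aut F hQS (conj_mem_autS hQS y)
    exact Nat.card_congr (Subgroup.subgroupOfEquivOfLe h1).toEquiv
  have hWle : W'.map (F.aut Q).subtype ≤ F.aut Q := by
    rintro _ ⟨r, -, rfl⟩
    exact r.2
  have hcW := card_le_inn F p hS hF hQS (W'.map (F.aut Q).subtype) hWle (hW'p.map _)
  have hcW' : Nat.card W' ≤ Nat.card (F.inn Q) * Q.relIndex S := by
    rw [hinncard]
    refine le_of_eq_of_le ?_ hcW
    exact (Nat.card_congr (W'.equivMapOfInjective _ (F.aut Q).subtype_injective).toEquiv)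
  have hrel1 : (F.inn Q).relIndex W' ≤ Q.relIndex S := by
    have h1 : Nat.card (F.inn Q) * (F.inn Q).relIndex W' = Nat.card W' :=
      by
        rw [← Subgroup.relIndex_bot_left, ← Subgroup.relIndex_bot_left]
        exact Subgroup.relIndex_mul_relIndex _ _ _ bot_le le_sup_right
    rw [← h1] at hcW'
    exact Nat.le_of_mul_le_mul_left hcW' Nat.card_pos
  set L : Subgroup (F.aut Q) := Subgroup.normalClosure ((R : Subgroup (F.aut Q)) : Set (F.aut Q))
    with hLdef
  have hinnL : F.inn Q ≤ L := ClimbN_aux2 p R _ hinnp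
  have hrelL : (F.inn Q).relIndex L ≤ F₀ * f := by
    have hI : F.inn Q ≤ L ⊓ W' := le_inf hinnL le_sup_right
    have h1 : (F.inn Q).relIndex (L ⊓ W') * (L ⊓ W').relIndex L = (F.inn Q).relIndex L :=
      Subgroup.relIndex_mul_relIndex _ _ _ hI inf_le_left
    have h2 : (F.inn Q).relIndex (L ⊓ W') ≤ f := by
      refine le_trans ?_ (hrel1.trans hi)
      have h3 : (F.inn Q).relIndex (L ⊓ W') * (L ⊓ W').relIndex W' = (F.inn Q).relIndex W' :=
        Subgroup.relIndex_mul_relIndex _ _ _ hI inf_le_right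
      rw [← h3]
      exact Nat.le_mul_of_pos_right _ (Nat.pos_of_ne_zero Subgroup.index_ne_zero_of_finite)
    have h4 : (L ⊓ W').relIndex L ≤ F₀ := by
      rw [inf_comm, Subgroup.inf_relIndex_right]
      have h5 : W'.relIndex L ≤ K.relIndex L := by
        refine Nat.le_of_dvd (Nat.pos_of_ne_zero Subgroup.index_ne_zero_of_finite) ?_
        exact Subgroup.relIndex_dvd_of_le_left L le_sup_left
      exact h5.trans hKi
    rw [← h1, mul_comm]
    exact Nat.mul_le_mul h4 h2
  -- the normaliser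
  set T : Subgroup (F.aut Q) := (autS S Q).subgroupOf (F.aut Q) with hT
  have hTp : IsPGroup p T := (CAlperin_autS_pGroup hS Q).comap_subtype
  have hTL : T ≤ L := ClimbN_aux2 p R _ hTp
  have hinnT : F.inn Q ≤ T := by
    intro a ha
    obtain ⟨y, hy⟩ := Subgroup.mem_subgroupOf.mp ha
    refine Subgroup.mem_subgroupOf.mpr ?_
    rw [← hy]
    exact conj_mem_autS hQS y
  have hidx := index_normalizer_le (F.inn Q) L T inferInstance inferInstance hinnT hTL _ hrelL
  refine ⟨(Subgroup.normalizer (T : Set (F.aut Q))).map (F.aut Q).subtype, ?_, ?_, ?_⟩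
  · rintro _ ⟨r, -, rfl⟩
    exact r.2
  · have h1 : ((Subgroup.normalizer (T : Set (F.aut Q))).map (F.aut Q).subtype).relIndex (F.aut Q) =
        (Subgroup.normalizer (T : Set (F.aut Q))).index := by
      unfold Subgroup.relIndex Subgroup.subgroupOf
      rw [Subgroup.comap_map_eq_self_of_injective (F.aut Q).subtype_injective]
    rw [h1]
    exact hidx
  · rintro _ ⟨a, ha, rfl⟩ t ht
    have htA : t ∈ F.aut Q := autS_le_aut F hQS ht
    have h1 : (⟨t, htA⟩ : F.aut Q) ∈ T := Subgroup.mem_subgroupOf.mpr ht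
    have h2 := (Subgroup.mem_normalizer_iff.mp ha ⟨t, htA⟩).mp h1
    exact Subgroup.mem_subgroupOf.mp h2

end MNQ
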