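import Pool.Agent.W_0649d4_h52.ZpC

/-! MP_0649d4_al, Theorem Q: `ℤ_p` embeds in `ℂ` (proved in `W_0649d4_h52.ZpC`). -/

namespace MNQ

variable (p : ℕ) [Fact p.Prime]

/-- There is an injective ring homomorphism `ℤ_p → ℂ`. -/
theorem exists_embedding : ∃ σ : ℤ_[p] →+* ℂ, Function.Injective σ :=
  Pool.Agent.W_0649d4_h52.exists_ringHom_padicInt p

end MNQ
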