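import Pool.Agent.W_0649q_h65.FusA

/-! MP_0649d4_al, Theorem Q: relevant pairs. -/

namespace MNQ

open MNF

variable {G : Type*} [Group G] [Finite G] {S : Subgroup G} (F : FusionSystem S)
  {k : Type*} [Field k]

theorem FusB_mem_cent_aut {x : S} {Q : Subgroup G} (hQS : Q ≤ S) (hxQ : (x : G) ∈ Q)
    (hxc : ∀ y ∈ Q, y * (x : G) = x * y) {a : MulAut Q} :
    a ∈ (F.cent x).aut Q ↔ a ∈ autFix F (x : G) Q := by
  have hQC : Q ≤ cS S (Subgroup.zpowers (x : G)) := by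
    intro y hy
    rw [mem_cS_zpowers]
    exact ⟨hQS hy, (hxc y hy).symm⟩
  constructor
  · intro h
    refine ⟨F.cent_aut_le x Q h, ?_⟩
    rintro ⟨y, hy⟩ hyx
    have hyx' : y = x := hyx
    subst hyx'
    rcases h with rfl | ⟨-, -, P', Q', ψ, h, hx', hψ, hψx, hφψ⟩
    · rfl
    · rw [hφψ]
      exact hψx
  · rintro ⟨h1, h2⟩
    refine Or.inr ⟨hQC, hQC, Q, Q, a, le_rfl, hxQ, (F.mem_aut hQS _).mp h1, h2 ⟨x, hxQ⟩ rfl,
      fun y => rfl⟩

/-- A pair `(x, Q)` contributing to `k(F, α)` is relevant: `centric_of_cent_centric`,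
`mem_of_cent_centric`; `zNum_centFam` identifies the number with `z(k_α Γ)`, `Γ` = image of
`A_Q(x)` in `Out_F(Q)`; the image of a normal `p`-subgroup `W` of `A_Q(x)` is a normal `p`-subgroup
of `Γ`, so trivial by `zNum_eq_zero`. -/
theorem relevant_of_zNum_ne_zero [IsAlgClosed k] (p : ℕ) [Fact p.Prime] [CharP k p]
    (hS : IsPGroup p S) (hF : F.Saturated p) (α : ∀ P : Subgroup G, Cocycle (F.Out P) k) (x : S)
    (hx : F.FullyCentralized (Subgroup.zpowers (x : G))) {Q : Subgroup G}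
    (hQ : (F.cent x).Centric Q) (hz : zNum (TwAlg (centFam F α x Q)) ≠ 0) :
    Relevant F p (x : G) Q := by
  have hQc : F.Centric Q := centric_of_cent_centric F p hF x hx hQ
  have hxQ : (x : G) ∈ Q := mem_of_cent_centric F x hQ
  have hxc : ∀ y ∈ Q, y * (x : G) = x * y := fun y hy => ((mem_cS_zpowers.mp (hQ.1 hy)).2).symm
  refine ⟨hQc, hxQ, hxc, ?_⟩
  intro W hW hWn hWp
  have key : ∀ a : MulAut Q, a ∈ (F.cent x).aut Q ↔ a ∈ autFix F (x : G) Q :=
    fun a => FusB_mem_cent_aut F hQc.1 hxQ hxc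
  let V : Subgroup ((F.cent x).aut Q) := W.subgroupOf ((F.cent x).aut Q)
  have hV : V.Normal := by
    refine ⟨fun t ht a => ?_⟩
    refine Subgroup.mem_subgroupOf.mpr ?_
    exact hWn _ ((key _).mp a.2) _ (Subgroup.mem_subgroupOf.mp ht)
  have hVp : IsPGroup p V := hWp.comap_subtype
  have hU : (V.map (QuotientGroup.mk' ((F.cent x).inn Q))).Normal :=
    hV.map _ (QuotientGroup.mk'_surjective _)
  have hUp : IsPGroup p (V.map (QuotientGroup.mk' ((F.cent x).inn Q))) := hVp.map _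
  have hbot : V.map (QuotientGroup.mk' ((F.cent x).inn Q)) = ⊥ := by
    by_contra hne
    exact hz (zNum_eq_zero p (centFam F α x Q)
      (V.map (QuotientGroup.mk' ((F.cent x).inn Q))) hUp hne)
  intro w hw
  have hwA : w ∈ (F.cent x).aut Q := (key w).mpr (hW hw)
  have h1 : QuotientGroup.mk' ((F.cent x).inn Q) ⟨w, hwA⟩ ∈
      V.map (QuotientGroup.mk' ((F.cent x).inn Q)) :=
    Subgroup.mem_map_of_mem _ (Subgroup.mem_subgroupOf.mpr hw)
  rw [hbot, Subgroup.mem_bot] at h1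
  have h2 : (⟨w, hwA⟩ : (F.cent x).aut Q) ∈ (F.cent x).inn Q :=
    (QuotientGroup.eq_one_iff _).mp h1
  exact Subgroup.mem_subgroupOf.mp h2

/-- Transport of relevance along `φ : Q ≃ Q'` in `F` with `φ x = x'`
(`MulAut.congr φ` maps `A_Q(x)` onto `A_{Q'}(x')` and `Inn` onto `Inn`; `Centric.conj`). -/
theorem Relevant.transport (p : ℕ) {x x' : G} {Q Q' : Subgroup G} (h : Relevant F p x Q)
    (φ : Q ≃* Q') (hφ : φ ∈ F.iso Q Q') (hx : ∀ y : Q, (y : G) = x → (φ y : G) = x') :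
    Relevant F p x' Q' := by
  obtain ⟨hc, hxQ, hxc, hW⟩ := h
  have hc' : F.Centric Q' := hc.conj ⟨φ, hφ⟩
  have hφx : (φ ⟨x, hxQ⟩ : G) = x' := hx ⟨x, hxQ⟩ rfl
  have hx'Q : x' ∈ Q' := by
    rw [← hφx]
    exact (φ _).2
  have hφx2 : φ ⟨x, hxQ⟩ = ⟨x', hx'Q⟩ := Subtype.ext hφx
  have hsx : φ.symm ⟨x', hx'Q⟩ = ⟨x, hxQ⟩ := by
    rw [← hφx2, MulEquiv.symm_apply_apply]
  refine ⟨hc', hx'Q, ?_, ?_⟩
  · intro y hy
    have h1 : (φ.symm ⟨y, hy⟩ : Q) * ⟨x, hxQ⟩ = ⟨x, hxQ⟩ * φ.symm ⟨y, hy⟩ :=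
      Subtype.ext (hxc _ (φ.symm ⟨y, hy⟩).2)
    have h2 := congrArg φ h1
    rw [map_mul, map_mul, hφx2, MulEquiv.apply_symm_apply] at h2
    exact congrArg Subtype.val h2
  · intro W' hW' hWn' hWp'
    -- conjugation of automorphisms by `φ`
    have hcv : ∀ (w : MulAut Q') (y : Q), MulAut.congr φ.symm w y = φ.symm (w (φ y)) :=
      fun w y => rfl
    have hci : ∀ (w : MulAut Q) (y : Q'), (MulAut.congr φ.symm).symm w y = φ (w (φ.symm y)) :=
      fun w y => rfl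
    have hfix : ∀ w : MulAut Q', w ∈ autFix F x' Q' → MulAut.congr φ.symm w ∈ autFix F x Q := by
      rintro w ⟨h1, h2⟩
      refine ⟨?_, ?_⟩
      · rw [F.mem_aut hc.1]
        have h3 := (F.mem_aut hc'.1 _).mp h1
        exact F.trans_mem hφ (F.trans_mem h3 (F.symm_mem hφ))
      · rintro ⟨y, hy⟩ hyx
        have hyx' : y = x := hyx
        subst hyx'
        rw [hcv, hφx2]
        have h4 : w ⟨x', hx'Q⟩ = ⟨x', hx'Q⟩ := Subtype.ext (h2 ⟨x', hx'Q⟩ rfl)
        rw [h4, hsx]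
    have hfixi : ∀ w : MulAut Q, w ∈ autFix F x Q →
        (MulAut.congr φ.symm).symm w ∈ autFix F x' Q' := by
      rintro w ⟨h1, h2⟩
      refine ⟨?_, ?_⟩
      · rw [F.mem_aut hc'.1]
        have h3 := (F.mem_aut hc.1 _).mp h1
        exact F.trans_mem (F.symm_mem hφ) (F.trans_mem h3 hφ)
      · rintro ⟨y, hy⟩ hyx
        have hyx' : y = x' := hyx
        subst hyx'
        rw [hci, hsx]
        have h4 : w ⟨x, hxQ⟩ = ⟨x, hxQ⟩ := Subtype.ext (h2 ⟨x, hxQ⟩ rfl)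
        rw [h4, hφx2]
    have hmap := hW (W'.map (MulAut.congr φ.symm).toMonoidHom) ?_ ?_ (hWp'.map _)
    · intro w hw
      have h1 : MulAut.congr φ.symm w ∈ (MulAut.conj (G := Q)).range :=
        hmap (Subgroup.mem_map_of_mem _ hw)
      obtain ⟨q, hq⟩ := h1
      refine ⟨φ q, ?_⟩
      apply MulEquiv.ext
      intro y
      have h2 : (MulAut.conj q : MulAut Q) (φ.symm y) = φ.symm (w (φ (φ.symm y))) := by
        rw [hq]
        rfl
      rw [MulEquiv.apply_symm_apply] at h2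
      have h3 := congrArg φ h2
      rw [MulEquiv.apply_symm_apply, MulAut.conj_apply, map_mul, map_mul, map_inv,
        MulEquiv.apply_symm_apply] at h3
      rw [MulAut.conj_apply]
      exact h3
    · rintro _ ⟨w, hw, rfl⟩
      exact hfix w (hW' hw)
    · rintro a ha _ ⟨w, hw, rfl⟩
      refine ⟨(MulAut.congr φ.symm).symm a * w * ((MulAut.congr φ.symm).symm a)⁻¹,
        hWn' _ (hfixi a ha) _ hw, ?_⟩
      show MulAut.congr φ.symm ((MulAut.congr φ.symm).symm a * w *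
        ((MulAut.congr φ.symm).symm a)⁻¹) = a * MulAut.congr φ.symm w * a⁻¹
      rw [map_mul, map_mul, map_inv, MulEquiv.apply_symm_apply]

end MNQ
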