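import Pool.Agent.W_0649q_h65.IndexG
import Pool.Agent.W_0649q_h65.FusB

/-! MP_0649d4_al, Theorem Q: the comparison with `Aut_F(S)`. -/

namespace MNQ

open MNF

/-- The subgroups between `M` and `S` are unions of cosets: at most `2 ^ |S : M|` of them. -/
theorem card_between_le {G : Type*} [Group G] [Finite G] (M S : Subgroup G) (hM : M ≤ S) :
    Nat.card {Q : Subgroup G // M ≤ Q ∧ Q ≤ S} ≤ 2 ^ M.relIndex S := by
  classical
  let X := S ⧸ M.subgroupOf S
  haveI : Finite X := inferInstance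
  let f : {Q : Subgroup G // M ≤ Q ∧ Q ≤ S} → Set X :=
    fun Q => {q | ∃ s : S, (s : G) ∈ Q.1 ∧ (QuotientGroup.mk s : X) = q}
  have hkey : ∀ Q : {Q : Subgroup G // M ≤ Q ∧ Q ≤ S}, ∀ s : S,
      (QuotientGroup.mk s : X) ∈ f Q ↔ (s : G) ∈ Q.1 := by
    intro Q s
    constructor
    · rintro ⟨t, ht, hts⟩
      have h1 : t⁻¹ * s ∈ M.subgroupOf S := QuotientGroup.eq.mp hts
      have h2 : (t : G)⁻¹ * (s : G) ∈ M := Subgroup.mem_subgroupOf.mp h1
      have h3 : (t : G) * ((t : G)⁻¹ * (s : G)) ∈ Q.1 := Q.1.mul_mem ht (Q.2.1 h2)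
      rwa [mul_inv_cancel_left] at h3
    · intro hs
      exact ⟨s, hs, rfl⟩
  have hf : Function.Injective f := by
    intro Q Q' h
    apply Subtype.ext
    ext g
    constructor
    · intro hg
      have h1 := (hkey Q ⟨g, Q.2.2 hg⟩).mpr hg
      rw [h] at h1
      exact (hkey Q' ⟨g, Q.2.2 hg⟩).mp h1
    · intro hg
      have h1 := (hkey Q' ⟨g, Q'.2.2 hg⟩).mpr hg
      rw [← h] at h1
      exact (hkey Q ⟨g, Q'.2.2 hg⟩).mp h1
  have hle := Nat.card_le_card_of_injective f hf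
  have hcard : Nat.card (Set X) = 2 ^ M.relIndex S := by
    haveI : Fintype X := Fintype.ofFinite X
    rw [Nat.card_eq_fintype_card, Fintype.card_set, ← Nat.card_eq_fintype_card]
    rfl
  rwa [hcard] at hle

/-- The kernel of `D → Out_F(S)` is a `p`-group. -/
theorem FinA_ker {G : Type*} [Group G] {S : Subgroup G} (F : FusionSystem S)
    (p : ℕ) (hS : IsPGroup p S) (D : Subgroup (F.aut S)) :
    IsPGroup p ((QuotientGroup.mk' (F.inn S)).subgroupMap D).ker := by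
  rintro ⟨a, ha⟩
  rw [MonoidHom.mem_ker] at ha
  have h1 : QuotientGroup.mk' (F.inn S) (a : F.aut S) = 1 := congrArg Subtype.val ha
  rw [QuotientGroup.mk'_apply, QuotientGroup.eq_one_iff] at h1
  obtain ⟨s, hs⟩ := Subgroup.mem_subgroupOf.mp h1
  obtain ⟨n, hn⟩ := hS s
  refine ⟨n, ?_⟩
  apply Subtype.ext
  apply Subtype.ext
  apply Subtype.ext
  show ((a : F.aut S) : MulAut S) ^ p ^ n = 1
  have h2 : ((a : F.aut S) : MulAut S) = MulAut.conj s := hs.symm
  rw [h2, ← map_pow, hn, map_one]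

/-- The stabiliser in `Aut_F(S)` of `x` and of `Q`. -/
def stabXQ {G : Type*} [Group G] {S : Subgroup G} (F : FusionSystem S) (x : S) (Q : Subgroup G) :
    Subgroup (F.aut S) where
  carrier := {a | (a : MulAut S) x = x ∧ ∀ y : S, (y : G) ∈ Q ↔ ((a : MulAut S) y : G) ∈ Q}
  one_mem' := ⟨rfl, fun _ => Iff.rfl⟩
  mul_mem' := fun {a b} ha hb => ⟨by
    show (a : MulAut S) ((b : MulAut S) x) = x
    rw [hb.1, ha.1], fun y => (hb.2 y).trans (ha.2 _)⟩
  inv_mem' := fun {a} ha => ⟨by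
    show (a : MulAut S)⁻¹ x = x
    conv_lhs => rw [← ha.1]
    exact MulAut.inv_apply_self _ _ _, fun y => by
    have h := ha.2 ((a : MulAut S)⁻¹ y)
    rw [MulAut.apply_inv_self] at h
    exact h.symm⟩

/-- `l(k_{α_Q} Γ') ≤ l(k_{α_S} Ē)`, `E = stabXQ`, `Γ'` = image in `Out_F(Q)` of the restrictions of
`E` (given as a subgroup `N` with `h1`, `h2`), `Ē` = image of `E` in `Out_F(S)`. Same proof as
`MNF.lNum_le_lam` (file CCaseL), with `aStab F y` replaced by `E`: `tower` and `lNum_comp`. -/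
theorem lNum_le_stab {G : Type*} [Group G] [Finite G] {S : Subgroup G} (F : FusionSystem S)
    {k : Type*} [Field k] [IsAlgClosed k] (p : ℕ) [Fact p.Prime] [CharP k p] (hS : IsPGroup p S)
    (α : ∀ P : Subgroup G, Cocycle (F.Out P) k) (hα : Compatible F α) (x : S) {Q : Subgroup G}
    (hQ : F.Centric Q) (N : Subgroup (F.Out Q))
    (h1 : ∀ a ∈ stabXQ F x Q, ∃ a' : F.aut Q,
      (∀ z : Q, ((a' : MulAut Q) z : G) = ((a : F.aut S) : MulAut S) ⟨z, hQ.1 z.2⟩) ∧
      (QuotientGroup.mk a' : F.Out Q) ∈ N)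
    (h2 : ∀ o ∈ N, ∃ a ∈ stabXQ F x Q, ∃ a' : F.aut Q,
      (∀ z : Q, ((a' : MulAut Q) z : G) = ((a : F.aut S) : MulAut S) ⟨z, hQ.1 z.2⟩) ∧
      (QuotientGroup.mk a' : F.Out Q) = o) :
    lNum (TwAlg ((α Q).comap N.subtype)) ≤
      lNum (TwAlg ((α S).comap ((stabXQ F x Q).map (QuotientGroup.mk' (F.inn S))).subtype)) := by
  have hD : ∀ a ∈ stabXQ F x Q, ∀ z : S, (z : G) ∈ Q →
      (((a : F.aut S) : MulAut S) z : G) ∈ Q := fun a ha z hz => (ha.2 z).mp hz
  choose res hres hresN using fun a : stabXQ F x Q => h1 a a.2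
  have hmul : ∀ a b : stabXQ F x Q, res (a * b) = res a * res b := by
    intro a b
    apply aut_ext_of_res F
    intro z
    rw [hres (a * b) z]
    show _ = (((res a : F.aut Q) : MulAut Q) (((res b : F.aut Q) : MulAut Q) z) : G)
    rw [hres a]
    show (((a : F.aut S) : MulAut S) (((b : F.aut S) : MulAut S) ⟨z, hQ.1 z.2⟩) : G) = _
    congr 2
    exact Subtype.ext (hres b z).symm
  let ρ : stabXQ F x Q →* N := MonoidHom.mk' (fun a => ⟨QuotientGroup.mk (res a), hresN a⟩) (by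
    intro a b
    apply Subtype.ext
    show (QuotientGroup.mk (res (a * b)) : F.Out Q) = QuotientGroup.mk (res a) *
      QuotientGroup.mk (res b)
    rw [hmul]
    rfl)
  have hρ : Function.Surjective ρ := by
    rintro ⟨o, ho⟩
    obtain ⟨a, ha, a', ha', hao⟩ := h2 o ho
    refine ⟨⟨a, ha⟩, ?_⟩
    apply Subtype.ext
    show (QuotientGroup.mk (res ⟨a, ha⟩) : F.Out Q) = o
    rw [← hao]
    congr 1
    apply aut_ext_of_res F
    intro z
    rw [hres ⟨a, ha⟩ z, ha' z]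
  obtain ⟨c, hc⟩ := tower F p hS α hα hQ (stabXQ F x Q) hD
  refine lNum_comp p ((QuotientGroup.mk' (F.inn S)).subgroupMap (stabXQ F x Q))
    (MonoidHom.subgroupMap_surjective _ _) (FinA_ker F p hS (stabXQ F x Q)) ρ hρ _ _ ⟨c, ?_⟩
  intro a b
  exact hc a b (res a) (res b) (hres a) (hres b)

end MNQ
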