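import Pool.Agent.W_0649q_h65.FinA

/-! MP_0649d4_al, Theorem Q: the comparison with `λ(x)`. -/

namespace MNQ

open MNF

/-- The image `a(Q)` of a relevant `Q` under `a ∈ Aut_F(S)` with `a(x) = x` is relevant. -/
theorem FinB_aux1 {G : Type*} [Group G] [Finite G] {S : Subgroup G} (F : FusionSystem S)
    (p : ℕ) (x : S) {Q : Subgroup G} (hQ : Relevant F p (x : G) Q) (a : F.aut S)
    (ha : a ∈ aStab F x) :
    ∃ Q' : Subgroup G, Relevant F p (x : G) Q' ∧
      ∀ y : S, (y : G) ∈ Q ↔ ((a : MulAut S) y : G) ∈ Q' := by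
  have haS : (a : MulAut S) ∈ F.iso S S := (F.mem_aut le_rfl _).1 a.2
  have hax : (a : MulAut S) x = x := ha
  obtain ⟨Q', ψ, hψ, h⟩ := F.exists_res haS hQ.1.1
  refine ⟨Q', Relevant.transport F p hQ ψ hψ ?_, fun y => ⟨fun hy => ?_, fun hy => ?_⟩⟩
  · intro y hy
    rw [h y]
    have h1 : (⟨(y : G), mem_le hQ.1.1 y.2⟩ : S) = x := Subtype.ext hy
    rw [h1, hax]
  · have h1 := h ⟨y, hy⟩
    have h2 : (⟨((⟨(y : G), hy⟩ : Q) : G), mem_le hQ.1.1 hy⟩ : S) = y := rfl
    rw [h2] at h1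
    rw [← h1]
    exact (ψ _).2
  · have h1 := h (ψ.symm ⟨_, hy⟩)
    rw [MulEquiv.apply_symm_apply] at h1
    have h2 : (a : MulAut S) y =
        (a : MulAut S) ⟨(ψ.symm ⟨_, hy⟩ : Q), mem_le hQ.1.1 (ψ.symm ⟨_, hy⟩).2⟩ := Subtype.ext h1
    have h3 := (a : MulAut S).injective h2
    rw [h3]
    exact (ψ.symm ⟨_, hy⟩).2

/-- The index of the image of the stabiliser of `Q` is at most the number of relevant subgroups. -/
theorem FinB_aux2 {G : Type*} [Group G] [Finite G] {S : Subgroup G} (F : FusionSystem S)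
    (p : ℕ) (x : S) {Q : Subgroup G} (hQ : Relevant F p (x : G) Q) :
    ((stabXQ F x Q).map (QuotientGroup.mk' (F.inn S))).relIndex (elStab F x) ≤
      Nat.card {Q' : Subgroup G // Relevant F p (x : G) Q'} := by
  classical
  set Eb := (stabXQ F x Q).map (QuotientGroup.mk' (F.inn S)) with hEb
  have hrep : ∀ q : elStab F x ⧸ Eb.subgroupOf (elStab F x), ∃ a : F.aut S, a ∈ aStab F x ∧
      QuotientGroup.mk' (F.inn S) a = ((q.out : elStab F x) : F.Out S) := by
    intro q
    obtain ⟨a, ha, h⟩ := (q.out : elStab F x).2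
    exact ⟨a, ha, h⟩
  choose a ha1 ha2 using hrep
  choose Q' hQ1 hQ2 using fun q => FinB_aux1 F p x hQ (a q) (ha1 q)
  show Nat.card (elStab F x ⧸ Eb.subgroupOf (elStab F x)) ≤ _
  refine Nat.card_le_card_of_injective
    (fun q => (⟨Q' q, hQ1 q⟩ : {Q' : Subgroup G // Relevant F p (x : G) Q'})) ?_
  intro q r hqr
  have hqr' : Q' q = Q' r := congrArg Subtype.val hqr
  have hmem : (a q)⁻¹ * a r ∈ stabXQ F x Q := by
    refine ⟨mul_mem (inv_mem (ha1 q)) (ha1 r), fun y => ?_⟩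
    rw [hQ2 r y, ← hqr', hQ2 q]
    have : ((a q : F.aut S) : MulAut S) ((((a q)⁻¹ * a r : F.aut S) : MulAut S) y) =
        ((a r : F.aut S) : MulAut S) y := by
      show ((a q : F.aut S) : MulAut S) (((a q : F.aut S) : MulAut S)⁻¹
        (((a r : F.aut S) : MulAut S) y)) = _
      rw [MulAut.apply_inv_self]
    rw [this]
  have h1 : (q.out)⁻¹ * r.out ∈ Eb.subgroupOf (elStab F x) := by
    rw [Subgroup.mem_subgroupOf]
    refine ⟨(a q)⁻¹ * a r, hmem, ?_⟩
    rw [map_mul, map_inv, ha2, ha2]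
    rfl
  have h2 : (q.out : elStab F x ⧸ Eb.subgroupOf (elStab F x)) =
      (r.out : elStab F x ⧸ Eb.subgroupOf (elStab F x)) := QuotientGroup.eq.2 h1
  rwa [QuotientGroup.out_eq', QuotientGroup.out_eq'] at h2

/-- `l(Ē) ≤ n λ(x)` if `x` has at most `n` relevant subgroups and `(x, Q)` is relevant:
`lNum_le_index` (`Out_F(S)` is a `p'`-group, `card_out`), `Ē ≤ elStab F x`; the index is at most
`|aStab F x : E|`, at most the number of the images `a(Q)`, `a ∈ aStab F x`, all relevant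
(`Relevant.transport` for the restriction of `a`). -/
theorem lNum_stab_le_lam {G : Type*} [Group G] [Finite G] {S : Subgroup G} (F : FusionSystem S)
    {k : Type*} [Field k] [IsAlgClosed k] (p : ℕ) [Fact p.Prime] [CharP k p] (hS : IsPGroup p S)
    (hF : F.Saturated p) (α : ∀ P : Subgroup G, Cocycle (F.Out P) k) (x : S) (Q : Subgroup G)
    (hQ : Relevant F p (x : G) Q) (n : ℕ)
    (hn : Nat.card {Q' : Subgroup G // Relevant F p (x : G) Q'} ≤ n) :
    lNum (TwAlg ((α S).comap ((stabXQ F x Q).map (QuotientGroup.mk' (F.inn S))).subtype)) ≤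
      n * lam F α x := by
  have hle : (stabXQ F x Q).map (QuotientGroup.mk' (F.inn S)) ≤ elStab F x :=
    Subgroup.map_mono fun a ha => ha.1
  have hK : (Nat.card (elStab F x) : k) ≠ 0 := by
    rw [Ne, CharP.cast_eq_zero_iff k p]
    intro hd
    exact card_out F p hF (hd.trans (Subgroup.card_subgroup_dvd_card _))
  refine (lNum_le_index (α S) _ _ hle hK).trans ?_
  exact Nat.mul_le_mul_right _ ((FinB_aux2 F p x hQ).trans hn)

end MNQ
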