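import Pool.Agent.W_0649q_h65.FinB

/-! MP_0649d4_al, Theorem Q: one term of `k(F, α)`. -/

namespace MNQ

open MNF

/-- The index of `(A ⊓ R) map f` in `A map f` is at most the index of `R`. -/
theorem FinC_relIndex {H K : Type*} [Group H] [Finite H] [Group K] (f : H →* K)
    (A R : Subgroup H) :
    ((A ⊓ R).map f).relIndex (A.map f) ≤ R.index := by
  have h1 : ((A ⊓ R).map f).relIndex (A.map f) ≤ (A ⊓ R).relIndex A := by
    rw [← Subgroup.relIndex_comap]
    exact Subgroup.relIndex_le_of_le_left (Subgroup.le_comap_map f (A ⊓ R))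
      Subgroup.FiniteIndex.index_ne_zero
  have h2 : (A ⊓ R).relIndex A ≤ R.index := by
    rw [Subgroup.inf_relIndex_left, ← Subgroup.relIndex_top_right]
    exact Subgroup.relIndex_le_of_le_right le_top
      (by rw [Subgroup.relIndex_top_right]; exact Subgroup.FiniteIndex.index_ne_zero)
  exact h1.trans h2

/-- One term: `z ≤ c n λ(x)`. `zNum_centFam`, `zNum_le_lNum`, `lNum_le_index_mul` for
`Γ' ≤ Γ` in `Out_F(Q)`, index at most `(restS F hQ).relIndex (F.aut Q) ≤ c` (`Γ` = image of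
`A_Q(x)`, `Γ'` = image of `A_Q(x) ⊓ restS`), `lNum_le_stab`, `lNum_stab_le_lam`. -/
theorem zNum_term_le {G : Type*} [Group G] [Finite G] {S : Subgroup G} (F : FusionSystem S)
    {k : Type*} [Field k] [IsAlgClosed k] (p : ℕ) [Fact p.Prime] [CharP k p] (hS : IsPGroup p S)
    (hF : F.Saturated p) (α : ∀ P : Subgroup G, Cocycle (F.Out P) k) (hα : Compatible F α) (x : S)
    (hx : F.FullyCentralized (Subgroup.zpowers (x : G))) {Q : Subgroup G}
    (hQ : Relevant F p (x : G) Q) (n c : ℕ)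
    (hn : Nat.card {Q' : Subgroup G // Relevant F p (x : G) Q'} ≤ n)
    (hc : (restS F hQ.1.1).relIndex (F.aut Q) ≤ c) :
    zNum (TwAlg (centFam F α x Q)) ≤ c * n * lam F α x := by
  have hQ' := hQ
  obtain ⟨hcent, hxQ, hcomm, hrel⟩ := hQ'
  obtain ⟨hΓ, hz⟩ := zNum_centFam F α x hcent.1 hxQ hcomm
  rw [hz]
  refine (zNum_le_lNum k _).trans ?_
  let A : Subgroup (F.aut Q) := (autFix F x Q).subgroupOf (F.aut Q)
  let R : Subgroup (F.aut Q) := (restS F hcent.1).subgroupOf (F.aut Q)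
  have hAmem : ∀ a : F.aut Q, a ∈ A ↔ ((a : MulAut Q) ⟨x, hxQ⟩ : G) = x := by
    intro a
    constructor
    · intro h
      exact (Subgroup.mem_subgroupOf.mp h).2 ⟨x, hxQ⟩ rfl
    · intro h
      refine Subgroup.mem_subgroupOf.mpr ⟨a.2, fun y hy => ?_⟩
      have : y = ⟨x, hxQ⟩ := Subtype.ext hy
      rw [this]
      exact h
  have hΓA : (F.centOut x Q).range = A.map (QuotientGroup.mk' (F.inn Q)) := by
    ext o
    rw [hΓ o]
    constructor
    · rintro ⟨a, ha, rfl⟩
      exact ⟨a, (hAmem a).mpr ha, rfl⟩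
    · rintro ⟨a, ha, rfl⟩
      exact ⟨a, (hAmem a).mp ha, rfl⟩
  have hle : (A ⊓ R).map (QuotientGroup.mk' (F.inn Q)) ≤ (F.centOut x Q).range := by
    rw [hΓA]
    exact Subgroup.map_mono inf_le_left
  have h1 := lNum_le_index_mul (α Q) _ _ hle
  have h2 : ((A ⊓ R).map (QuotientGroup.mk' (F.inn Q))).relIndex (F.centOut x Q).range ≤ c := by
    rw [hΓA]
    exact (FinC_relIndex _ A R).trans hc
  have h3 : lNum (TwAlg ((α Q).comap ((A ⊓ R).map (QuotientGroup.mk' (F.inn Q))).subtype)) ≤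
      lNum (TwAlg ((α S).comap ((stabXQ F x Q).map (QuotientGroup.mk' (F.inn S))).subtype)) := by
    refine lNum_le_stab F p hS α hα x hcent _ ?_ ?_
    · intro a ha
      obtain ⟨a', ha'⟩ := exists_res_aut F hcent.1 a (fun y hy => (ha.2 y).mp hy)
      refine ⟨a', ha', a', ⟨(hAmem a').mpr ?_, Subgroup.mem_subgroupOf.mpr ⟨a, a.2, ha'⟩⟩, rfl⟩
      rw [ha' ⟨x, hxQ⟩]
      exact congrArg Subtype.val ha.1
    · rintro o ⟨a', ⟨haA, haR⟩, rfl⟩
      obtain ⟨a, ha, hres⟩ := Subgroup.mem_subgroupOf.mp haR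
      refine ⟨⟨a, ha⟩, ⟨?_, ?_⟩, a', hres, rfl⟩
      · apply Subtype.ext
        have h4 := hres ⟨x, hxQ⟩
        rw [(hAmem a').mp haA] at h4
        exact h4.symm
      · intro y
        constructor
        · intro hy
          have h4 := hres ⟨y, hy⟩
          show ((a y : S) : G) ∈ Q
          have h5 : (a y : G) = ((a' : MulAut Q) ⟨y, hy⟩ : G) := h4.symm
          rw [h5]
          exact ((a' : MulAut Q) ⟨y, hy⟩).2
        · intro hy
          have hy' : ((a y : S) : G) ∈ Q := hy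
          have h4 := hres ((a' : MulAut Q)⁻¹ ⟨(a y : G), hy'⟩)
          rw [MulAut.apply_inv_self] at h4
          have h5 : a y = a ⟨(((a' : MulAut Q)⁻¹ ⟨(a y : G), hy'⟩ : Q) : G),
              hcent.1 ((a' : MulAut Q)⁻¹ ⟨(a y : G), hy'⟩).2⟩ := Subtype.ext h4
          have h6 := a.injective h5
          rw [h6]
          exact ((a' : MulAut Q)⁻¹ ⟨(a y : G), hy'⟩).2
  have h4 := lNum_stab_le_lam F p hS hF α x Q hQ n hn
  calc lNum (TwAlg ((α Q).comap (F.centOut x Q).range.subtype))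
      ≤ _ * lNum (TwAlg ((α Q).comap ((A ⊓ R).map (QuotientGroup.mk' (F.inn Q))).subtype)) := h1
    _ ≤ c * (n * lam F α x) := Nat.mul_le_mul h2 (h3.trans h4)
    _ = c * n * lam F α x := (mul_assoc _ _ _).symm

end MNQ
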