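import Pool.Agent.W_0649q_h65.FusD

/-! MP_0649d4_al, Theorem Q: the core of the relevant subgroups. -/

namespace MNQ

open MNF
open scoped commutatorElement

universe u

/-- The class of `x` is contained in `x [S, S]`, so `|S : C_S(x)| ≤ |[S, S]|`. -/
theorem FusE_relIndex_cent {G : Type u} [Group G] [Finite G] {S : Subgroup G} (x : S) :
    (cS S (Subgroup.zpowers (x : G))).relIndex S ≤ Nat.card (commutator S) := by
  have hmem : ∀ g : S, (g : G) ∈ Subgroup.centralizer (Subgroup.zpowers (x : G) : Set G) ↔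
      g * x = x * g := by
    intro g
    rw [Subgroup.mem_centralizer_iff]
    constructor
    · intro h
      exact Subtype.ext (h x (Subgroup.mem_zpowers _)).symm
    · intro h y hy
      obtain ⟨n, rfl⟩ := Subgroup.mem_zpowers_iff.1 hy
      have h' : Commute (x : G) (g : G) := by
        have := congrArg (Subtype.val) h
        exact this.symm
      exact (h'.zpow_left n).eq
  have hinj : ∀ g h : S, g * x * g⁻¹ = h * x * h⁻¹ → g⁻¹ * h ∈
      (cS S (Subgroup.zpowers (x : G))).subgroupOf S := by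
    intro g h hgh
    rw [Subgroup.mem_subgroupOf]
    refine ⟨(g⁻¹ * h).2, (hmem _).2 ?_⟩
    have h1 : h * x = g * x * g⁻¹ * h := by rw [hgh]; group
    calc g⁻¹ * h * x = g⁻¹ * (h * x) := by group
      _ = x * (g⁻¹ * h) := by rw [h1]; group
  unfold Subgroup.relIndex Subgroup.index
  refine Nat.card_le_card_of_injective (fun q : S ⧸ (cS S (Subgroup.zpowers (x : G))).subgroupOf S =>
    (⟨⁅q.out, x⁆, Subgroup.commutator_mem_commutator (Subgroup.mem_top _) (Subgroup.mem_top _)⟩ :
      commutator S)) ?_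
  intro q r hqr
  have h1 : ⁅q.out, x⁆ = ⁅r.out, x⁆ := congrArg Subtype.val hqr
  rw [commutatorElement_def, commutatorElement_def] at h1
  have h2 := hinj _ _ (mul_right_cancel h1)
  rw [← QuotientGroup.eq, QuotientGroup.out_eq', QuotientGroup.out_eq'] at h2
  exact h2

theorem FusE_card_comm {G : Type u} [Group G] [Finite G] {S T : Subgroup G} (hT : T ≤ S) :
    Nat.card (commutator T) ≤ Nat.card (commutator S) := by
  have hmap : (commutator T).map (Subgroup.inclusion hT) ≤ commutator S := by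
    rw [commutator_def, Subgroup.map_commutator, commutator_def]
    exact Subgroup.commutator_mono le_top le_top
  refine Nat.card_le_card_of_injective
    (fun y : commutator T => (⟨Subgroup.inclusion hT y, hmap ⟨y, y.2, rfl⟩⟩ : commutator S)) ?_
  intro y z hyz
  have h1 : Subgroup.inclusion hT (y : T) = Subgroup.inclusion hT (z : T) :=
    congrArg Subtype.val hyz
  exact Subtype.ext (Subgroup.inclusion_injective hT h1)

/-- The core: for every `x` there is a subgroup of bounded index contained in all `Q` with `(x, Q)`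
relevant. `pigeon β (p ^ s)` for `T = C_S(x)` (`|[T, T]| ≤ |[S, S]|`; `T` is nilpotent), and
`|S : T| ≤ |[S, S]|` (the class of `x` is contained in `x [S, S]`); `f = f₁ p ^ s`. -/
theorem relevant_core (p : ℕ) [Fact p.Prime] (s : ℕ) : ∃ f : ℕ, ∀ {G : Type u} [Group G]
    [Finite G] {S : Subgroup G} (F : FusionSystem S) (_hS : IsPGroup p S) (_hF : F.Saturated p)
    (_hs : Nat.card (commutator S) ≤ p ^ s) (x : S),
    ∃ M : Subgroup G, M ≤ S ∧ M.relIndex S ≤ f ∧ ∀ Q, Relevant F p (x : G) Q → M ≤ Q := by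
  obtain ⟨β, hβ⟩ := relevant_datum.{u} p s
  obtain ⟨f₁, hf⟩ := pigeon.{u} β (p ^ s)
  refine ⟨f₁ * p ^ s, ?_⟩
  intro G _ _ S F hS hF hs x
  obtain ⟨T, hTdef⟩ : ∃ T, T = cS S (Subgroup.zpowers (x : G)) := ⟨_, rfl⟩
  have hTS : T ≤ S := by
    rw [hTdef]
    exact inf_le_left
  have hnil : Group.IsNilpotent T := (hS.to_le hTS).isNilpotent
  obtain ⟨M, -, hM, hMQ⟩ := hf hnil ((FusE_card_comm hTS).trans hs)
    {d : Datum T β | ∃ Q : Subgroup G, Relevant F p (x : G) Q ∧ d.Q = Q.subgroupOf T}
  have hle : M.map T.subtype ≤ T := by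
    rintro _ ⟨m, -, rfl⟩
    exact m.2
  refine ⟨M.map T.subtype, hle.trans hTS, ?_, ?_⟩
  · rw [← Subgroup.relIndex_mul_relIndex _ T S hle hTS]
    refine Nat.mul_le_mul ?_ ?_
    · have h1 : (M.map T.subtype).subgroupOf T = M := by
        rw [Subgroup.subgroupOf]
        exact Subgroup.comap_map_eq_self_of_injective (Subgroup.subtype_injective T) M
      unfold Subgroup.relIndex
      rw [h1]
      exact hM
    · rw [hTdef]
      exact (FusE_relIndex_cent x).trans hs
  · intro Q hQ
    obtain ⟨d, hd⟩ := hβ F hS hF hs x Q hQ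
    subst hTdef
    have h1 := hMQ d ⟨Q, hQ, hd⟩
    rw [hd] at h1
    rintro _ ⟨m, hm, rfl⟩
    exact Subgroup.mem_subgroupOf.1 (h1 hm)

end MNQ
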