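import Pool.Agent.W_0649q_h65.FinC
import Pool.Agent.W_0649q_h65.FusE
import Pool.Agent.W_0649q_h65.Climb
import Pool.Agent.W_0649q_h65.Abel

/-! MP_0649d4_al, Theorem Q: the final estimate. -/

namespace MNQ

open MNF

universe u w

/-- The theorem for fixed `p` and `s`: `relevant_core p s` (`f`), `n = 2 ^ f`
(`card_between_le`), `climb p s f` (`c`), and `budget` for `Y = X`
(`∑ nIdx lam ≤ c([S, S]) mTop`, `nIdx ≥ 1`, `Nat.card (ConjClasses (commutator S)) ≤ p ^ s`);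
`X` consists of pairwise non-`F`-conjugate, so non-`AConj`, elements. Bound `c n ^ 2 p ^ s`. -/
theorem bound_ps (p : ℕ) [Fact p.Prime] (s : ℕ) : ∃ C : ℕ, ∀ {k : Type w} [Field k]
    [IsAlgClosed k] [CharP k p] {G : Type u} [Group G] [Finite G] {S : Subgroup G}
    (_hS : IsPGroup p S) (F : FusionSystem S) (_hF : F.Saturated p)
    (_hs : Nat.card (commutator S) ≤ p ^ s) (α : ∀ P : Subgroup G, Cocycle (F.Out P) k)
    (_hα : Compatible F α) (X : Finset S) (Y : S → Finset (Subgroup G)) (Z : Finset (S →* ℂˣ))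
    (_hX : IsElementTransversal F X) (_hY : ∀ x ∈ X, IsCentricTransversal (F.cent x) (Y x))
    (_hZ : IsLinTransversal F Z), kInv F α X Y ≤ C * mTop F α Z := by
  classical
  obtain ⟨f, hf⟩ := relevant_core.{u} p s
  obtain ⟨c, hc⟩ := climb.{u} p s f
  refine ⟨c * (2 ^ f) ^ 2 * p ^ s, ?_⟩
  intro k _ _ _ G _ _ S hS F hF hs α hα X Y Z hX hY hZ
  -- one element
  have h1 : ∀ x ∈ X, wInv (F.cent x) (centFam F α x) (Y x) ≤ c * (2 ^ f) ^ 2 * lam F α x := by
    intro x hx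
    have hxc := hX.1 x hx
    obtain ⟨M, hMS, hMf, hMQ⟩ := hf F hS hF hs x
    have hcard : Nat.card {Q' : Subgroup G // Relevant F p (x : G) Q'} ≤ 2 ^ f := by
      have h2 : Nat.card {Q' : Subgroup G // Relevant F p (x : G) Q'} ≤
          Nat.card {Q : Subgroup G // M ≤ Q ∧ Q ≤ S} := by
        refine Nat.card_le_card_of_injective
          (fun Q' => (⟨Q'.1, hMQ Q'.1 Q'.2, Q'.2.1.1⟩ : {Q : Subgroup G // M ≤ Q ∧ Q ≤ S})) ?_
        intro Q1 Q2 h
        exact Subtype.ext (congrArg (fun q : {Q : Subgroup G // M ≤ Q ∧ Q ≤ S} => q.1) h)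
      exact h2.trans ((card_between_le M S hMS).trans (Nat.pow_le_pow_right (by norm_num) hMf))
    have hterm : ∀ Q ∈ Y x, zNum (TwAlg (centFam F α x Q)) ≠ 0 →
        Relevant F p (x : G) Q ∧ zNum (TwAlg (centFam F α x Q)) ≤ c * 2 ^ f * lam F α x := by
      intro Q hQ hz
      have hr := relevant_of_zNum_ne_zero F p hS hF α x hxc ((hY x hx).1 Q hQ) hz
      refine ⟨hr, zNum_term_le F p hS hF α hα x hxc hr (2 ^ f) c hcard ?_⟩
      refine hc F hS hF hs hr.1 ?_
      have hne : M.relIndex S ≠ 0 := Subgroup.index_ne_zero_of_finite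
      exact (Nat.le_of_dvd (Nat.pos_of_ne_zero hne)
        (Subgroup.relIndex_dvd_of_le_left S (hMQ Q hr))).trans hMf
    show ∑ Q ∈ Y x, zNum (TwAlg (centFam F α x Q)) ≤ _
    rw [← Finset.sum_filter_ne_zero]
    have h3 : ((Y x).filter fun Q => zNum (TwAlg (centFam F α x Q)) ≠ 0).card ≤ 2 ^ f := by
      refine le_trans ?_ hcard
      rw [← Fintype.card_coe, ← Nat.card_eq_fintype_card]
      refine Nat.card_le_card_of_injective
        (fun Q => (⟨Q.1, (hterm Q.1 (Finset.mem_filter.1 Q.2).1 (Finset.mem_filter.1 Q.2).2).1⟩ :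
          {Q' : Subgroup G // Relevant F p (x : G) Q'})) ?_
      intro Q1 Q2 h
      exact Subtype.ext (congrArg (fun q : {Q' : Subgroup G // Relevant F p (x : G) Q'} => q.1) h)
    refine (Finset.sum_le_card_nsmul _ _ (c * 2 ^ f * lam F α x) (fun Q hQ =>
      (hterm Q (Finset.mem_filter.1 hQ).1 (Finset.mem_filter.1 hQ).2).2)).trans ?_
    rw [smul_eq_mul]
    calc _ ≤ 2 ^ f * (c * 2 ^ f * lam F α x) := Nat.mul_le_mul_right _ h3
      _ = c * (2 ^ f) ^ 2 * lam F α x := by ring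
  -- the elements of `X` are not `Aut_F(S)`-conjugate
  have h2 : ∀ y ∈ X, ∀ y' ∈ X, AConj F y y' → y = y' := by
    rintro y hy y' hy' ⟨a, ha⟩
    obtain ⟨r, -, hr⟩ := hX.2 y
    have e1 := hr y ⟨hy, S, S, MulEquiv.refl S, y.2, F.refl_mem le_rfl, rfl⟩
    have e2 := hr y' ⟨hy', S, S, (a : MulAut S), y.2, (F.mem_aut le_rfl _).1 a.2, by
      show (((a : MulAut S) y : S) : G) = y'
      rw [ha]⟩
    exact e1.trans e2.symm
  have h3 := budget F p hS (card_out F p hF) α X h2 Z hZ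
  have h4 : ∑ x ∈ X, lam F α x ≤ ∑ x ∈ X, nIdx S x * lam F α x := by
    refine Finset.sum_le_sum fun x _ => ?_
    have : 1 ≤ nIdx S x := Nat.one_le_iff_ne_zero.2 Subgroup.index_ne_zero_of_finite
    exact Nat.le_mul_of_pos_left _ this
  have h5 : Nat.card (ConjClasses (commutator S)) ≤ p ^ s :=
    (Nat.card_le_card_of_surjective ConjClasses.mk ConjClasses.mk_surjective).trans hs
  show ∑ x ∈ X, wInv (F.cent x) (centFam F α x) (Y x) ≤ _
  calc ∑ x ∈ X, wInv (F.cent x) (centFam F α x) (Y x)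
      ≤ ∑ x ∈ X, c * (2 ^ f) ^ 2 * lam F α x := Finset.sum_le_sum h1
    _ = c * (2 ^ f) ^ 2 * ∑ x ∈ X, lam F α x := by rw [Finset.mul_sum]
    _ ≤ c * (2 ^ f) ^ 2 * (Nat.card (ConjClasses (commutator S)) * mTop F α Z) :=
      Nat.mul_le_mul_left _ (h4.trans h3)
    _ ≤ c * (2 ^ f) ^ 2 * (p ^ s * mTop F α Z) :=
      Nat.mul_le_mul_left _ (Nat.mul_le_mul_right _ h5)
    _ = c * (2 ^ f) ^ 2 * p ^ s * mTop F α Z := by ring

/-- **Theorem Q.** `f n = 1 + ∑_{p ≤ n} ∑_{s ≤ n} C(p, s)` (`C(p, s) = 0` for `p` not prime):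
if `n = |[S, S]| > 1` then `n = p ^ s` with `p, s ≤ n`. -/
theorem main_bound : ∃ f : ℕ → ℕ, ∀ (p : ℕ) [Fact p.Prime] {k : Type w} [Field k]
    [IsAlgClosed k] [CharP k p] {G : Type u} [Group G] [Finite G] {S : Subgroup G}
    (_hS : IsPGroup p S) (F : FusionSystem S) (_hF : F.Saturated p)
    (α : ∀ P : Subgroup G, Cocycle (F.Out P) k)
    (_hα : Compatible F α) (X : Finset S) (Y : S → Finset (Subgroup G)) (Z : Finset (S →* ℂˣ))
    (_hX : IsElementTransversal F X) (_hY : ∀ x ∈ X, IsCentricTransversal (F.cent x) (Y x))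
    (_hZ : IsLinTransversal F Z),
    kInv F α X Y ≤ f (Nat.card (commutator S)) * mTop F α Z := by
  classical
  have hex : ∀ p s : ℕ, ∃ C : ℕ, ∀ (_ : p.Prime), ∀ {k : Type w} [Field k]
      [IsAlgClosed k] [CharP k p] {G : Type u} [Group G] [Finite G] {S : Subgroup G}
      (_hS : IsPGroup p S) (F : FusionSystem S) (_hF : F.Saturated p)
      (_hs : Nat.card (commutator S) ≤ p ^ s) (α : ∀ P : Subgroup G, Cocycle (F.Out P) k)
      (_hα : Compatible F α) (X : Finset S) (Y : S → Finset (Subgroup G)) (Z : Finset (S →* ℂˣ))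
      (_hX : IsElementTransversal F X) (_hY : ∀ x ∈ X, IsCentricTransversal (F.cent x) (Y x))
      (_hZ : IsLinTransversal F Z), kInv F α X Y ≤ C * mTop F α Z := by
    intro p s
    by_cases hp : p.Prime
    · have : Fact p.Prime := ⟨hp⟩
      obtain ⟨C, hC⟩ := bound_ps.{u, w} p s
      exact ⟨C, fun _ => hC⟩
    · exact ⟨0, fun h => absurd h hp⟩
  choose C hC using hex
  refine ⟨fun n => 1 + ∑ p ∈ Finset.range (n + 1), ∑ s ∈ Finset.range (n + 1), C p s, ?_⟩
  intro p hp k _ _ _ G _ _ S hS F hF α hα X Y Z hX hY hZ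
  by_cases h1 : Nat.card (commutator S) = 1
  · refine (abelian_case p hS F hF h1 α hα X Y Z hX hY hZ).trans ?_
    exact Nat.mul_le_mul_right _ (Nat.le_add_right _ _)
  · obtain ⟨t, ht⟩ := IsPGroup.iff_card.1 (hS.to_subgroup (commutator S))
    have hp1 : 1 < p := hp.out.one_lt
    have ht0 : t ≠ 0 := by
      rintro rfl
      exact h1 (by rw [ht, pow_zero])
    have hpn : p ≤ p ^ t := Nat.le_self_pow ht0 p
    have htn : t ≤ p ^ t := (Nat.lt_pow_self hp1).le
    refine (hC p t hp.out hS F hF ht.le α hα X Y Z hX hY hZ).trans (Nat.mul_le_mul_right _ ?_)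
    rw [ht]
    have e1 : C p t ≤ ∑ s ∈ Finset.range (p ^ t + 1), C p s :=
      Finset.single_le_sum (f := fun s => C p s) (fun _ _ => Nat.zero_le _)
        (Finset.mem_range.2 (Nat.lt_succ_of_le htn))
    have e2 : ∑ s ∈ Finset.range (p ^ t + 1), C p s ≤
        ∑ q ∈ Finset.range (p ^ t + 1), ∑ s ∈ Finset.range (p ^ t + 1), C q s :=
      Finset.single_le_sum (f := fun q => ∑ s ∈ Finset.range (p ^ t + 1), C q s)
        (fun _ _ => Nat.zero_le _) (Finset.mem_range.2 (Nat.lt_succ_of_le hpn))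
    exact (e1.trans e2).trans (Nat.le_add_left _ _)

end MNQ
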