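import Mathlib

/-! MP_0649d4_al, Theorem Q, Lemma 5 (the pigeonhole argument). -/

namespace MNQ

/-- The data of Lemma 5: subgroups `B, Z ≤ Q` of `T`. -/
structure Datum (T : Type*) [Group T] (β : ℕ) where
  Q : Subgroup T
  B : Subgroup T
  Z : Subgroup T
  hB : B ≤ Q
  /-- commutators of elements of `C_Q(B)` lie in `Z` -/
  h2 : ∀ m₁ ∈ Q, ∀ m₂ ∈ Q, (∀ b ∈ B, m₁ * b = b * m₁) → (∀ b ∈ B, m₂ * b = b * m₂) →
    m₁⁻¹ * m₂⁻¹ * m₁ * m₂ ∈ Z
  /-- an element normalising `Q` which acts on `B` modulo `Z` trivially lies in `Q` -/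
  h3 : ∀ t : T, (∀ q, q ∈ Q ↔ t * q * t⁻¹ ∈ Q) → (∀ b ∈ B, t * b * t⁻¹ * b⁻¹ ∈ Z) → t ∈ Q
  h4 : Nat.card B ≤ β

/-- `M_Q = C_T(B D)`, `D = [T, T]`, is normal in `T` (`B D` is normal because it contains `D`), of
index at most `(β δ)!` or `(β δ) ^ (β δ)` (it is the kernel of the action by conjugation on the
set `B D`), and contained in `Q`: otherwise, normalisers grow in the finite nilpotent group
`M_Q ⊔ Q > Q`, so there is an element of `M_Q`, not in `Q`, normalising `Q`; it centralises `B`,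
contradiction to `h3`. More generally `N_R(Q) ≤ Q` implies `R ≤ Q` for `R` normal in `T`. -/
theorem le_of_normalizer_le {T : Type*} [Group T] [Finite T] (hT : Group.IsNilpotent T)
    (Q R : Subgroup T) (hRn : R.Normal)
    (h : ∀ t ∈ R, (∀ q, q ∈ Q ↔ t * q * t⁻¹ ∈ Q) → t ∈ Q) : R ≤ Q := by
  obtain ⟨n, hn⟩ := hT.nilpotent'
  have key : ∀ i, ∀ t ∈ R, t ∈ Subgroup.upperCentralSeries T i → t ∈ Q := by
    intro i
    induction i with
    | zero =>
      intro t _ ht
      rw [Subgroup.upperCentralSeries_zero, Subgroup.mem_bot] at ht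
      rw [ht]
      exact Q.one_mem
    | succ i ih =>
      intro t htR ht
      have hc : ∀ u ∈ R, u ∈ Subgroup.upperCentralSeries T (i + 1) →
          ∀ q ∈ Q, u * q * u⁻¹ ∈ Q := by
        intro u huR hu q hq
        have h1 : u * q * u⁻¹ * q⁻¹ ∈ Subgroup.upperCentralSeries T i := by
          have h0 := Subgroup.mem_upperCentralSeries_succ_iff.1 hu q
          rwa [commutatorElement_def] at h0
        have h2 : u * q * u⁻¹ * q⁻¹ ∈ R := by
          have e : u * q * u⁻¹ * q⁻¹ = u * (q * u⁻¹ * q⁻¹) := by group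
          rw [e]
          exact R.mul_mem huR (hRn.conj_mem _ (R.inv_mem huR) q)
        have e : u * q * u⁻¹ = (u * q * u⁻¹ * q⁻¹) * q := by group
        rw [e]
        exact Q.mul_mem (ih _ h2 h1) hq
      refine h t htR fun q => ⟨fun hq => hc t htR ht q hq, fun hq => ?_⟩
      have h4 := hc t⁻¹ (R.inv_mem htR) (inv_mem ht) _ hq
      have e : t⁻¹ * (t * q * t⁻¹) * t⁻¹⁻¹ = q := by group
      rwa [e] at h4
  intro t ht
  exact key n t ht (by rw [hn]; trivial)

universe u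

theorem Pigeon_comm {T : Type u} [Group T] (g k : T) : g * k * g⁻¹ * k⁻¹ ∈ commutator T := by
  rw [← commutatorElement_def, commutator_def]
  exact Subgroup.commutator_mem_commutator (Subgroup.mem_top _) (Subgroup.mem_top _)

theorem Pigeon_normal {T : Type u} [Group T] (H : Subgroup T) : (H ⊔ commutator T).Normal := by
  refine ⟨fun k hk g => ?_⟩
  have e : g * k * g⁻¹ = (g * k * g⁻¹ * k⁻¹) * k := by group
  rw [e]
  refine Subgroup.mul_mem _ ?_ hk
  exact (le_sup_right : commutator T ≤ H ⊔ commutator T) (Pigeon_comm g k)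

theorem Pigeon_pow {a b : ℕ} (h : a ≤ b) (ha : 0 < a) : a ^ a ≤ b ^ b :=
  (Nat.pow_le_pow_left h a).trans (Nat.pow_le_pow_right (ha.trans_le h) h)

theorem Pigeon_index {T : Type u} [Group T] [Finite T] (K : Subgroup T) [K.Normal] {n : ℕ}
    (hn : Nat.card K ≤ n) : (Subgroup.centralizer (K : Set T)).index ≤ n ^ n := by
  let f : T →* MulAut K := MulAut.conjNormal
  have h1 : f.ker ≤ Subgroup.centralizer (K : Set T) := by
    intro g hg
    rw [Subgroup.mem_centralizer_iff]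
    intro k hk
    have h2 : f g ⟨k, hk⟩ = ⟨k, hk⟩ := by
      rw [MonoidHom.mem_ker.1 hg]
      rfl
    have h3 : g * k * g⁻¹ = k := by
      have h4 := congrArg Subtype.val h2
      rwa [MulAut.conjNormal_apply] at h4
    rw [mul_inv_eq_iff_eq_mul] at h3
    exact h3.symm
  have h2 : (Subgroup.centralizer (K : Set T)).index ≤ f.ker.index :=
    Nat.le_of_dvd (Nat.pos_of_ne_zero Subgroup.index_ne_zero_of_finite)
      (Subgroup.index_dvd_of_le h1)
  have h3 : f.ker.index ≤ Nat.card (K → K) := by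
    rw [Subgroup.index_ker]
    refine Nat.card_le_card_of_injective (fun r : f.range => ((r : MulAut K) : K → K)) ?_
    intro r s hrs
    exact Subtype.ext (MulEquiv.ext fun x => congrFun hrs x)
  rw [Nat.card_fun] at h3
  exact h2.trans (h3.trans (Pigeon_pow hn Nat.card_pos))

theorem Pigeon_card {T : Type u} [Group T] [Finite T] (B : Subgroup T) {β δ : ℕ}
    (hB : Nat.card B ≤ β) (hD : Nat.card (commutator T) ≤ δ) :
    Nat.card (B ⊔ commutator T : Subgroup T) ≤ β * δ := by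
  have h1 : Nat.card (B ⊔ commutator T : Subgroup T) ≤ Nat.card (B × commutator T) := by
    refine Nat.card_le_card_of_surjective
      (fun z : B × commutator T => (⟨z.1 * z.2, Subgroup.mul_mem _
        ((le_sup_left : B ≤ B ⊔ commutator T) z.1.2)
        ((le_sup_right : commutator T ≤ B ⊔ commutator T) z.2.2)⟩ :
          (B ⊔ commutator T : Subgroup T))) ?_
    rintro ⟨k, hk⟩
    have h2 : k ∈ ((B ⊔ commutator T : Subgroup T) : Set T) := hk
    rw [Subgroup.mul_normal] at h2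
    obtain ⟨b, hb, d, hd, rfl⟩ := h2
    exact ⟨⟨⟨b, hb⟩, ⟨d, hd⟩⟩, rfl⟩
  rw [Nat.card_prod] at h1
  exact h1.trans (Nat.mul_le_mul hB hD)

theorem Pigeon_phi {T : Type u} [Group T] [Finite T] (B : Subgroup T) {β : ℕ}
    (hB : Nat.card B ≤ β) : ∃ f : Fin β → T, (∀ i, f i ∈ B) ∧ ∀ b ∈ B, ∃ i, f i = b := by
  let e := Finite.equivFin B
  refine ⟨fun i => if h : (i : ℕ) < Nat.card B then (e.symm ⟨i, h⟩ : T) else 1, ?_, ?_⟩
  · intro i
    dsimp only
    split_ifs
    · exact (e.symm _).2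
    · exact B.one_mem
  · intro b hb
    refine ⟨⟨(e ⟨b, hb⟩ : ℕ), (e ⟨b, hb⟩).2.trans_le hB⟩, ?_⟩
    have h : (e ⟨b, hb⟩ : ℕ) < Nat.card B := (e ⟨b, hb⟩).2
    simp only [h, dif_pos]
    simp

/-- conjugation on a normal subgroup, as a function -/
def Pigeon_conj {T : Type u} [Group T] (K : Subgroup T) (hK : K.Normal) (g : T) (k : K) : K :=
  ⟨g * k * g⁻¹, hK.conj_mem _ k.2 g⟩

/-- the centraliser of `B D` -/
def Pigeon_M {T : Type u} [Group T] {β : ℕ} (x : Datum T β) : Subgroup T :=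
  Subgroup.centralizer ((x.B ⊔ commutator T : Subgroup T) : Set T)

theorem Pigeon_M_normal {T : Type u} [Group T] {β : ℕ} (x : Datum T β) : (Pigeon_M x).Normal := by
  have := Pigeon_normal x.B
  unfold Pigeon_M
  infer_instance

theorem Pigeon_M_comm {T : Type u} [Group T] {β : ℕ} (x : Datum T β) {m : T}
    (hm : m ∈ Pigeon_M x) {b : T} (hb : b ∈ x.B) : m * b = b * m :=
  (Subgroup.mem_centralizer_iff.1 hm b ((le_sup_left : x.B ≤ x.B ⊔ commutator T) hb)).symm

theorem Pigeon_M_le {T : Type u} [Group T] [Finite T] (hT : Group.IsNilpotent T) {β : ℕ}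
    (x : Datum T β) : Pigeon_M x ≤ x.Q := by
  refine le_of_normalizer_le hT _ _ (Pigeon_M_normal x) fun t ht hn => x.h3 t hn fun b hb => ?_
  have e : t * b * t⁻¹ * b⁻¹ = 1 := by
    rw [Pigeon_M_comm x ht hb]
    group
  rw [e]
  exact x.Z.one_mem

/-- the intersection of the first `l` centralisers -/
def Pigeon_R {T : Type u} [Group T] {β : ℕ} (x : ℕ → Datum T β) (l : ℕ) : Subgroup T :=
  ⨅ h : Fin l, Pigeon_M (x h)

theorem Pigeon_R_normal {T : Type u} [Group T] {β : ℕ} (x : ℕ → Datum T β) (l : ℕ) :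
    (Pigeon_R x l).Normal :=
  Subgroup.normal_iInf_normal fun _ => Pigeon_M_normal _

theorem Pigeon_R_le {T : Type u} [Group T] {β : ℕ} (x : ℕ → Datum T β) {j l : ℕ} (h : j < l) :
    Pigeon_R x l ≤ Pigeon_M (x j) :=
  iInf_le (fun h : Fin l => Pigeon_M (x h)) ⟨j, h⟩

/-- the core of the argument: three indices of the same type -/
theorem Pigeon_core {T : Type u} [Group T] [Finite T] (hT : Group.IsNilpotent T) {β : ℕ}
    (x : ℕ → Datum T β) (φ : ℕ → Fin β → T) (hφ : ∀ l i, φ l i ∈ (x l).B)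
    (hφ' : ∀ l, ∀ b ∈ (x l).B, ∃ i, φ l i = b) {k j i : ℕ} (hkj : k < j) (hji : j < i)
    (hconj : ∀ a : Fin β, ∀ d ∈ commutator T, φ k a * d * (φ k a)⁻¹ = φ j a * d * (φ j a)⁻¹)
    (hW : ∀ a : Fin β, ∀ d ∈ commutator T,
      (∃ s ∈ Pigeon_R x k, (∀ q, q ∈ (x k).Q ↔ s * q * s⁻¹ ∈ (x k).Q) ∧
        d = (φ k a)⁻¹ * s⁻¹ * φ k a * s) →
      ∃ s ∈ Pigeon_R x i, (∀ q, q ∈ (x i).Q ↔ s * q * s⁻¹ ∈ (x i).Q) ∧
        d = (φ i a)⁻¹ * s⁻¹ * φ i a * s)
    (ha : ∀ a : Fin β, ∀ z ∈ (x k).B ⊔ commutator T,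
      φ j a * z * (φ j a)⁻¹ = φ i a * z * (φ i a)⁻¹) :
    Pigeon_R x k ≤ (x k).Q := by
  refine le_of_normalizer_le hT _ _ (Pigeon_R_normal x k) fun sk hsk hn => ?_
  have hn' : ∀ q, q ∈ (x k).Q ↔ sk⁻¹ * q * sk⁻¹⁻¹ ∈ (x k).Q := by
    intro q
    rw [hn (sk⁻¹ * q * sk⁻¹⁻¹)]
    have e : sk * (sk⁻¹ * q * sk⁻¹⁻¹) * sk⁻¹ = q := by group
    rw [e]
  have hmem : sk⁻¹ ∈ (x k).Q := by
    refine (x k).h3 _ hn' fun b hb => ?_
    obtain ⟨a, rfl⟩ := hφ' k b hb
    have hwD : (φ k a)⁻¹ * sk⁻¹ * φ k a * sk ∈ commutator T := by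
      have e := Pigeon_comm (φ k a)⁻¹ sk⁻¹
      rwa [inv_inv, inv_inv] at e
    obtain ⟨s, hs, -, hws⟩ := hW a _ hwD ⟨sk, hsk, hn, rfl⟩
    have hsj : s * φ j a = φ j a * s := Pigeon_M_comm _ (Pigeon_R_le x hji hs) (hφ j a)
    have hsk' : s ∈ Pigeon_M (x k) := Pigeon_R_le x (hkj.trans hji) hs
    have hy : φ i a * (φ j a)⁻¹ ∈ Pigeon_M (x k) := by
      refine Subgroup.mem_centralizer_iff.2 fun z hz => ?_
      have hz' : (φ j a)⁻¹ * z * φ j a ∈ (x k).B ⊔ commutator T := by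
        have h0 := (Pigeon_normal (x k).B).conj_mem z hz (φ j a)⁻¹
        rwa [inv_inv] at h0
      have h0 := ha a _ hz'
      have e1 : φ j a * ((φ j a)⁻¹ * z * φ j a) * (φ j a)⁻¹ = z := by group
      rw [e1] at h0
      calc z * (φ i a * (φ j a)⁻¹)
          = (φ i a * ((φ j a)⁻¹ * z * φ j a) * (φ i a)⁻¹) * (φ i a * (φ j a)⁻¹) := by rw [← h0]
        _ = φ i a * (φ j a)⁻¹ * z := by group
    have h2 := (x k).h2 (φ i a * (φ j a)⁻¹) (Pigeon_M_le hT _ hy) s (Pigeon_M_le hT _ hsk')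
      (fun b hb => Pigeon_M_comm _ hy hb) (fun b hb => Pigeon_M_comm _ hsk' hb)
    have e3 : (φ i a * (φ j a)⁻¹)⁻¹ * s⁻¹ * (φ i a * (φ j a)⁻¹) * s
        = φ j a * ((φ k a)⁻¹ * sk⁻¹ * φ k a * sk) * (φ j a)⁻¹ := by
      rw [hws]
      have e4 : (φ j a)⁻¹ * s = s * (φ j a)⁻¹ := by
        rw [inv_mul_eq_iff_eq_mul, ← mul_assoc, ← hsj]
        group
      calc (φ i a * (φ j a)⁻¹)⁻¹ * s⁻¹ * (φ i a * (φ j a)⁻¹) * s
          = φ j a * (φ i a)⁻¹ * s⁻¹ * φ i a * ((φ j a)⁻¹ * s) := by group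
        _ = φ j a * ((φ i a)⁻¹ * s⁻¹ * φ i a * s) * (φ j a)⁻¹ := by rw [e4]; group
    rw [e3, ← hconj a _ hwD] at h2
    have e5 : φ k a * ((φ k a)⁻¹ * sk⁻¹ * φ k a * sk) * (φ k a)⁻¹
        = sk⁻¹ * φ k a * sk⁻¹⁻¹ * (φ k a)⁻¹ := by group
    rwa [e5] at h2
  have h5 := (x k).Q.inv_mem hmem
  rwa [inv_inv] at h5

/-- the number of steps is bounded -/
theorem Pigeon_long {T : Type u} [Group T] [Finite T] (hT : Group.IsNilpotent T) {β δ : ℕ}
    (hD : Nat.card (commutator T) ≤ δ) (x : ℕ → Datum T β) (m : ℕ)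
    (hx : ∀ l < m, ¬ Pigeon_R x l ≤ (x l).Q) :
    m ≤ (δ ^ δ * 2 ^ δ) ^ β * (((β * δ) ^ (β * δ)) ^ β + 1) := by
  classical
  by_contra hm
  push Not at hm
  choose φ hφ hφ' using fun l => Pigeon_phi (x l).B (x l).h4
  have hDn : (commutator T).Normal := inferInstance
  let ty : Fin m → (Fin β → ((commutator T → commutator T) × (commutator T → Prop))) :=
    fun l a => (Pigeon_conj (commutator T) hDn (φ l a), fun d => ∃ s ∈ Pigeon_R x l,
      (∀ q, q ∈ (x l).Q ↔ s * q * s⁻¹ ∈ (x l).Q) ∧ (d : T) = (φ l a)⁻¹ * s⁻¹ * φ l a * s)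
  haveI : Fintype (Fin β → ((commutator T → commutator T) × (commutator T → Prop))) :=
    Fintype.ofFinite _
  have hDpos : 0 < Nat.card (commutator T) := Nat.card_pos
  have hcard : Fintype.card (Fin β → ((commutator T → commutator T) × (commutator T → Prop)))
      * (((β * δ) ^ (β * δ)) ^ β + 1) < Fintype.card (Fin m) := by
    rw [Fintype.card_fin]
    refine lt_of_le_of_lt (Nat.mul_le_mul_right _ ?_) hm
    rw [← Nat.card_eq_fintype_card, Nat.card_fun, Nat.card_prod, Nat.card_fun, Nat.card_fun,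
      Nat.card_eq_fintype_card (α := Fin β), Fintype.card_fin,
      Nat.card_eq_fintype_card (α := Prop), Fintype.card_prop]
    refine Nat.pow_le_pow_left (Nat.mul_le_mul (Pigeon_pow hD hDpos) ?_) β
    exact Nat.pow_le_pow_right (by norm_num) hD
  obtain ⟨y, hy⟩ := Fintype.exists_lt_card_fiber_of_mul_lt_card (f := ty) hcard
  set S : Finset (Fin m) := Finset.univ.filter fun l => ty l = y with hS
  have hSne : S.Nonempty := Finset.card_pos.1 (lt_of_le_of_lt (Nat.zero_le _) hy)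
  set k : Fin m := S.min' hSne with hk
  have hkS : k ∈ S := S.min'_mem hSne
  have hK : ((x k).B ⊔ commutator T).Normal := Pigeon_normal _
  let al : Fin m → (Fin β → (((x k).B ⊔ commutator T : Subgroup T) →
      ((x k).B ⊔ commutator T : Subgroup T))) := fun l a => Pigeon_conj _ hK (φ l a)
  haveI : Fintype (Fin β → (((x k).B ⊔ commutator T : Subgroup T) →
      ((x k).B ⊔ commutator T : Subgroup T))) := Fintype.ofFinite _
  have hcard2 : (Finset.univ : Finset (Fin β → (((x k).B ⊔ commutator T : Subgroup T) →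
      ((x k).B ⊔ commutator T : Subgroup T)))).card < (S.erase k).card := by
    rw [Finset.card_erase_of_mem hkS, Finset.card_univ]
    refine lt_of_le_of_lt ?_ (Nat.lt_sub_of_add_lt hy)
    rw [← Nat.card_eq_fintype_card, Nat.card_fun, Nat.card_fun,
      Nat.card_eq_fintype_card (α := Fin β), Fintype.card_fin]
    exact Nat.pow_le_pow_left (Pigeon_pow (Pigeon_card _ (x k).h4 hD) Nat.card_pos) β
  have key : ∀ j ∈ S.erase k, ∀ i ∈ S.erase k, j < i → al j = al i → False := by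
    intro j hj i hi hji hal
    rw [Finset.mem_erase] at hj hi
    have hkj : k < j := lt_of_le_of_ne (S.min'_le j hj.2) (Ne.symm hj.1)
    have tk : ty k = y := (Finset.mem_filter.1 hkS).2
    have tj : ty j = y := (Finset.mem_filter.1 hj.2).2
    have ti : ty i = y := (Finset.mem_filter.1 hi.2).2
    refine hx k k.2 (Pigeon_core hT x φ hφ hφ' (k := k) (j := j) (i := i) hkj hji ?_ ?_ ?_)
    · intro a d hd
      have h1 := congrFun (tk.trans tj.symm) a
      have h2 := congrFun (congrArg Prod.fst h1) ⟨d, hd⟩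
      exact congrArg Subtype.val h2
    · intro a d hd h
      have h1 := congrFun (tk.trans ti.symm) a
      have h2 := congrFun (congrArg Prod.snd h1) ⟨d, hd⟩
      exact h2.mp h
    · intro a z hz
      have h1 := congrFun (congrFun hal a) ⟨z, hz⟩
      exact congrArg Subtype.val h1
  obtain ⟨j, hj, i, hi, hne, hal⟩ := Finset.exists_ne_map_eq_of_card_lt_of_maps_to hcard2
    (f := al) (fun _ _ => Finset.mem_coe.2 (Finset.mem_univ _))
  rcases lt_or_gt_of_ne hne with h | h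
  · exact key j hj i hi h hal
  · exact key i hi j hj h hal.symm

/-- **Lemma 5.** See the text (PART B of the proof). -/
theorem pigeon (β δ : ℕ) : ∃ f : ℕ, ∀ {T : Type u} [Group T] [Finite T]
    (_hT : Group.IsNilpotent T) (_hD : Nat.card (commutator T) ≤ δ) (𝓕 : Set (Datum T β)),
    ∃ M : Subgroup T, M.Normal ∧ M.index ≤ f ∧ ∀ x ∈ 𝓕, M ≤ x.Q := by
  refine ⟨((β * δ) ^ (β * δ)) ^ ((δ ^ δ * 2 ^ δ) ^ β * (((β * δ) ^ (β * δ)) ^ β + 1)), ?_⟩
  intro T _ _ hT hD 𝓕
  have hcpos : 0 < (β * δ) ^ (β * δ) := Nat.pow_self_pos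
  rcases 𝓕.eq_empty_or_nonempty with h | ⟨x0, hx0⟩
  · refine ⟨⊤, inferInstance, ?_, ?_⟩
    · rw [Subgroup.index_top]
      exact Nat.one_le_iff_ne_zero.2 (pow_pos hcpos _).ne'
    · intro x hx
      rw [h] at hx
      exact absurd hx (Set.notMem_empty _)
  · obtain ⟨m, hm, hmax⟩ : ∃ m, (∃ x : ℕ → Datum T β, (∀ l, x l ∈ 𝓕) ∧
        ∀ l < m, ¬ Pigeon_R x l ≤ (x l).Q) ∧ ¬ ∃ x : ℕ → Datum T β, (∀ l, x l ∈ 𝓕) ∧
        ∀ l < m + 1, ¬ Pigeon_R x l ≤ (x l).Q := by
      by_contra hcon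
      push Not at hcon
      have hall : ∀ m : ℕ, ∃ x : ℕ → Datum T β, (∀ l, x l ∈ 𝓕) ∧
          ∀ l < m, ¬ Pigeon_R x l ≤ (x l).Q := by
        intro m
        induction m with
        | zero => exact ⟨fun _ => x0, fun _ => hx0, fun l hl => absurd hl (Nat.not_lt_zero l)⟩
        | succ n ih => exact hcon n ih
      obtain ⟨x, -, hx⟩ := hall ((δ ^ δ * 2 ^ δ) ^ β * (((β * δ) ^ (β * δ)) ^ β + 1) + 1)
      exact absurd (Pigeon_long hT hD x _ hx) (Nat.not_succ_le_self _)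
    obtain ⟨x, hxF, hx⟩ := hm
    refine ⟨Pigeon_R x m, Pigeon_R_normal x m, ?_, ?_⟩
    · have hmN := Pigeon_long hT hD x m hx
      calc (Pigeon_R x m).index ≤ ∏ h : Fin m, (Pigeon_M (x h)).index :=
            Subgroup.index_iInf_le _
        _ ≤ ∏ _h : Fin m, (β * δ) ^ (β * δ) := by
            refine Finset.prod_le_prod' fun h _ => ?_
            have := Pigeon_normal (x h).B
            exact Pigeon_index _ (Pigeon_card _ (x h).h4 hD)
        _ = ((β * δ) ^ (β * δ)) ^ m := by simp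
        _ ≤ _ := Nat.pow_le_pow_right hcpos hmN
    · intro y hy
      by_contra hcon
      refine hmax ⟨fun l => if l < m then x l else y, ?_, ?_⟩
      · intro l
        dsimp only
        split_ifs
        · exact hxF l
        · exact hy
      · intro l hl
        have hR : Pigeon_R (fun l => if l < m then x l else y) l = Pigeon_R x l := by
          unfold Pigeon_R
          refine iInf_congr fun h => ?_
          have h1 : (h : ℕ) < m := lt_of_lt_of_le h.2 (Nat.lt_succ_iff.1 hl)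
          simp only [h1, if_true]
        rw [hR]
        rcases Nat.lt_succ_iff_lt_or_eq.1 hl with h1 | h1
        · simp only [h1, if_true]
          exact hx l h1
        · subst h1
          simp only [lt_irrefl, if_false]
          exact hcon

end MNQ
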