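import Pool.Agent.W_0649d4.Final
import Pool.Agent.W_0649q_h65.Chief
import Pool.Agent.W_0649q_h65.Pigeon

/-! MP_0649d4_al, Theorem Q: definitions for the fusion part and Lemma 6. -/

namespace MNQ

open MNF

variable {G : Type*} [Group G] {S : Subgroup G} (F : FusionSystem S)

/-- `A_Q(x)`: the automorphisms of `Q` in `F` fixing `x` (as a subgroup of `MulAut Q`). -/
def autFix (x : G) (Q : Subgroup G) : Subgroup (MulAut Q) where
  carrier := {a | a ∈ F.aut Q ∧ ∀ y : Q, (y : G) = x → (a y : G) = x}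
  one_mem' := ⟨one_mem _, fun _ h => h⟩
  mul_mem' := fun {a b} ha hb => ⟨mul_mem ha.1 hb.1, fun y hy => ha.2 _ (hb.2 y hy)⟩
  inv_mem' := fun {a} ha => ⟨inv_mem ha.1, fun y hy => by
    have h1 := ha.2 y hy
    have h2 : a y = y := Subtype.ext (h1.trans hy.symm)
    have h3 : a⁻¹ y = y := by
      conv_lhs => rw [← h2]
      exact MulAut.inv_apply_self _ _ _
    rw [h3]; exact hy⟩

/-- `(x, Q)` is relevant: `Q` is `F`-centric, `x ∈ Z(Q)`, and every normal `p`-subgroup of `A_Q(x)`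
is contained in `Inn(Q)`. -/
def Relevant (p : ℕ) (x : G) (Q : Subgroup G) : Prop :=
  F.Centric Q ∧ x ∈ Q ∧ (∀ y ∈ Q, y * x = x * y) ∧
    ∀ W : Subgroup (MulAut Q), W ≤ autFix F x Q →
      (∀ a ∈ autFix F x Q, ∀ w ∈ W, a * w * a⁻¹ ∈ W) → IsPGroup p W →
      W ≤ (MulAut.conj (G := Q)).range

/-- The restrictions to `Q` of elements of `Aut_F(S)`. -/
def restS {Q : Subgroup G} (hQ : Q ≤ S) : Subgroup (MulAut Q) where
  carrier := {a' | ∃ a ∈ F.aut S, ∀ y : Q, (a' y : G) = a ⟨y, hQ y.2⟩}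
  one_mem' := ⟨1, one_mem _, fun _ => rfl⟩
  mul_mem' := by
    rintro a' b' ⟨a, ha, h1⟩ ⟨b, hb, h2⟩
    refine ⟨a * b, mul_mem ha hb, fun y => ?_⟩
    rw [MulAut.mul_apply, h1, MulAut.mul_apply]
    congr 2
    exact Subtype.ext (h2 y)
  inv_mem' := by
    rintro a' ⟨a, ha, h1⟩
    refine ⟨a⁻¹, inv_mem ha, fun y => ?_⟩
    have h2 := h1 (a'⁻¹ y)
    rw [MulAut.apply_inv_self] at h2
    have h3 : (⟨y, hQ y.2⟩ : S) = a ⟨(a'⁻¹ y : Q), hQ (a'⁻¹ y).2⟩ := Subtype.ext h2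
    rw [h3, MulAut.inv_apply_self]

variable [Finite G]

/-- A `p`-subgroup `R` of `Aut_F(Q)` is conjugate in `F` to a subgroup of `Aut_S(Q₀)`: take
`φ₀ : Q → Q₀` in `F` with `Q₀` fully normalized (`CAlperin_exists_fn`), `Aut_S(Q₀)` is Sylow in
`Aut_F(Q₀)` (`CAlperin_index`), `emb_sylow` / `CAlperin_sylow` for `φ₀ R φ₀⁻¹`. -/
theorem exists_conj_into (p : ℕ) [Fact p.Prime] (hS : IsPGroup p S) (hF : F.Saturated p)
    {Q : Subgroup G} (hQ : Q ≤ S) (R : Subgroup (MulAut Q)) (hR : R ≤ F.aut Q)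
    (hRp : IsPGroup p R) :
    ∃ (Q₀ : Subgroup G) (ψ : Q ≃* Q₀), ψ ∈ F.iso Q Q₀ ∧
      ∀ r ∈ R, ∃ s ∈ S, ∀ y : Q, (ψ (r y) : G) = s * ψ y * s⁻¹ := by
  obtain ⟨Q₀, ⟨φ, hφ⟩, hfn⟩ := CAlperin_exists_fn F hQ
  have hQ₀S : Q₀ ≤ S := F.le_right hφ
  have hmem : ∀ r ∈ R, (MulAut.congr φ) r ∈ F.aut Q₀ := by
    intro r hr
    rw [F.mem_aut hQ₀S]
    have h1 : r ∈ F.iso Q Q := (F.mem_aut hQ r).1 (hR hr)
    exact F.trans_mem (F.symm_mem hφ) (F.trans_mem h1 hφ)
  set B' : Subgroup (MulAut Q₀) := R.map (MulAut.congr φ).toMonoidHom with hB'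
  have hB'p : IsPGroup p B' := hRp.map _
  obtain ⟨a, ha⟩ := CAlperin_sylow p ((autS S Q₀).subgroupOf (F.aut Q₀))
    ((CAlperin_autS_pGroup hS Q₀).comap_subtype) (CAlperin_index F hF hQ₀S hfn)
    (B'.subgroupOf (F.aut Q₀)) (hB'p.comap_subtype)
  have haiso : (a : MulAut Q₀) ∈ F.iso Q₀ Q₀ := (F.mem_aut hQ₀S _).mp a.2
  refine ⟨Q₀, φ.trans (a : MulAut Q₀), F.trans_mem hφ haiso, fun r hr => ?_⟩
  have hb : (⟨(MulAut.congr φ) r, hmem r hr⟩ : F.aut Q₀) ∈ B'.subgroupOf (F.aut Q₀) :=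
    Subgroup.mem_subgroupOf.mpr ⟨r, hr, rfl⟩
  obtain ⟨s, hs, hsx⟩ := Subgroup.mem_subgroupOf.mp (ha _ hb)
  refine ⟨s, hs, fun y => ?_⟩
  have h1 := hsx ((a : MulAut Q₀) (φ y))
  have h2 : (((a * ⟨(MulAut.congr φ) r, hmem r hr⟩ * a⁻¹ : F.aut Q₀) : MulAut Q₀)
      ((a : MulAut Q₀) (φ y))) = (a : MulAut Q₀) (φ (r y)) := by
    change (a : MulAut Q₀) ((MulAut.congr φ r) ((a : MulAut Q₀)⁻¹ ((a : MulAut Q₀) (φ y)))) = _
    rw [MulAut.inv_apply_self]
    congr 1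
    change φ (r (φ.symm (φ y))) = φ (r y)
    rw [MulEquiv.symm_apply_apply]
  rw [h2] at h1
  exact h1

/-- Lemma 6, first part: `|[Q, R]| ≤ |[S, S]|`. -/
theorem card_comm_le (p : ℕ) [Fact p.Prime] (hS : IsPGroup p S) (hF : F.Saturated p)
    {Q : Subgroup G} (hQ : Q ≤ S) (R : Subgroup (MulAut Q)) (hR : R ≤ F.aut Q)
    (hRp : IsPGroup p R) :
    Nat.card (Subgroup.closure {c : Q | ∃ r ∈ R, ∃ q : Q, c = r q * q⁻¹}) ≤
      Nat.card (commutator S) := by
  obtain ⟨Q₀, ψ, hψ, h⟩ := exists_conj_into F p hS hF hQ R hR hRp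
  have hQ₀S : Q₀ ≤ S := F.le_right hψ
  set f : Q →* S := (Subgroup.inclusion hQ₀S).comp ψ.toMonoidHom with hf
  have hfi : Function.Injective f := (Subgroup.inclusion_injective hQ₀S).comp ψ.injective
  have hfv : ∀ y : Q, ((f y : S) : G) = ψ y := fun y => rfl
  have hle : Subgroup.closure {c : Q | ∃ r ∈ R, ∃ q : Q, c = r q * q⁻¹} ≤
      (commutator S).comap f := by
    rw [Subgroup.closure_le]
    rintro c ⟨r, hr, q, rfl⟩
    obtain ⟨s, hs, hsx⟩ := h r hr
    show f (r q * q⁻¹) ∈ commutator S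
    have e : f (r q * q⁻¹) = (⟨s, hs⟩ : S) * f q * (⟨s, hs⟩ : S)⁻¹ * (f q)⁻¹ := by
      apply Subtype.ext
      rw [map_mul, map_inv]
      simp only [Subgroup.coe_mul, Subgroup.coe_inv, hfv]
      rw [hsx q]
    rw [e, commutator_def]
    have h5 := Subgroup.commutator_mem_commutator (Subgroup.mem_top (⟨s, hs⟩ : S))
      (Subgroup.mem_top (f q))
    rwa [commutatorElement_def] at h5
  apply Nat.card_le_card_of_injective
    (fun c : Subgroup.closure {c : Q | ∃ r ∈ R, ∃ q : Q, c = r q * q⁻¹} =>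
      (⟨f c.1, hle c.2⟩ : commutator S))
  intro c c' hcc
  exact Subtype.ext (hfi (congrArg Subtype.val hcc))

/-- Lemma 6, second part: `|R| ≤ |Inn(Q)| |S : Q|`: `|R| ≤ |Aut_S(Q₀)| = |N_S(Q₀) : C_S(Q₀)| ≤
|S| / |Z(Q₀)|`. -/
theorem card_le_inn (p : ℕ) [Fact p.Prime] (hS : IsPGroup p S) (hF : F.Saturated p)
    {Q : Subgroup G} (hQ : Q ≤ S) (R : Subgroup (MulAut Q)) (hR : R ≤ F.aut Q)
    (hRp : IsPGroup p R) :
    Nat.card R ≤ Nat.card (MulAut.conj (G := Q)).range * Q.relIndex S := by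
  obtain ⟨Q₀, ψ, hψ, h⟩ := exists_conj_into F p hS hF hQ R hR hRp
  have hQ₀S : Q₀ ≤ S := F.le_right hψ
  choose! t ht htx using h
  set Z' : Subgroup S := ((Subgroup.center Q₀).map Q₀.subtype).subgroupOf S with hZ'
  have hinj : Function.Injective (fun r : R => ((⟨t r, ht r r.2⟩ : S) : S ⧸ Z')) := by
    intro r r' hrr
    have h1 : (⟨t r, ht r r.2⟩ : S)⁻¹ * ⟨t r', ht r' r'.2⟩ ∈ Z' := QuotientGroup.eq.1 hrr
    obtain ⟨z, hz, hz'⟩ := Subgroup.mem_subgroupOf.1 h1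
    have hz'' : (z : G) = (t r)⁻¹ * t r' := hz'
    have h2 : t r' = t r * z := by rw [hz'']; group
    apply Subtype.ext
    ext y
    have e1 := htx r r.2 y
    have e2 := htx r' r'.2 y
    have e3 : (z : G) * ψ y * (z : G)⁻¹ = ψ y := by
      have := (Subgroup.mem_center_iff.1 hz) (ψ y)
      have h4 : (ψ y : G) * z = z * ψ y := congrArg Subtype.val this
      rw [← h4]
      group
    have e4 : (ψ ((r : MulAut Q) y) : G) = ψ ((r' : MulAut Q) y) := by
      rw [e1, e2, h2, mul_inv_rev]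
      calc t r * (ψ y : G) * (t r)⁻¹ = t r * ((z : G) * ψ y * (z : G)⁻¹) * (t r)⁻¹ := by rw [e3]
        _ = _ := by group
    exact congrArg Subtype.val (ψ.injective (Subtype.ext e4))
  have h1 : Nat.card R ≤ Z'.index := by
    have := Nat.card_le_card_of_injective _ hinj
    exact this
  have hcZ' : Nat.card Z' = Nat.card (Subgroup.center Q) := by
    have hle : (Subgroup.center Q₀).map Q₀.subtype ≤ S :=
      (Subgroup.map_subtype_le _).trans hQ₀S
    rw [hZ', Nat.card_congr (Subgroup.subgroupOfEquivOfLe hle).toEquiv,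
      ← Nat.card_congr ((Subgroup.center Q₀).equivMapOfInjective _ Q₀.subtype_injective).toEquiv]
    exact (Nat.card_congr (Subgroup.centerCongr ψ).toEquiv).symm
  have h2 : Z'.index * Nat.card (Subgroup.center Q) = Nat.card S := by
    rw [← hcZ']
    exact Z'.index_mul_card
  have hker : (MulAut.conj (G := Q)).ker = Subgroup.center Q := by
    ext y
    rw [MonoidHom.mem_ker, Subgroup.mem_center_iff]
    constructor
    · intro hy x
      have := congrArg (fun a : MulAut Q => a x) hy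
      simp only [MulAut.conj_apply, MulAut.one_apply] at this
      rw [mul_inv_eq_iff_eq_mul] at this
      exact this.symm
    · intro hy
      ext x
      rw [MulAut.conj_apply, MulAut.one_apply, ← hy x, mul_inv_cancel_right]
  have h3 : Nat.card (MulAut.conj (G := Q)).range * Nat.card (Subgroup.center Q) = Nat.card Q := by
    rw [← Subgroup.index_ker, hker]
    exact (Subgroup.center Q).index_mul_card
  have h4 : Nat.card Q * Q.relIndex S = Nat.card S := by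
    have := (Q.subgroupOf S).card_mul_index
    rw [Nat.card_congr (Subgroup.subgroupOfEquivOfLe hQ).toEquiv] at this
    exact this
  have hpos : 0 < Nat.card (Subgroup.center Q) := Nat.card_pos
  refine Nat.le_of_mul_le_mul_right ?_ hpos
  calc Nat.card R * Nat.card (Subgroup.center Q) ≤ Z'.index * Nat.card (Subgroup.center Q) :=
        Nat.mul_le_mul_right _ h1
    _ = Nat.card S := h2
    _ = Nat.card (MulAut.conj (G := Q)).range * Nat.card (Subgroup.center Q) * Q.relIndex S := by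
        rw [h3, h4]
    _ = _ := by ring

end MNQ
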