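import Mathlib

/-! MP_0649d4_al, Theorem Q: the number of Sylow subgroups. -/

namespace MNQ

/-- A normal `p`-subgroup lies in every Sylow `p`-subgroup. -/
theorem SylNum_aux1 (p : ℕ) {A : Type*} [Group A] (R : Sylow p A) (K : Subgroup A)
    (hK : K.Normal) (hKp : IsPGroup p K) : K ≤ (R : Subgroup A) := by
  have h1 : IsPGroup p ((R : Subgroup A) ⊔ K : Subgroup A) :=
    IsPGroup.to_sup_of_normal_right R.isPGroup' hKp
  have h2 := R.is_maximal' h1 le_sup_left
  calc K ≤ (R : Subgroup A) ⊔ K := le_sup_right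
    _ = (R : Subgroup A) := h2

/-- If `L` is normal of nonzero index and `N ⊔ L = ⊤` then `[A : N] = [L : N ⊓ L]`. -/
theorem SylNum_aux2 {A : Type*} [Group A] (N L : Subgroup A) (hL : L.Normal)
    (hi : L.index ≠ 0) (h : N ⊔ L = ⊤) : N.index = N.relIndex L := by
  have h1 : L.relIndex N = L.index := by
    rw [← Subgroup.relIndex_sup_right, h, Subgroup.relIndex_top_right]
  have h2 : (N ⊓ L).index = N.relIndex L * L.index := by
    rw [← Subgroup.relIndex_mul_index (inf_le_right : N ⊓ L ≤ L), Subgroup.inf_relIndex_right]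
  have h3 : (N ⊓ L).index = L.relIndex N * N.index := by
    rw [← Subgroup.relIndex_mul_index (inf_le_left : N ⊓ L ≤ N), Subgroup.inf_relIndex_left]
  have h4 : L.index * N.index = L.index * N.relIndex L := by
    rw [← h1, ← h3, h2, h1, mul_comm]
  exact Nat.eq_of_mul_eq_mul_left (Nat.pos_of_ne_zero hi) h4

/-- The number of Sylow `p`-subgroups: if `K` is a normal `p`-subgroup of `A` and
`K.relIndex (normalClosure R) ≤ F`, `R` Sylow, then `A` has at most `F` Sylow `p`-subgroups. (All
Sylow subgroups contain `K`; `L = normalClosure R` contains them all and acts transitively on them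
(they are Sylow in `L`); `l ↦ l R l⁻¹` factors through `L ⧸ (K ⊓ L)`.) -/
theorem card_sylow_le_relIndex (p : ℕ) [Fact p.Prime] {A : Type*} [Group A] [Finite A]
    (R : Sylow p A) (K : Subgroup A) (hK : K.Normal) (hKp : IsPGroup p K) (n : ℕ)
    (h : K.relIndex (Subgroup.normalClosure (R : Set A)) ≤ n) : Nat.card (Sylow p A) ≤ n := by
  set L : Subgroup A := Subgroup.normalClosure (R : Set A) with hLdef
  have hLn : L.Normal := Subgroup.normalClosure_normal
  have hRL : (R : Subgroup A) ≤ L := fun x hx => Subgroup.subset_normalClosure hx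
  have hF : Subgroup.normalizer ((R : Subgroup A) : Set A) ⊔ L = ⊤ :=
    Sylow.normalizer_sup_eq_top' R hRL
  have hi : L.index ≠ 0 := Subgroup.index_ne_zero_of_finite
  have h1 := SylNum_aux2 (Subgroup.normalizer ((R : Subgroup A) : Set A)) L hLn hi hF
  have h2 : Nat.card (Sylow p A) = (Subgroup.normalizer ((R : Subgroup A) : Set A)).index :=
    Sylow.card_eq_index_normalizer R
  have h3 : K ≤ Subgroup.normalizer ((R : Subgroup A) : Set A) :=
    (SylNum_aux1 p R K hK hKp).trans Subgroup.le_normalizer
  have h4 := Subgroup.relIndex_dvd_of_le_left L h3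
  have h5 : K.relIndex L ≠ 0 := Subgroup.index_ne_zero_of_finite
  rw [h2, h1]
  exact (Nat.le_of_dvd (Nat.pos_of_ne_zero h5) h4).trans h

end MNQ
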