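import Pool.Agent.W_0649q_h65.FusA
import Pool.Agent.W_0649q_h65.SylNum
import Pool.Agent.W_0649q_h65.AbsBZ

/-! MP_0649d4_al, Theorem Q, Lemma 7: a relevant pair gives a datum. -/

namespace MNQ

open MNF

universe u

/-- Conjugation by an element normalising `Q`, as an automorphism of `Q`. -/
private def FusD_cj {G : Type u} [Group G] (Q : Subgroup G) (t : G)
    (h : ∀ q, q ∈ Q ↔ t * q * t⁻¹ ∈ Q) : MulAut Q where
  toFun y := ⟨t * y * t⁻¹, (h y).1 y.2⟩
  invFun y := ⟨t⁻¹ * y * t, (h _).2 (by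
    have e : t * (t⁻¹ * (y : G) * t) * t⁻¹ = y := by group
    rw [e]
    exact y.2)⟩
  left_inv y := Subtype.ext (by
    show t⁻¹ * (t * (y : G) * t⁻¹) * t = y
    group)
  right_inv y := Subtype.ext (by
    show t * (t⁻¹ * (y : G) * t) * t⁻¹ = y
    group)
  map_mul' a b := Subtype.ext (by
    show t * ((a : G) * b) * t⁻¹ = (t * a * t⁻¹) * (t * b * t⁻¹)
    group)

private theorem FusD_cj_apply {G : Type u} [Group G] (Q : Subgroup G) (t : G)
    (h : ∀ q, q ∈ Q ↔ t * q * t⁻¹ ∈ Q) (y : Q) : (FusD_cj Q t h y : G) = t * y * t⁻¹ := rfl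

private theorem FusD_cj_pow {G : Type u} [Group G] (Q : Subgroup G) (t : G)
    (h : ∀ q, q ∈ Q ↔ t * q * t⁻¹ ∈ Q) (n : ℕ) (y : Q) :
    ((FusD_cj Q t h ^ n) y : G) = t ^ n * y * (t ^ n)⁻¹ := by
  induction n with
  | zero => simp
  | succ n ih =>
    rw [pow_succ', MulAut.mul_apply, FusD_cj_apply, ih, pow_succ']
    group

section

variable {G : Type u} [Group G] {S : Subgroup G} (F : FusionSystem S)

private theorem FusD_le_T {x : G} {Q : Subgroup G} (hQS : Q ≤ S)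
    (hx : ∀ y ∈ Q, y * x = x * y) : Q ≤ cS S (Subgroup.zpowers x) := by
  intro y hy
  refine Subgroup.mem_inf.2 ⟨hQS hy, ?_⟩
  rw [Subgroup.mem_centralizer_iff]
  intro z hz
  obtain ⟨k, rfl⟩ := Subgroup.mem_zpowers_iff.1 hz
  have hc : Commute y x := hx y hy
  exact (hc.zpow_right k).symm

private theorem FusD_T_comm {x t : G} (ht : t ∈ cS S (Subgroup.zpowers x)) : t * x = x * t := by
  have h1 := (Subgroup.mem_inf.1 ht).2
  rw [Subgroup.mem_centralizer_iff] at h1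
  exact (h1 x (Subgroup.mem_zpowers x)).symm

/-- conjugation by an element of `S` commuting with `x` is in `autFix`. -/
private theorem FusD_mem_A {x : G} {Q : Subgroup G} (hQS : Q ≤ S) (a : MulAut Q) (t : G)
    (htS : t ∈ S) (htx : t * x = x * t) (h : ∀ y : Q, (a y : G) = t * y * t⁻¹) :
    a ∈ autFix F x Q := by
  refine ⟨Or.inr (F.conj_mem t a htS hQS h), ?_⟩
  intro y hy
  rw [h, hy, htx, mul_assoc, mul_inv_cancel, mul_one]

private theorem FusD_inn_le {x : G} {Q : Subgroup G} (hQS : Q ≤ S)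
    (hx : ∀ y ∈ Q, y * x = x * y) : (MulAut.conj (G := Q)).range ≤ autFix F x Q := by
  rintro _ ⟨q, rfl⟩
  refine FusD_mem_A F hQS _ (q : G) (hQS q.2) (hx q q.2) ?_
  intro y
  rw [MulAut.conj_apply]
  rfl

private theorem FusD_conj_self {Q : Subgroup G} (hQS : Q ≤ S) : F.Conj Q Q := by
  refine ⟨MulEquiv.refl Q, F.conj_mem 1 _ S.one_mem hQS ?_⟩
  intro y
  simp

end

section

variable {G : Type u} [Group G] [Finite G] {S : Subgroup G} (F : FusionSystem S)

private theorem FusD_pgroup_map {p : ℕ} {Q : Type u} [Group Q] {A : Subgroup (MulAut Q)}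
    {R : Subgroup A} (hR : IsPGroup p R) : IsPGroup p (R.map A.subtype) :=
  hR.map A.subtype

private theorem FusD_comm_set {Q : Type u} [Group Q] {A : Subgroup (MulAut Q)}
    (R : Subgroup A) : commR A.subtype R =
      Subgroup.closure {c : Q | ∃ r ∈ R.map A.subtype, ∃ q : Q, c = r q * q⁻¹} := by
  unfold commR
  congr 1
  ext c
  constructor
  · rintro ⟨r, hr, q, hc⟩
    exact ⟨A.subtype r, Subgroup.mem_map_of_mem _ hr, q, hc⟩
  · rintro ⟨r, hr, q, hc⟩
    obtain ⟨r', hr', rfl⟩ := Subgroup.mem_map.1 hr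
    exact ⟨r', hr', q, hc⟩

/-- The number of Sylow subgroups of `A`. -/
private theorem FusD_sylow {p : ℕ} [Fact p.Prime] {s n : ℕ}
    (hn : ∀ {H : Type u} {Q : Type u}
      [Group H] [Finite H] [Group Q] [Finite Q] (_hQ : IsPGroup p Q) (φ : H →* MulAut Q)
      (R : Sylow p H) (_hs : Nat.card (commR φ (R : Subgroup H)) ≤ p ^ s),
      ∃ K : Subgroup H, K.Normal ∧ (∀ k ∈ K, ∃ n : ℕ, φ k ^ p ^ n = 1) ∧
        K.relIndex (Subgroup.normalClosure (R : Set H)) ≤ n)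
    {Q : Type u} [Group Q] [Finite Q] (hQ : IsPGroup p Q) (A : Subgroup (MulAut Q))
    (hc : ∀ R : Subgroup (MulAut Q), R ≤ A → IsPGroup p R →
      Nat.card (Subgroup.closure {c : Q | ∃ r ∈ R, ∃ q : Q, c = r q * q⁻¹}) ≤ p ^ s) :
    Nat.card (Sylow p A) ≤ n := by
  obtain ⟨R⟩ : Nonempty (Sylow p A) := inferInstance
  have h1 : Nat.card (commR A.subtype (R : Subgroup A)) ≤ p ^ s := by
    rw [FusD_comm_set]
    refine hc _ ?_ (FusD_pgroup_map R.isPGroup')
    rintro _ ⟨r, _, rfl⟩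
    exact r.2
  obtain ⟨K, hK, hKp, hKi⟩ := hn hQ A.subtype R h1
  refine card_sylow_le_relIndex p R K hK ?_ n hKi
  intro k
  obtain ⟨m, hm⟩ := hKp k k.2
  refine ⟨m, ?_⟩
  apply Subtype.ext
  apply A.subtype_injective
  rw [Subgroup.coe_pow, map_pow, hm]
  simp

end

/-- **Lemma 7.** `β = (p ^ s) ^ F`, `F` from `chief_bound p s`. `T = C_S(x)`; `A = A_Q(x)`, with
`φ = A.subtype : A →* MulAut Q` in `chief_bound` (a Sylow subgroup of `A` is mapped to a
`p`-subgroup of `Aut_F(Q)`, `card_comm_le`); (h3): `t ∈ T` normalising `Q` induces an element of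
`A_Q(x)` of `p`-power order; if it is conjugation by `q ∈ Q` then `q⁻¹ t ∈ C_S(Q) ≤ Q`. -/
theorem relevant_datum (p : ℕ) [Fact p.Prime] (s : ℕ) : ∃ β : ℕ, ∀ {G : Type u} [Group G]
    [Finite G] {S : Subgroup G} (F : FusionSystem S) (_hS : IsPGroup p S) (_hF : F.Saturated p)
    (_hs : Nat.card (commutator S) ≤ p ^ s) (x : S) (Q : Subgroup G)
    (_hQ : Relevant F p (x : G) Q),
    ∃ d : Datum (cS S (Subgroup.zpowers (x : G))) β,
      d.Q = Q.subgroupOf (cS S (Subgroup.zpowers (x : G))) := by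
  obtain ⟨n, hn⟩ := chief_bound.{u, u} p s
  refine ⟨(p ^ s) ^ n, ?_⟩
  intro G _ _ S F hS hF hs x Q hQ
  obtain ⟨hcen, hxQ, hxc, hrel⟩ := hQ
  have hQS : Q ≤ S := hcen.1
  have hQT : Q ≤ cS S (Subgroup.zpowers (x : G)) := FusD_le_T hQS hxc
  have hQp : IsPGroup p Q := hS.to_le hQS
  have hAF : autFix F (x : G) Q ≤ F.aut Q := fun a ha => ha.1
  have hc : ∀ R : Subgroup (MulAut Q), R ≤ autFix F (x : G) Q → IsPGroup p R →
      Nat.card (Subgroup.closure {c : Q | ∃ r ∈ R, ∃ q : Q, c = r q * q⁻¹}) ≤ p ^ s :=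
    fun R hR hRp => (card_comm_le F p hS hF hQS R (hR.trans hAF) hRp).trans hs
  have hsyl : Nat.card (Sylow p (autFix F (x : G) Q)) ≤ n :=
    FusD_sylow hn hQp (autFix F (x : G) Q) hc
  obtain ⟨B, Z, hB, h2, h3⟩ := exists_BZ p hQp (autFix F (x : G) Q) (FusD_inn_le F hQS hxc)
    hrel (p ^ s) n hc hsyl
  have hinj : Function.Injective (Subgroup.inclusion hQT) := Subgroup.inclusion_injective hQT
  refine ⟨{ Q := Q.subgroupOf _
            B := B.map (Subgroup.inclusion hQT)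
            Z := Z.map (Subgroup.inclusion hQT)
            hB := ?_
            h2 := ?_
            h3 := ?_
            h4 := ?_ }, rfl⟩
  · rintro _ ⟨b, _, rfl⟩
    exact b.2
  · intro m₁ hm₁ m₂ hm₂ hb₁ hb₂
    have e₁ : m₁ = Subgroup.inclusion hQT ⟨(m₁ : G), hm₁⟩ := rfl
    have e₂ : m₂ = Subgroup.inclusion hQT ⟨(m₂ : G), hm₂⟩ := rfl
    refine ⟨(⟨(m₁ : G), hm₁⟩ : Q)⁻¹ * (⟨(m₂ : G), hm₂⟩ : Q)⁻¹ * ⟨(m₁ : G), hm₁⟩ *
      ⟨(m₂ : G), hm₂⟩, h2 _ _ ?_ ?_, ?_⟩
    · intro b hb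
      apply hinj
      rw [map_mul, map_mul, ← e₁]
      exact hb₁ _ (Subgroup.mem_map_of_mem _ hb)
    · intro b hb
      apply hinj
      rw [map_mul, map_mul, ← e₂]
      exact hb₂ _ (Subgroup.mem_map_of_mem _ hb)
    · rfl
  · intro t ht hb
    have hnorm : ∀ q : G, q ∈ Q ↔ (t : G) * q * (t : G)⁻¹ ∈ Q := by
      intro q
      constructor
      · intro hq
        exact (ht ⟨q, hQT hq⟩).1 hq
      · intro hq
        have hqT : q ∈ cS S (Subgroup.zpowers (x : G)) := by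
          have e : q = (t : G)⁻¹ * ((t : G) * q * (t : G)⁻¹) * t := by group
          rw [e]
          exact mul_mem (mul_mem (inv_mem t.2) (hQT hq)) t.2
        exact (ht ⟨q, hqT⟩).2 hq
    have htS : (t : G) ∈ S := t.2.1
    have hτA : FusD_cj Q (t : G) hnorm ∈ autFix F (x : G) Q :=
      FusD_mem_A F hQS _ (t : G) htS (FusD_T_comm t.2) (fun y => rfl)
    have hτp : ∃ m : ℕ, FusD_cj Q (t : G) hnorm ^ p ^ m = 1 := by
      obtain ⟨m, hm⟩ := hS ⟨(t : G), htS⟩
      refine ⟨m, ?_⟩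
      have hm' : (t : G) ^ p ^ m = 1 := congrArg Subtype.val hm
      apply MulEquiv.ext
      intro y
      apply Subtype.ext
      rw [FusD_cj_pow, hm']
      simp
    have hτB : ∀ b ∈ B, FusD_cj Q (t : G) hnorm b * b⁻¹ ∈ Z := by
      intro b hbB
      obtain ⟨z, hz, hze⟩ := hb _ (Subgroup.mem_map_of_mem (Subgroup.inclusion hQT) hbB)
      have e : z = FusD_cj Q (t : G) hnorm b * b⁻¹ := by
        apply hinj
        rw [hze]
        rfl
      rw [← e]
      exact hz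
    obtain ⟨q, hq⟩ := h3 _ hτA hτp hτB
    have hqt : (q : G)⁻¹ * t ∈ cS S Q := by
      refine Subgroup.mem_inf.2 ⟨mul_mem (inv_mem (hQS q.2)) htS, ?_⟩
      rw [Subgroup.mem_centralizer_iff]
      intro y hy
      have h5 : ((MulAut.conj q) ⟨y, hy⟩ : G) = (FusD_cj Q (t : G) hnorm ⟨y, hy⟩ : G) := by
        rw [hq]
      have h6 : (q : G) * y * (q : G)⁻¹ = (t : G) * y * (t : G)⁻¹ := h5
      have h7 : y * (q : G)⁻¹ = (q : G)⁻¹ * ((t : G) * y * (t : G)⁻¹) := by
        rw [← h6]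
        group
      calc y * ((q : G)⁻¹ * t) = (y * (q : G)⁻¹) * t := by group
        _ = (q : G)⁻¹ * ((t : G) * y * (t : G)⁻¹) * t := by rw [h7]
        _ = (q : G)⁻¹ * t * y := by group
    have hqtQ : (q : G)⁻¹ * t ∈ Q := hcen.2 Q (FusD_conj_self F hQS) hqt
    show (t : G) ∈ Q
    have e : (t : G) = (q : G) * ((q : G)⁻¹ * t) := by group
    rw [e]
    exact mul_mem q.2 hqtQ
  · have h4 : Nat.card (B.map (Subgroup.inclusion hQT)) = Nat.card B :=
      (Nat.card_congr (B.equivMapOfInjective _ hinj).toEquiv).symm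
    show Nat.card (B.map (Subgroup.inclusion hQT)) ≤ _
    rw [h4]
    exact hB

end MNQ
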