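import Pool.Agent.W_0649d4_h52.LiftE

/-! MP_0649d4_al, Theorem Q: lifting of invariant idempotent matrices from `F_p` to `ℤ_p` (proved in
`W_0649d4_h52.LiftE`). -/

namespace MNQ

/-- An idempotent matrix over `ZMod p`, invariant under a group acting on the index set, lifts to an
invariant idempotent matrix over `ℤ_p`. -/
theorem exists_idem_lift (p : ℕ) [Fact p.Prime] {Ω H : Type*} [Fintype Ω] [DecidableEq Ω]
    [Group H] [MulAction H Ω] (ε : Matrix Ω Ω (ZMod p)) (hε : ε * ε = ε)
    (hinv : ∀ (h : H) i j, ε (h • i) (h • j) = ε i j) :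
    ∃ E : Matrix Ω Ω ℤ_[p], E * E = E ∧ (∀ (h : H) i j, E (h • i) (h • j) = E i j) ∧
      E.map (PadicInt.toZMod (p := p)) = ε :=
  Pool.Agent.W_0649d4_h52.exists_lift_idempotent p ε hε hinv

end MNQ
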