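import Pool.Agent.W_0649d4.AIndex

/-! MP_0649d4_al, Theorem Q: the number of simple modules of a twisted group algebra is at most the
index times the number for a subgroup (no assumption on the characteristic). -/

namespace MNQ

open MNF Module

section gen

variable (k : Type*) [Field k]

/-- Codimensions of pairwise non-isomorphic maximal left ideals add up. -/
theorem IndexG_sum {A ι : Type*} [Ring A] [Algebra k A] [FiniteDimensional k A] [DecidableEq ι]
    (m : ι → Submodule A A) (hm : ∀ i, IsCoatom (m i)) (T : Finset ι)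
    (hne : ∀ i ∈ T, ∀ j ∈ T, i ≠ j → ¬ Nonempty ((A ⧸ m i) ≃ₗ[A] (A ⧸ m j))) :
    ∑ i ∈ T, finrank k (A ⧸ (m i).restrictScalars k) +
      finrank k ((T.inf m).restrictScalars k) = finrank k A := by
  induction T using Finset.induction_on with
  | empty =>
    rw [Finset.sum_empty, Finset.inf_empty, zero_add]
    exact finrank_top k A
  | insert j s hj ih =>
    have ih' := ih (fun i hi l hl => hne i (Finset.mem_insert_of_mem hi) l
      (Finset.mem_insert_of_mem hl))
    rw [Finset.sum_insert hj, Finset.inf_insert]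
    set N := s.inf m with hN
    have h1 : ¬ N ≤ m j := by
      intro h
      obtain ⟨i, hi, he⟩ := exists_iso_of_inf_le m hm (m j) (hm j) s h
      refine hne i (Finset.mem_insert_of_mem hi) j (Finset.mem_insert_self _ _) ?_ he
      rintro rfl
      exact hj hi
    have h2 : m j ⊔ N = ⊤ := by
      apply (hm j).2
      refine lt_of_le_of_ne le_sup_left ?_
      intro h5
      apply h1
      rw [h5]; exact le_sup_right
    have h5 : (m j ⊔ N).restrictScalars k =
        (m j).restrictScalars k ⊔ N.restrictScalars k :=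
      map_sup (Submodule.restrictScalarsLatticeHom k A A) _ _
    have h6 : (m j ⊓ N).restrictScalars k =
        (m j).restrictScalars k ⊓ N.restrictScalars k := rfl
    have h7 := Submodule.finrank_sup_add_finrank_inf_eq ((m j).restrictScalars k)
      (N.restrictScalars k)
    rw [← h5, h2, Submodule.restrictScalars_top, finrank_top] at h7
    have h8 := Submodule.finrank_quotient_add_finrank ((m j).restrictScalars k)
    rw [h6]
    omega

/-- The fibre bound. -/
theorem IndexG_fibre {A B J ι : Type*} [Ring A] [Ring B] [Algebra k A] [Algebra k B]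
    [FiniteDimensional k A] [FiniteDimensional k B] [Fintype J] [DecidableEq ι]
    (f : B →ₐ[k] A) (g : J → A) (hg : ∀ a : A, ∃ b : J → B, a = ∑ j, g j * f (b j))
    (n : Submodule B B) (hn : IsCoatom n) (m : ι → Submodule A A) (hm : ∀ i, IsCoatom (m i))
    (T : Finset ι)
    (hne : ∀ i ∈ T, ∀ j ∈ T, i ≠ j → ¬ Nonempty ((A ⧸ m i) ≃ₗ[A] (A ⧸ m j)))
    (hle : ∀ i ∈ T, ∀ b ∈ n, f b ∈ m i) : T.card ≤ Fintype.card J := by
  set d := finrank k (B ⧸ n.restrictScalars k) with hd
  -- lower bound
  have h1 : ∀ i ∈ T, d ≤ finrank k (A ⧸ (m i).restrictScalars k) := by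
    intro i hi
    let L : B →ₗ[k] (A ⧸ (m i).restrictScalars k) :=
      ((m i).restrictScalars k).mkQ.comp f.toLinearMap
    let K : Submodule B B :=
      { carrier := {b | f b ∈ m i}
        add_mem' := fun {x y} hx hy => by
          show f (x + y) ∈ m i
          rw [map_add]; exact (m i).add_mem hx hy
        zero_mem' := by
          show f 0 ∈ m i
          rw [map_zero]; exact (m i).zero_mem
        smul_mem' := fun c x hx => by
          show f (c * x) ∈ m i
          rw [map_mul]; exact (m i).smul_mem _ hx }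
    have hK : K = n := by
      have hle' : n ≤ K := fun b hb => hle i hi b hb
      rcases hn.le_iff.mp hle' with h | h
      · exfalso
        have h1 : (1 : B) ∈ K := by rw [h]; trivial
        have h2 : f 1 ∈ m i := h1
        rw [map_one] at h2
        apply (hm i).1
        rw [eq_top_iff]
        intro a _
        have := (m i).smul_mem a h2
        rwa [smul_eq_mul, mul_one] at this
      · exact h
    have hker : LinearMap.ker L = n.restrictScalars k := by
      ext b
      rw [LinearMap.mem_ker, Submodule.restrictScalars_mem, ← hK]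
      show ((m i).restrictScalars k).mkQ (f b) = 0 ↔ f b ∈ m i
      rw [Submodule.mkQ_apply, Submodule.Quotient.mk_eq_zero, Submodule.restrictScalars_mem]
    have h2 := Submodule.finrank_le (LinearMap.range L)
    have h3 := LinearMap.finrank_range_add_finrank_ker L
    have h4 := Submodule.finrank_quotient_add_finrank (n.restrictScalars k)
    rw [hker] at h3
    omega
  have hdpos : 0 < d := by
    have hne' : n ≠ ⊤ := hn.1
    have h4 := Submodule.finrank_quotient_add_finrank (n.restrictScalars k)
    have h5 : n.restrictScalars k < ⊤ := by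
      refine lt_top_iff_ne_top.mpr ?_
      intro h
      apply hne'
      rw [eq_top_iff]
      intro b _
      have : b ∈ n.restrictScalars k := by rw [h]; trivial
      exact this
    have h6 := Submodule.finrank_lt h5.ne
    omega
  -- upper bound
  have h2 : finrank k (A ⧸ (T.inf m).restrictScalars k) ≤ Fintype.card J * d := by
    have hn0 : ∀ b ∈ n, f b ∈ T.inf m := by
      intro b hb
      rw [Submodule.mem_finsetInf]
      exact fun i hi => hle i hi b hb
    let Lj : J → (B →ₗ[k] (A ⧸ (T.inf m).restrictScalars k)) := fun j =>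
      ((T.inf m).restrictScalars k).mkQ.comp ((LinearMap.mulLeft k (g j)).comp f.toLinearMap)
    have hLj : ∀ j b, Lj j b = ((T.inf m).restrictScalars k).mkQ (g j * f b) := fun j b => rfl
    have hker : ∀ j, n.restrictScalars k ≤ LinearMap.ker (Lj j) := by
      intro j b hb
      rw [LinearMap.mem_ker, hLj, Submodule.mkQ_apply, Submodule.Quotient.mk_eq_zero]
      exact (T.inf m).smul_mem _ (hn0 b hb)
    let Q : J → ((B ⧸ n.restrictScalars k) →ₗ[k] (A ⧸ (T.inf m).restrictScalars k)) :=
      fun j => (n.restrictScalars k).liftQ (Lj j) (hker j)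
    let L : (J → (B ⧸ n.restrictScalars k)) →ₗ[k] (A ⧸ (T.inf m).restrictScalars k) :=
      ∑ j, (Q j).comp (LinearMap.proj j)
    have hL : ∀ x, L x = ∑ j, Q j (x j) := by
      intro x
      simp [L, LinearMap.sum_apply]
    have hsurj : Function.Surjective L := by
      intro w
      obtain ⟨a, rfl⟩ := Submodule.mkQ_surjective _ w
      obtain ⟨b, hb⟩ := hg a
      refine ⟨fun j => (n.restrictScalars k).mkQ (b j), ?_⟩
      rw [hL, hb, map_sum]
      refine Finset.sum_congr rfl fun j _ => ?_
      rfl
    have h5 := LinearMap.finrank_le_finrank_of_surjective hsurj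
    rw [Module.finrank_pi_fintype, Finset.sum_const, Finset.card_univ, smul_eq_mul] at h5
    exact h5
  have h3 := IndexG_sum k m hm T hne
  have h4 := Submodule.finrank_quotient_add_finrank ((T.inf m).restrictScalars k)
  have h5 : T.card * d ≤ ∑ i ∈ T, finrank k (A ⧸ (m i).restrictScalars k) := by
    rw [← smul_eq_mul]
    exact Finset.card_nsmul_le_sum _ _ _ h1
  have h6 : T.card * d ≤ Fintype.card J * d := by omega
  exact Nat.le_of_mul_le_mul_right h6 hdpos

/-- Every simple `A`-module contains a simple `B`-module. -/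
theorem IndexG_key {A B : Type*} [Ring A] [Ring B] [Algebra k A] [Algebra k B]
    [FiniteDimensional k A] (f : B →ₐ[k] A) (m : Submodule A A) (hm : IsCoatom m) :
    ∃ (d : Quotient (simpleSetoid B)) (m' : Submodule A A), IsCoatom m' ∧
      Nonempty ((A ⧸ m') ≃ₗ[A] (A ⧸ m)) ∧ ∀ b ∈ d.out.1, f b ∈ m' := by
  letI : Module B (A ⧸ m) := Module.compHom (A ⧸ m) f.toRingHom
  have hsm : ∀ (b : B) (x : A ⧸ m), b • x = f b • x := fun b x => rfl
  have hst : IsScalarTower k B (A ⧸ m) := by
    refine ⟨fun c b x => ?_⟩
    rw [hsm, map_smul, smul_assoc, hsm]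
  have hsA : IsSimpleModule A (A ⧸ m) := isSimpleModule_iff_isCoatom.mpr hm
  have hnt : Nontrivial (A ⧸ m) := IsSimpleModule.nontrivial A _
  have hart : IsArtinian B (A ⧸ m) := isArtinian_of_tower k inferInstance
  have hntS : Nontrivial (Submodule B (A ⧸ m)) := (Submodule.nontrivial_iff B).mpr hnt
  obtain ⟨Y, hY⟩ := IsAtomic.exists_atom (Submodule B (A ⧸ m))
  have hYs : IsSimpleModule B Y := isSimpleModule_iff_isAtom.mpr hY
  have hYn : Nontrivial Y := IsSimpleModule.nontrivial B _
  obtain ⟨y, hy⟩ := exists_ne (0 : Y)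
  have hysurj := IsSimpleModule.toSpanSingleton_surjective B hy
  let n : Submodule B B := LinearMap.ker (LinearMap.toSpanSingleton B Y y)
  let e : (B ⧸ n) ≃ₗ[B] Y := (LinearMap.toSpanSingleton B Y y).quotKerEquivOfSurjective hysurj
  have hn : IsCoatom n := isSimpleModule_iff_isCoatom.mp (IsSimpleModule.congr e)
  let d : Quotient (simpleSetoid B) := Quotient.mk _ ⟨n, hn⟩
  obtain ⟨e2⟩ : Nonempty ((B ⧸ d.out.1) ≃ₗ[B] (B ⧸ n)) := by
    have h2 : (simpleSetoid B) d.out ⟨n, hn⟩ := Quotient.exact (Quotient.out_eq d)
    exact h2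
  let e3 : (B ⧸ d.out.1) ≃ₗ[B] Y := e2.trans e
  let y0 : Y := e3 ((d.out.1).mkQ 1)
  have hy0 : y0 ≠ 0 := by
    intro h
    have h1 : (d.out.1).mkQ (1 : B) = 0 := by
      rw [← LinearEquiv.map_eq_zero_iff e3]; exact h
    rw [Submodule.mkQ_apply, Submodule.Quotient.mk_eq_zero] at h1
    apply d.out.2.1
    rw [eq_top_iff]
    intro a _
    have := (d.out.1).smul_mem a h1
    rwa [smul_eq_mul, mul_one] at this
  have hy1 : (y0 : A ⧸ m) ≠ 0 := fun h => hy0 (Subtype.ext h)
  have hs := IsSimpleModule.toSpanSingleton_surjective A hy1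
  refine ⟨d, LinearMap.ker (LinearMap.toSpanSingleton A (A ⧸ m) (y0 : A ⧸ m)), ?_,
    ⟨(LinearMap.toSpanSingleton A (A ⧸ m) (y0 : A ⧸ m)).quotKerEquivOfSurjective hs⟩, ?_⟩
  · exact isSimpleModule_iff_isCoatom.mp (IsSimpleModule.congr
      ((LinearMap.toSpanSingleton A (A ⧸ m) (y0 : A ⧸ m)).quotKerEquivOfSurjective hs))
  · intro b hb
    rw [LinearMap.mem_ker, LinearMap.toSpanSingleton_apply, ← hsm]
    have h1 : b • y0 = 0 := by
      show b • e3 ((d.out.1).mkQ 1) = 0
      rw [← map_smul, ← map_smul, smul_eq_mul, mul_one, Submodule.mkQ_apply,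
        (Submodule.Quotient.mk_eq_zero _).mpr hb, map_zero]
    have h2 := congrArg (Subtype.val) h1
    exact h2

/-- `l(A) ≤ |J| l(B)` if `A` is generated by `|J|` elements as a right `B`-module. -/
theorem IndexG_main {A B J : Type*} [Ring A] [Ring B] [Algebra k A] [Algebra k B]
    [FiniteDimensional k A] [FiniteDimensional k B] [Fintype J]
    (f : B →ₐ[k] A) (g : J → A) (hg : ∀ a : A, ∃ b : J → B, a = ∑ j, g j * f (b j)) :
    lNum A ≤ Fintype.card J * lNum B := by
  classical
  have key : ∀ c : Quotient (simpleSetoid A), ∃ (d : Quotient (simpleSetoid B))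
      (m' : Submodule A A), IsCoatom m' ∧
      Nonempty ((A ⧸ m') ≃ₗ[A] (A ⧸ c.out.1)) ∧ ∀ b ∈ d.out.1, f b ∈ m' :=
    fun c => IndexG_key k f c.out.1 c.out.2
  choose D m' hm' he hle using key
  have hfinA := finite_simple k A
  have hfinB := finite_simple k B
  letI := Fintype.ofFinite (Quotient (simpleSetoid A))
  letI := Fintype.ofFinite (Quotient (simpleSetoid B))
  have hfib : ∀ (d : Quotient (simpleSetoid B)),
      ((Finset.univ : Finset (Quotient (simpleSetoid A))).filter
        (fun c => D c = d)).card ≤ Fintype.card J := by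
    intro d
    refine IndexG_fibre k f g hg d.out.1 d.out.2 m' hm' _ ?_ ?_
    · rintro c hc c' hc' hne ⟨e⟩
      obtain ⟨e1⟩ := he c
      obtain ⟨e2⟩ := he c'
      apply hne
      have h4 : (simpleSetoid A) c.out c'.out := ⟨(e1.symm.trans e).trans e2⟩
      rw [← Quotient.out_eq c, ← Quotient.out_eq c']
      exact Quotient.sound h4
    · intro c hc b hb
      rw [Finset.mem_filter] at hc
      apply hle c b
      rw [hc.2]; exact hb
  have hT : (Finset.univ : Finset (Quotient (simpleSetoid A))).card ≤
      Fintype.card J * (Finset.univ : Finset (Quotient (simpleSetoid B))).card :=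
    Finset.card_le_mul_card_image_of_maps_to (f := D) (fun _ _ => Finset.mem_univ _) _
      (fun d _ => hfib d)
  unfold lNum
  rw [Nat.card_eq_fintype_card, Nat.card_eq_fintype_card, ← Finset.card_univ, ← Finset.card_univ]
  exact hT

end gen

variable {k : Type*} [Field k]

/-- `l(k_α K) ≤ |K : H| l(k_α H)`. Proof: let `M₁, .., M_N` be pairwise non-isomorphic simple
`k_α K`-modules; each contains a simple `k_α H`-submodule, so some simple `k_α H`-module `Y` occurs
in at least `N / l(k_α H)` of them. If `Y ⊆ M_i` then Frobenius reciprocity gives a non-zero, so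
surjective, map `Ind Y = k_α K ⊗_{k_α H} Y → M_i`; the maximal submodules (kernels) are pairwise
with non-isomorphic quotients, so `Ind Y → ⨁ M_i` is surjective (`exists_iso_of_inf_le` in
`ABasic`, or Chinese remainder), and `∑ dim M_i ≤ dim Ind Y = |K : H| dim Y ≤ |K : H| dim M_i`.
So at most `|K : H|` of them contain `Y`. (Without tensor products: for `y ∈ Y ⊆ M_i` with
annihilator `m` in `k_α H`, `Y = k_α H y`; the left ideal `J = k_α K m` has
`dim (k_α K / J) = |K : H| dim Y`, and `a ↦ a y_i` maps `k_α K / J` onto `M_i`.) -/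
theorem lNum_le_index_mul {E : Type*} [Group E] [Finite E] (α : Cocycle E k) (H K : Subgroup E)
    (h : H ≤ K) :
    lNum (TwAlg (α.comap K.subtype)) ≤ H.relIndex K * lNum (TwAlg (α.comap H.subtype)) := by
  classical
  let i : H →* K := Subgroup.inclusion h
  obtain ⟨f, hf⟩ := exists_map (α.comap K.subtype) i
  have hcoc : (α.comap K.subtype).comap i = α.comap H.subtype := rfl
  let U : Subgroup K := H.subgroupOf K
  let _ : Fintype (K ⧸ U) := Fintype.ofFinite _
  let g : (K ⧸ U) → TwAlg (α.comap K.subtype) := fun q => TwAlg.of _ q.out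
  have hg : ∀ a : TwAlg (α.comap K.subtype),
      ∃ b : (K ⧸ U) → TwAlg ((α.comap K.subtype).comap i), a = ∑ j, g j * f (b j) := by
    intro a
    let P : Submodule k (TwAlg (α.comap K.subtype)) :=
      { carrier := {a | ∃ b : (K ⧸ U) → TwAlg ((α.comap K.subtype).comap i),
          a = ∑ j, g j * f (b j)}
        add_mem' := by
          rintro x y ⟨b, rfl⟩ ⟨b', rfl⟩
          refine ⟨b + b', ?_⟩
          rw [← Finset.sum_add_distrib]
          refine Finset.sum_congr rfl fun j _ => ?_
          rw [Pi.add_apply, map_add, mul_add]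
        zero_mem' := by
          refine ⟨0, ?_⟩
          symm
          apply Finset.sum_eq_zero
          intro j _
          rw [Pi.zero_apply, map_zero, mul_zero]
        smul_mem' := by
          rintro c x ⟨b, rfl⟩
          refine ⟨c • b, ?_⟩
          rw [Finset.smul_sum]
          refine Finset.sum_congr rfl fun j _ => ?_
          rw [Pi.smul_apply, map_smul, mul_smul_comm] }
    have hP : ∀ c : K, TwAlg.of _ c ∈ P := by
      intro c
      let q : K ⧸ U := c
      have hq : (q.out)⁻¹ * c ∈ U := by
        have : (q.out : K ⧸ U) = (c : K ⧸ U) := Quotient.out_eq q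
        exact QuotientGroup.eq.mp this
      have hq' : (((q.out)⁻¹ * c : K) : E) ∈ H := Subgroup.mem_subgroupOf.mp hq
      let t : H := ⟨_, hq'⟩
      have hit : i t = (q.out)⁻¹ * c := rfl
      refine ⟨Pi.single q (((((α.comap K.subtype) q.out (i t))⁻¹ : kˣ) : k) • TwAlg.of _ t), ?_⟩
      rw [Finset.sum_eq_single q]
      · rw [Pi.single_eq_same, map_smul, hf, mul_smul_comm]
        show _ = _ • (TwAlg.of _ q.out * TwAlg.of _ (i t))
        rw [TwAlg.of_mul_of, smul_smul, ← Units.val_mul, inv_mul_cancel, Units.val_one, one_smul,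
          hit, mul_inv_cancel_left]
      · intro j _ hj
        rw [Pi.single_eq_of_ne hj, map_zero, mul_zero]
      · intro hn
        exact absurd (Finset.mem_univ _) hn
    have hlast : ∀ a, a ∈ P := by
      intro a
      have h1 : P.mkQ = 0 := by
        apply TwAlg.lhom_ext
        intro c
        rw [Submodule.mkQ_apply, LinearMap.zero_apply, Submodule.Quotient.mk_eq_zero]
        exact hP c
      have h2 := LinearMap.congr_fun h1 a
      rwa [Submodule.mkQ_apply, LinearMap.zero_apply, Submodule.Quotient.mk_eq_zero] at h2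
    exact hlast a
  have hmain := IndexG_main k f g hg
  have hcard : Fintype.card (K ⧸ U) = H.relIndex K := by
    rw [← Nat.card_eq_fintype_card]
    rfl
  rw [hcard] at hmain
  exact hmain

end MNQ
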