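import Mathlib

/-! MP_0649d4_al, Theorem Q, Lemma 2, linear algebra part. -/

namespace MNQ

open Module

variable {G N : Type*} [Group G] [Fintype G] [NormedAddCommGroup N] [InnerProductSpace ℂ N]
  [FiniteDimensional ℂ N] (ρ : G →* (N →ₗ[ℂ] N))

/-- The mean of `ρ` over the subgroup `R`. -/
noncomputable def avg (R : Subgroup G) : N →ₗ[ℂ] N :=
  (Nat.card R : ℂ)⁻¹ • ∑ᶠ r : R, ρ r

/-- The fixed space of `R`. -/
def fixR (R : Subgroup G) : Submodule ℂ N where
  carrier := {w | ∀ a ∈ R, ρ a w = w}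
  add_mem' := fun {x y} hx hy a ha => by rw [map_add, hx a ha, hy a ha]
  zero_mem' := fun a _ => map_zero _
  smul_mem' := fun c x hx a ha => by rw [map_smul, hx a ha]

theorem OrthA_mul_inv (g : G) : ρ g * ρ g⁻¹ = 1 := by
  rw [← map_mul, mul_inv_cancel, map_one]

theorem OrthA_inv_mul (g : G) : ρ g⁻¹ * ρ g = 1 := by
  rw [← map_mul, inv_mul_cancel, map_one]

/-- the averaged map commutes with the group -/
theorem OrthA_comm (π : N →ₗ[ℂ] N) (h : G) :
    ρ h * (∑ g : G, ρ g * π * ρ g⁻¹) = (∑ g : G, ρ g * π * ρ g⁻¹) * ρ h := by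
  rw [Finset.mul_sum, Finset.sum_mul]
  refine Fintype.sum_equiv (Equiv.mulLeft h) _ _ fun g => ?_
  simp only [Equiv.coe_mulLeft, mul_inv_rev, map_mul]
  rw [mul_assoc (ρ h * ρ g * π), mul_assoc (ρ g⁻¹), OrthA_inv_mul, mul_one]
  simp only [mul_assoc]

/-- Averaging (Schur): for `ρ` irreducible and any `π`,
`d ∑_g tr (π ρ(g) π ρ(g)⁻¹) = |G| (tr π) ^ 2`, `d = dim N`. Proof: `Θ = ∑_g ρ(g) π ρ(g⁻¹)`
commutes with all `ρ(h)`; it has an eigenvalue `c` (`Module.End.exists_eigenvalue`), the eigenspace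
is invariant and non-zero, so everything: `Θ = c`; traces: `c d = |G| tr π`; and
`∑_g tr (π ρ(g) π ρ(g⁻¹)) = tr (π Θ) = c tr π`. -/
theorem sum_trace [Nontrivial N]
    (hirr : ∀ W : Submodule ℂ N, (∀ g, ∀ w ∈ W, ρ g w ∈ W) → W = ⊥ ∨ W = ⊤)
    (π : N →ₗ[ℂ] N) :
    (finrank ℂ N : ℂ) * ∑ g : G, LinearMap.trace ℂ N (π * (ρ g * π * ρ g⁻¹)) =
      Nat.card G * (LinearMap.trace ℂ N π) ^ 2 := by
  set Θ : N →ₗ[ℂ] N := ∑ g : G, ρ g * π * ρ g⁻¹ with hΘ
  obtain ⟨c, hc⟩ := Module.End.exists_eigenvalue (K := ℂ) Θ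
  have hinv : ∀ g, ∀ w ∈ Module.End.eigenspace Θ c, ρ g w ∈ Module.End.eigenspace Θ c := by
    intro g w hw
    rw [Module.End.mem_eigenspace_iff] at hw ⊢
    have h1 := congrArg (fun f : N →ₗ[ℂ] N => f w) (OrthA_comm ρ π g)
    simp only [Module.End.mul_apply] at h1
    rw [← hΘ] at h1
    rw [← h1, hw, map_smul]
  have htop : Module.End.eigenspace Θ c = ⊤ := by
    rcases hirr _ hinv with h | h
    · exact absurd h hc
    · exact h
  have hΘc : Θ = c • (1 : N →ₗ[ℂ] N) := by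
    ext w
    have h1 : w ∈ Module.End.eigenspace Θ c := by rw [htop]; trivial
    rw [Module.End.mem_eigenspace_iff] at h1
    simpa using h1
  have htr : LinearMap.trace ℂ N Θ = c * (finrank ℂ N : ℂ) := by
    rw [hΘc, map_smul, LinearMap.trace_one, smul_eq_mul]
  have htr' : LinearMap.trace ℂ N Θ = Nat.card G * LinearMap.trace ℂ N π := by
    rw [hΘ, map_sum]
    have h1 : ∀ g ∈ (Finset.univ : Finset G), LinearMap.trace ℂ N (ρ g * π * ρ g⁻¹) =
        LinearMap.trace ℂ N π := by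
      intro g _
      rw [LinearMap.trace_mul_comm, ← mul_assoc, OrthA_inv_mul, one_mul]
    rw [Finset.sum_congr rfl h1, Finset.sum_const, Finset.card_univ, nsmul_eq_mul,
      Nat.card_eq_fintype_card]
  have hsum : ∑ g : G, LinearMap.trace ℂ N (π * (ρ g * π * ρ g⁻¹)) =
      c * LinearMap.trace ℂ N π := by
    rw [← map_sum, ← Finset.mul_sum, ← hΘ, hΘc, mul_smul_comm, mul_one, map_smul, smul_eq_mul]
  rw [hsum]
  calc (finrank ℂ N : ℂ) * (c * LinearMap.trace ℂ N π)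
      = (c * (finrank ℂ N : ℂ)) * LinearMap.trace ℂ N π := by ring
    _ = (Nat.card G * LinearMap.trace ℂ N π) * LinearMap.trace ℂ N π := by rw [← htr, htr']
    _ = Nat.card G * (LinearMap.trace ℂ N π) ^ 2 := by ring

theorem OrthA_avg_apply (R : Subgroup G) [Fintype R] (w : N) :
    avg ρ R w = (Nat.card R : ℂ)⁻¹ • ∑ r : R, ρ r w := by
  unfold avg
  rw [finsum_eq_sum_of_fintype]
  simp

theorem OrthA_isProj (R : Subgroup G) : LinearMap.IsProj (fixR ρ R) (avg ρ R) := by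
  classical
  haveI : Fintype R := Fintype.ofFinite R
  constructor
  · intro w a ha
    rw [OrthA_avg_apply, map_smul, map_sum]
    congr 1
    refine Fintype.sum_equiv (Equiv.mulLeft (⟨a, ha⟩ : R)) _ _ fun r => ?_
    simp [map_mul]
  · intro w hw
    rw [OrthA_avg_apply]
    have h1 : ∀ r ∈ (Finset.univ : Finset R), ρ r w = w := fun r _ => hw r r.2
    rw [Finset.sum_congr rfl h1, Finset.sum_const, Finset.card_univ, ← Nat.card_eq_fintype_card,
      ← Nat.cast_smul_eq_nsmul ℂ, smul_smul, inv_mul_cancel₀, one_smul]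
    exact Nat.cast_ne_zero.2 Nat.card_pos.ne'

/-- `avg` is the projection onto the fixed space: `e ^ 2 = e`, range = fixed space, so
`tr (1 - e) = dim N - dim N^R`. -/
theorem trace_one_sub_avg (R : Subgroup G) :
    LinearMap.trace ℂ N (1 - avg ρ R) = (finrank ℂ N : ℂ) - finrank ℂ (fixR ρ R) := by
  rw [map_sub, LinearMap.trace_one, (OrthA_isProj ρ R).trace]

end MNQ
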