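import Mathlib

/-! MP_0649d4_al, Theorem Q: a simple module with a trivial summand on a Sylow subgroup is a direct
summand of the permutation module on the cosets. -/

namespace MNQ

open Module

/-- `V` simple, `R` of index prime to `p`, `(r - 1) V ≤ U` for `r ∈ R`, and a vector `v ∉ U` fixed
by `R`. Then there are an invariant idempotent matrix `ε` on `H ⧸ R` and an equivariant
isomorphism `j` of `V` onto its range. Proof: a linear form `f` with `f U = 0`, `f v = 1`
(`Submodule.exists_le_ker_of_notMem` or `exists_dual_map_eq_bot...`), is `R`-invariant. `j w =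
(g R ↦ f (g⁻¹ w))`, `q (e_{g R}) = g v` are well defined and equivariant; `λ = q ∘ j`,
`λ w = ∑_{g R} f (g⁻¹ w) g v`, commutes with `H` and has trace `∑_{gR} f (v) = |H : R| ≠ 0`, so
`λ ≠ 0`, so `λ` is bijective (kernel and range are invariant), and `λ⁻¹` commutes with `H`. Take
`ε` = the matrix of `j ∘ λ⁻¹ ∘ q`. -/
theorem exists_eps (p : ℕ) [Fact p.Prime] {H V : Type*} [Group H] [Finite H] [AddCommGroup V]
    [Module (ZMod p) V] [Finite V] (ρ : H →* (V →ₗ[ZMod p] V))
    (hirr : ∀ W : Submodule (ZMod p) V, (∀ h, ∀ w ∈ W, ρ h w ∈ W) → W = ⊥ ∨ W = ⊤)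
    (R : Subgroup H) (hR : ¬ p ∣ R.index) (U : Submodule (ZMod p) V)
    (hU : ∀ r ∈ R, ∀ v, ρ r v - v ∈ U) (v : V) (hv : ∀ r ∈ R, ρ r v = v) (hvU : v ∉ U)
    [Fintype (H ⧸ R)] [DecidableEq (H ⧸ R)] :
    ∃ (ε : Matrix (H ⧸ R) (H ⧸ R) (ZMod p)) (j : V →ₗ[ZMod p] (H ⧸ R → ZMod p)),
      ε * ε = ε ∧ (∀ (h : H) i i', ε (h • i) (h • i') = ε i i') ∧ Function.Injective j ∧
      LinearMap.range j = LinearMap.range ε.mulVecLin ∧
      ∀ (h : H) w i, j (ρ h w) i = j w (h⁻¹ • i) := by
  classical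
  have : Module.Finite (ZMod p) V := Module.Finite.of_finite
  -- the linear form
  obtain ⟨f0, hf0v, hf0U⟩ := Submodule.exists_le_ker_of_notMem hvU
  obtain ⟨f, hfv, hfU⟩ : ∃ f : V →ₗ[ZMod p] ZMod p, f v = 1 ∧ ∀ u ∈ U, f u = 0 := by
    refine ⟨(f0 v)⁻¹ • f0, ?_, ?_⟩
    · rw [LinearMap.smul_apply, smul_eq_mul, inv_mul_cancel₀ hf0v]
    · intro u hu
      rw [LinearMap.smul_apply, LinearMap.mem_ker.mp (hf0U hu), smul_zero]
  have hfR : ∀ r ∈ R, ∀ w, f (ρ r w) = f w := by
    intro r hr w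
    have h1 := hfU _ (hU r hr w)
    rw [map_sub, sub_eq_zero] at h1
    exact h1
  have hρm : ∀ (g h : H) (w : V), ρ (g * h) w = ρ g (ρ h w) := by
    intro g h w
    rw [map_mul]; rfl
  have hρ1 : ∀ (w : V), ρ 1 w = w := by
    intro w
    rw [map_one]; rfl
  have hρi : ∀ (g : H) (w : V), ρ g⁻¹ (ρ g w) = w := by
    intro g w
    rw [← hρm, inv_mul_cancel, hρ1]
  have hρi' : ∀ (g : H) (w : V), ρ g (ρ g⁻¹ w) = w := by
    intro g w
    rw [← hρm, mul_inv_cancel, hρ1]
  -- the families `F` and `a`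
  let F : H ⧸ R → (V →ₗ[ZMod p] ZMod p) := fun i => f.comp (ρ (Quotient.out i)⁻¹)
  let a : H ⧸ R → V := fun i => ρ (Quotient.out i) v
  have hout : ∀ (h : H) (i : H ⧸ R), ∃ r ∈ R, Quotient.out (h • i) = h * Quotient.out i * r := by
    intro h i
    refine ⟨(h * Quotient.out i)⁻¹ * Quotient.out (h • i), ?_, by group⟩
    rw [← QuotientGroup.eq, QuotientGroup.out_eq']
    have h2 : ((h * Quotient.out i : H) : H ⧸ R) = h • ((Quotient.out i : H) : H ⧸ R) := rfl
    rw [h2, QuotientGroup.out_eq']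
  have hF : ∀ (h : H) (i : H ⧸ R) (w : V), F (h • i) w = F i (ρ h⁻¹ w) := by
    intro h i w
    obtain ⟨r, hr, hr2⟩ := hout h i
    change f (ρ (Quotient.out (h • i))⁻¹ w) = f (ρ (Quotient.out i)⁻¹ (ρ h⁻¹ w))
    rw [hr2]
    have h3 : (h * Quotient.out i * r)⁻¹ = r⁻¹ * ((Quotient.out i)⁻¹ * h⁻¹) := by group
    rw [h3, hρm, hfR _ (R.inv_mem hr), hρm]
  have ha : ∀ (h : H) (i : H ⧸ R), a (h • i) = ρ h (a i) := by
    intro h i
    obtain ⟨r, hr, hr2⟩ := hout h i
    change ρ (Quotient.out (h • i)) v = ρ h (ρ (Quotient.out i) v)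
    rw [hr2, hρm, hv r hr, hρm]
  have hFa : ∀ i, F i (a i) = 1 := by
    intro i
    change f (ρ (Quotient.out i)⁻¹ (ρ (Quotient.out i) v)) = 1
    rw [hρi, hfv]
  let j : V →ₗ[ZMod p] (H ⧸ R → ZMod p) := LinearMap.pi F
  have hj : ∀ w i, j w i = F i w := fun w i => rfl
  let q : (H ⧸ R → ZMod p) →ₗ[ZMod p] V := Fintype.linearCombination (ZMod p) a
  have hq : ∀ x, q x = ∑ i, x i • a i := fun x => Fintype.linearCombination_apply _ _ _
  let lam : V →ₗ[ZMod p] V := q.comp j
  have hlam : ∀ w, lam w = ∑ i, F i w • a i := by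
    intro w
    change q (j w) = _
    rw [hq]
    rfl
  have hlamH : ∀ (h : H) w, lam (ρ h w) = ρ h (lam w) := by
    intro h w
    rw [hlam, hlam, map_sum]
    rw [← Equiv.sum_comp (MulAction.toPerm h) (fun i => F i (ρ h w) • a i)]
    refine Finset.sum_congr rfl fun i _ => ?_
    change F (h • i) (ρ h w) • a (h • i) = _
    rw [hF, hρi, ha, map_smul]
  have htr : LinearMap.trace (ZMod p) V lam = (R.index : ZMod p) := by
    have h1 : lam = ∑ i, (F i).smulRight (a i) := by
      ext w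
      rw [hlam, LinearMap.sum_apply]
      rfl
    rw [h1, map_sum]
    simp only [LinearMap.trace_smulRight, hFa]
    rw [Finset.sum_const, Finset.card_univ, Subgroup.index_eq_card, Nat.card_eq_fintype_card]
    simp
  have hlam0 : lam ≠ 0 := by
    intro h0
    rw [h0, map_zero] at htr
    exact hR ((ZMod.natCast_eq_zero_iff _ _).mp htr.symm)
  have hker : LinearMap.ker lam = ⊥ := by
    rcases hirr (LinearMap.ker lam) (by
      intro h w hw
      rw [LinearMap.mem_ker] at hw ⊢
      rw [hlamH, hw, map_zero]) with h1 | h1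
    · exact h1
    · exact absurd (LinearMap.ker_eq_top.mp h1) hlam0
  have hinj : Function.Injective lam := LinearMap.ker_eq_bot.mp hker
  let e : V ≃ₗ[ZMod p] V := LinearEquiv.ofInjectiveEndo lam hinj
  have he : ∀ w, e w = lam w := fun w => rfl
  have hsH : ∀ (h : H) w, e.symm (ρ h w) = ρ h (e.symm w) := by
    intro h w
    apply e.injective
    rw [LinearEquiv.apply_symm_apply, he, hlamH, ← he, LinearEquiv.apply_symm_apply]
  have hjinj : Function.Injective j := by
    intro x y hxy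
    apply hinj
    change q (j x) = q (j y)
    rw [hxy]
  have hqsurj : Function.Surjective q := by
    intro w
    refine ⟨j (e.symm w), ?_⟩
    have h1 : e (e.symm w) = w := e.apply_symm_apply w
    exact h1
  -- the matrix
  let T : (H ⧸ R → ZMod p) →ₗ[ZMod p] (H ⧸ R → ZMod p) := j.comp (e.symm.toLinearMap.comp q)
  have hTT : T.comp T = T := by
    apply LinearMap.ext
    intro x
    change j (e.symm (q (j (e.symm (q x))))) = j (e.symm (q x))
    have h1 : q (j (e.symm (q x))) = e (e.symm (q x)) := rfl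
    rw [h1, LinearEquiv.apply_symm_apply]
  have hε : ∀ i i', LinearMap.toMatrix' T i i' = F i (e.symm (a i')) := by
    intro i i'
    rw [LinearMap.toMatrix'_apply]
    change F i (e.symm (q _)) = _
    congr 2
    rw [hq]
    rw [Finset.sum_eq_single i']
    · simp
    · intro k _ hk
      simp [hk]
    · intro hk
      exact absurd (Finset.mem_univ _) hk
  refine ⟨LinearMap.toMatrix' T, j, ?_, ?_, hjinj, ?_, ?_⟩
  · rw [← LinearMap.toMatrix'_comp, hTT]
  · intro h i i'
    rw [hε, hε, ha, hsH, hF, hρi]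
  · have h1 : (LinearMap.toMatrix' T).mulVecLin = T := by
      rw [← Matrix.toLin'_apply', Matrix.toLin'_toMatrix']
    rw [h1]
    change LinearMap.range j = LinearMap.range (j.comp (e.symm.toLinearMap.comp q))
    rw [LinearMap.range_comp_of_range_eq_top]
    rw [LinearMap.range_eq_top]
    exact e.symm.surjective.comp hqsurj
  · intro h w i
    rw [hj, hj, hF, inv_inv]

end MNQ
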