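import Pool.Agent.W_0649q_h65.RankP
import Pool.Agent.W_0649q_h65.Embed
import Pool.Agent.W_0649q_h65.Idem
import Pool.Agent.W_0649q_h65.Summand
import Pool.Agent.W_0649q_h65.OrthA

/-! MP_0649d4_al, Theorem Q: the lift of `V` to characteristic zero. -/

namespace MNQ

open Module

/-- The permutation representation on `ℂ ^ Ω` (with its inner product). -/
noncomputable def permRep {Ω H : Type*} [Fintype Ω] [Group H] [MulAction H Ω] :
    H →* (EuclideanSpace ℂ Ω →ₗ[ℂ] EuclideanSpace ℂ Ω) where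
  toFun h :=
    { toFun := fun w => WithLp.toLp 2 (fun i => w (h⁻¹ • i))
      map_add' := fun x y => by ext i; simp
      map_smul' := fun c x => by ext i; simp }
  map_one' := by ext w i; simp
  map_mul' g h := by ext w i; simp [mul_smul]

theorem norm_permRep {Ω H : Type*} [Fintype Ω] [Group H] [MulAction H Ω] (h : H)
    (w : EuclideanSpace ℂ Ω) : ‖permRep (Ω := Ω) h w‖ = ‖w‖ := by
  rw [EuclideanSpace.norm_eq, EuclideanSpace.norm_eq]
  congr 1
  exact Equiv.sum_comp (MulAction.toPerm h⁻¹ : Equiv.Perm Ω) (fun i => ‖w i‖ ^ 2)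

/-- The fixed points of `P` in `V`. -/
def fixV {p : ℕ} {H V : Type*} [Group H] [AddCommGroup V] [Module (ZMod p) V]
    (ρ : H →* (V →ₗ[ZMod p] V)) (P : Subgroup H) : Submodule (ZMod p) V where
  carrier := {w | ∀ a ∈ P, ρ a w = w}
  add_mem' := fun {x y} hx hy a ha => by rw [map_add, hx a ha, hy a ha]
  zero_mem' := fun a _ => map_zero _
  smul_mem' := fun c x hx a ha => by rw [map_smul, hx a ha]

theorem LiftC_permRep_apply {Ω H : Type*} [Fintype Ω] [Group H] [MulAction H Ω] (h : H)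
    (w : EuclideanSpace ℂ Ω) (i : Ω) : permRep (Ω := Ω) h w i = w (h⁻¹ • i) := rfl

/-- Range of an idempotent matrix. -/
theorem LiftC_mem_range {K Ω : Type*} [Field K] [Fintype Ω] [DecidableEq Ω] (A : Matrix Ω Ω K)
    (hA : A * A = A) (w : Ω → K) : w ∈ LinearMap.range A.mulVecLin ↔ A.mulVec w = w := by
  constructor
  · rintro ⟨u, rfl⟩
    rw [Matrix.mulVecLin_apply, Matrix.mulVec_mulVec, hA]
  · intro h
    exact ⟨w, by rw [Matrix.mulVecLin_apply, h]⟩

/-- Ranks of an idempotent matrix and of its complement. -/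
theorem LiftC_rank_add {K Ω : Type*} [Field K] [Fintype Ω] [DecidableEq Ω] (A : Matrix Ω Ω K)
    (hA : A * A = A) : A.rank + (1 - A).rank = Fintype.card Ω := by
  have h1 := LinearMap.finrank_range_add_finrank_ker A.mulVecLin
  have hk : LinearMap.ker A.mulVecLin = LinearMap.range (1 - A).mulVecLin := by
    ext w
    have hB : (1 - A) * (1 - A) = 1 - A := by
      rw [sub_mul, mul_sub, mul_sub, hA]; simp
    rw [LiftC_mem_range _ hB, LinearMap.mem_ker, Matrix.mulVecLin_apply, Matrix.sub_mulVec,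
      Matrix.one_mulVec, sub_eq_self]
  rw [hk, Module.finrank_fintype_fun_eq_card] at h1
  exact h1

/-- The stacked matrix whose kernel is the `P`-fixed part of the range of an idempotent `A`. -/
noncomputable def LiftC_stack {K Ω H : Type*} [CommRing K] [DecidableEq Ω] [Group H]
    [MulAction H Ω] (P : Subgroup H) (A : Matrix Ω Ω K) : Matrix (Ω ⊕ P × Ω) Ω K :=
  Matrix.of fun x k => match x with
    | Sum.inl i => (1 - A) i k
    | Sum.inr (a, i) => (if k = (a : H)⁻¹ • i then 1 else 0) - (if k = i then 1 else 0)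

theorem LiftC_stack_map {K L Ω H : Type*} [CommRing K] [CommRing L] [DecidableEq Ω]
    [Group H] [MulAction H Ω] (P : Subgroup H) (A : Matrix Ω Ω K) (f : K →+* L) :
    (LiftC_stack P A).map f = LiftC_stack P (A.map f) := by
  ext x k
  rcases x with i | ⟨a, i⟩
  · simp only [LiftC_stack, Matrix.map_apply, Matrix.of_apply, Matrix.sub_apply, map_sub,
      Matrix.one_apply]
    split_ifs <;> simp
  · simp only [LiftC_stack, Matrix.map_apply, Matrix.of_apply, map_sub]
    split_ifs <;> simp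

theorem LiftC_stack_ker {K Ω H : Type*} [Field K] [Fintype Ω] [DecidableEq Ω] [Group H]
    [MulAction H Ω] (P : Subgroup H) [Fintype P] (A : Matrix Ω Ω K) (w : Ω → K) :
    w ∈ LinearMap.ker (LiftC_stack P A).mulVecLin ↔
      A.mulVec w = w ∧ ∀ a ∈ P, ∀ i, w (a⁻¹ • i) = w i := by
  rw [LinearMap.mem_ker, Matrix.mulVecLin_apply, funext_iff]
  have h1 : ∀ i, (LiftC_stack P A).mulVec w (Sum.inl i) = w i - A.mulVec w i := by
    intro i
    have : (LiftC_stack P A).mulVec w (Sum.inl i) = (1 - A).mulVec w i := rfl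
    rw [this, Matrix.sub_mulVec, Matrix.one_mulVec, Pi.sub_apply]
  have h2 : ∀ (a : P) i, (LiftC_stack P A).mulVec w (Sum.inr (a, i)) =
      w ((a : H)⁻¹ • i) - w i := by
    intro a i
    have : (LiftC_stack P A).mulVec w (Sum.inr (a, i)) =
        ∑ k, ((if k = (a : H)⁻¹ • i then (1 : K) else 0) - (if k = i then 1 else 0)) * w k := rfl
    rw [this]
    simp only [sub_mul, ite_mul, one_mul, zero_mul, Finset.sum_sub_distrib,
      Finset.sum_ite_eq', Finset.mem_univ, if_true]
  constructor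
  · intro h
    refine ⟨?_, fun a ha i => ?_⟩
    · funext i
      have := h (Sum.inl i)
      rw [h1, Pi.zero_apply, sub_eq_zero] at this
      exact this.symm
    · have := h (Sum.inr (⟨a, ha⟩, i))
      rw [h2, Pi.zero_apply, sub_eq_zero] at this
      exact this
  · rintro ⟨ha, hb⟩ x
    rcases x with i | ⟨a, i⟩
    · rw [h1, ha, sub_self, Pi.zero_apply]
    · rw [h2, hb a a.2, sub_self, Pi.zero_apply]

/-- `0/1` matrix of the orbits of `R`. -/
noncomputable def LiftC_B (K : Type*) {Ω H : Type*} [CommRing K] [Group H] [MulAction H Ω]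
    (R : Subgroup H) : Matrix Ω Ω K :=
  open Classical in Matrix.of fun i j => if ∃ r ∈ R, r • i = j then 1 else 0

theorem LiftC_B_map {K L Ω H : Type*} [CommRing K] [CommRing L] [Group H]
    [MulAction H Ω] (R : Subgroup H) (f : K →+* L) :
    (LiftC_B K (Ω := Ω) R).map f = LiftC_B L R := by
  ext i j
  simp only [LiftC_B, Matrix.map_apply, Matrix.of_apply]
  split_ifs <;> simp

theorem LiftC_B_inv {K Ω H : Type*} [CommRing K] [Group H] [MulAction H Ω] (R : Subgroup H)
    {r : H} (hr : r ∈ R) (i j : Ω) : LiftC_B K R (r • i) j = LiftC_B K R i j := by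
  simp only [LiftC_B, Matrix.of_apply]
  congr 1
  apply propext
  constructor
  · rintro ⟨s, hs, h⟩
    exact ⟨s * r, R.mul_mem hs hr, by rw [mul_smul, h]⟩
  · rintro ⟨s, hs, h⟩
    exact ⟨s * r⁻¹, R.mul_mem hs (R.inv_mem hr), by rw [mul_smul, inv_smul_smul, h]⟩

/-- Every function constant on the orbits is in the range of `B`. -/
theorem LiftC_B_range {K Ω H : Type*} [CommRing K] [Fintype Ω] [Group H]
    [MulAction H Ω] (R : Subgroup H) (w : Ω → K) (hw : ∀ r ∈ R, ∀ i, w (r • i) = w i) :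
    ∃ c : Ω → K, (LiftC_B K R).mulVec c = w := by
  classical
  let rep : Ω → Ω := fun i => (Quotient.out (Quotient.mk (MulAction.orbitRel R Ω) i))
  have hrep1 : ∀ i, ∃ r ∈ R, r • i = rep i := by
    intro i
    have h : (MulAction.orbitRel R Ω).r (rep i) i :=
      Quotient.exact (Quotient.out_eq (Quotient.mk (MulAction.orbitRel R Ω) i))
    obtain ⟨r, hr⟩ := (MulAction.orbitRel_apply.mp h : rep i ∈ MulAction.orbit R i)
    exact ⟨r, r.2, hr⟩
  have hrep2 : ∀ i, ∀ r ∈ R, rep (r • i) = rep i := by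
    intro i r hr
    have : (Quotient.mk (MulAction.orbitRel R Ω) (r • i)) =
        (Quotient.mk (MulAction.orbitRel R Ω) i) := by
      apply Quotient.sound
      exact MulAction.orbitRel_apply.mpr ⟨⟨r, hr⟩, rfl⟩
    show Quotient.out (Quotient.mk (MulAction.orbitRel R Ω) (r • i)) = _
    rw [this]
  refine ⟨fun k => if rep k = k then w k else 0, ?_⟩
  funext i
  show ∑ k, LiftC_B K R i k * (if rep k = k then w k else 0) = w i
  rw [Finset.sum_eq_single (rep i)]
  · obtain ⟨r, hr, h⟩ := hrep1 i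
    have h3 : rep (rep i) = rep i := by
      rw [← h]; rw [hrep2 i r hr]; exact h.symm
    rw [if_pos h3]
    have h4 : LiftC_B K R i (rep i) = 1 := by
      simp only [LiftC_B, Matrix.of_apply]
      rw [if_pos ⟨r, hr, h⟩]
    rw [h4, one_mul, ← h, hw r hr]
  · intro k _ hk
    by_cases h1 : ∃ r ∈ R, r • i = k
    · obtain ⟨r, hr, h⟩ := h1
      have : rep k = rep i := by rw [← h, hrep2 i r hr]
      rw [if_neg (by rw [this]; exact fun h => hk h.symm), mul_zero]
    · have h4 : LiftC_B K R i k = 0 := by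
        simp only [LiftC_B, Matrix.of_apply]
        rw [if_neg h1]
      rw [h4, zero_mul]
  · intro h; exact absurd (Finset.mem_univ _) h

/-- An invariant matrix commutes with the action. -/
theorem LiftC_mulVec_inv {K Ω H : Type*} [CommRing K] [Fintype Ω] [Group H]
    [MulAction H Ω] (A : Matrix Ω Ω K) (hA : ∀ (h : H) i j, A (h • i) (h • j) = A i j)
    (h : H) (w : Ω → K) (i : Ω) :
    A.mulVec (fun k => w (h⁻¹ • k)) i = A.mulVec w (h⁻¹ • i) := by
  show ∑ k, A i k * w (h⁻¹ • k) = ∑ k, A (h⁻¹ • i) k * w k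
  rw [← Equiv.sum_comp (MulAction.toPerm h⁻¹ : Equiv.Perm Ω) (fun k => A (h⁻¹ • i) k * w k)]
  apply Finset.sum_congr rfl
  intro k _
  show A i k * w (h⁻¹ • k) = A (h⁻¹ • i) (h⁻¹ • k) * w (h⁻¹ • k)
  rw [hA]

/-- The lift of `V`: an invariant subspace `M` of `ℂ ^ (H ⧸ R)` with `dim M = dim V`,
`dim M^P ≤ dim V^P` for every subgroup `P`, and `dim V^R ≤ dim M^R`. Proof: `ε`, `j` from
`exists_eps`, `E` from `exists_idem_lift`, `σ` from `exists_embedding`, `M` = range of `σ(E)`.
`rank ε = dim V`; `rank_mod_le` for `E` and `1 - E` (ranks of an idempotent and of its complement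
add up to the size) gives `dim M = dim V`. For `P`: the stacked matrix with row index
`Ω ⊕ P × Ω` and entries of `1 - E` and of `perm a - 1` (`a ∈ P`) has kernel `M^P` over `ℂ` and
`(range ε)^P ≅ V^P` modulo `p`; `rank_mod_le`. For `R`: let `B` be the `Ω × Ω` matrix
`B i j = if j ∈ R-orbit of i then 1 else 0` (`0/1` over any ring). The columns of `σ(E) B` are
`R`-invariant and in `M`, so `rank (σ(E) B) ≤ dim M^R`; modulo `p` every `R`-invariant `w` in the
range of `ε` is `ε w` with `w` in the span of the columns of `B` (it is constant on `R`-orbits), so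
`dim V^R ≤ rank (ε B)`; `rank_mod_le` for `E B`. -/
theorem exists_complex (p : ℕ) [Fact p.Prime] {H V : Type*} [Group H] [Finite H] [AddCommGroup V]
    [Module (ZMod p) V] [Finite V] (ρ : H →* (V →ₗ[ZMod p] V))
    (hirr : ∀ W : Submodule (ZMod p) V, (∀ h, ∀ w ∈ W, ρ h w ∈ W) → W = ⊥ ∨ W = ⊤)
    (R : Subgroup H) (hR : ¬ p ∣ R.index) (U : Submodule (ZMod p) V)
    (hU : ∀ r ∈ R, ∀ v, ρ r v - v ∈ U) (v : V) (hv : ∀ r ∈ R, ρ r v = v) (hvU : v ∉ U)
    [Fintype (H ⧸ R)] :
    ∃ M : Submodule ℂ (EuclideanSpace ℂ (H ⧸ R)),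
      (∀ h : H, ∀ w ∈ M, permRep h w ∈ M) ∧ finrank ℂ M = finrank (ZMod p) V ∧
      (∀ P : Subgroup H, finrank ℂ (M ⊓ (⨅ a ∈ P, LinearMap.ker (permRep (Ω := H ⧸ R) a - 1)) :
        Submodule ℂ (EuclideanSpace ℂ (H ⧸ R))) ≤ finrank (ZMod p) (fixV ρ P)) ∧
      finrank (ZMod p) (fixV ρ R) ≤
        finrank ℂ (M ⊓ (⨅ a ∈ R, LinearMap.ker (permRep (Ω := H ⧸ R) a - 1)) :
          Submodule ℂ (EuclideanSpace ℂ (H ⧸ R))) := by
  classical
  obtain ⟨ε, j, hε, hinv, hj, hrange, heq⟩ := exists_eps p ρ hirr R hR U hU v hv hvU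
  obtain ⟨E, hE, hEinv, hEε⟩ := exists_idem_lift p ε hε hinv
  obtain ⟨σ, hσ⟩ := exists_embedding p
  set A : Matrix (H ⧸ R) (H ⧸ R) ℂ := E.map σ with hAdef
  have hA : A * A = A := by
    rw [hAdef, ← Matrix.map_mul, hE]
  have hAinv : ∀ (h : H) i i', A (h • i) (h • i') = A i i' := by
    intro h i i'
    rw [hAdef, Matrix.map_apply, Matrix.map_apply, hEinv]
  let e : EuclideanSpace ℂ (H ⧸ R) ≃ₗ[ℂ] ((H ⧸ R) → ℂ) := WithLp.linearEquiv 2 ℂ ((H ⧸ R) → ℂ)
  let M : Submodule ℂ (EuclideanSpace ℂ (H ⧸ R)) := (LinearMap.range A.mulVecLin).comap e.toLinearMap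
  have hM : ∀ w : EuclideanSpace ℂ (H ⧸ R), w ∈ M ↔ A.mulVec (e w) = e w := by
    intro w
    show e w ∈ LinearMap.range A.mulVecLin ↔ _
    exact LiftC_mem_range A hA (e w)
  have hfix : ∀ (P : Subgroup H) (w : EuclideanSpace ℂ (H ⧸ R)),
      w ∈ (M ⊓ (⨅ a ∈ P, LinearMap.ker (permRep (Ω := H ⧸ R) a - 1)) :
        Submodule ℂ (EuclideanSpace ℂ (H ⧸ R))) ↔
      (A.mulVec (e w) = e w ∧ ∀ a ∈ P, ∀ i, e w (a⁻¹ • i) = e w i) := by
    intro P w
    rw [Submodule.mem_inf, hM]
    simp only [Submodule.mem_iInf, LinearMap.mem_ker, LinearMap.sub_apply, Module.End.one_apply,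
      sub_eq_zero]
    constructor
    · rintro ⟨h1, h2⟩
      refine ⟨h1, fun a ha i => ?_⟩
      have := congrArg (fun x : EuclideanSpace ℂ (H ⧸ R) => x i) (h2 a ha)
      exact this
    · rintro ⟨h1, h2⟩
      refine ⟨h1, fun a ha => ?_⟩
      ext i
      exact h2 a ha i
  have hfinM : ∀ S : Submodule ℂ ((H ⧸ R) → ℂ), finrank ℂ (S.comap e.toLinearMap) = finrank ℂ S := by
    intro S
    have : S.comap e.toLinearMap = S.map (e.symm : ((H ⧸ R) → ℂ) →ₗ[ℂ] EuclideanSpace ℂ (H ⧸ R)) := by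
      rw [Submodule.map_equiv_eq_comap_symm]; rfl
    rw [this]
    exact LinearEquiv.finrank_map_eq e.symm S
  have hrankA : A.rank = finrank (ZMod p) V := by
    have h1 : ε.rank = finrank (ZMod p) V := by
      show finrank (ZMod p) (LinearMap.range ε.mulVecLin) = _
      rw [← hrange, LinearMap.finrank_range_of_inj hj]
    have h2 : ε.rank ≤ A.rank := by
      rw [← hEε]; exact rank_mod_le E σ hσ
    have h3 : (1 - ε).rank ≤ (1 - A).rank := by
      have := rank_mod_le (1 - E) σ hσ
      have h4 : (1 - E).map (PadicInt.toZMod (p := p)) = 1 - ε := by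
        rw [← hEε]
        ext i k
        simp only [Matrix.map_apply, Matrix.sub_apply, map_sub, Matrix.one_apply]
        split_ifs <;> simp
      have h5 : (1 - E).map σ = 1 - A := by
        rw [hAdef]
        ext i k
        simp only [Matrix.map_apply, Matrix.sub_apply, map_sub, Matrix.one_apply]
        split_ifs <;> simp
      rwa [h4, h5] at this
    have h6 := LiftC_rank_add ε hε
    have h7 := LiftC_rank_add A hA
    omega
  refine ⟨M, ?_, ?_, ?_, ?_⟩
  · intro h w hw
    rw [hM] at hw ⊢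
    funext i
    have : A.mulVec (e (permRep h w)) i = A.mulVec (fun k => e w (h⁻¹ • k)) i := rfl
    rw [this, LiftC_mulVec_inv A hAinv, hw]
    rfl
  · rw [← hrankA]
    exact hfinM _
  · intro P
    have : Fintype P := Fintype.ofFinite P
    have hK : (M ⊓ (⨅ a ∈ P, LinearMap.ker (permRep (Ω := H ⧸ R) a - 1)) :
        Submodule ℂ (EuclideanSpace ℂ (H ⧸ R))) =
        (LinearMap.ker (LiftC_stack P A).mulVecLin).comap e.toLinearMap := by
      ext w
      rw [hfix P w]
      show _ ↔ e w ∈ LinearMap.ker (LiftC_stack P A).mulVecLin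
      rw [LiftC_stack_ker]
    rw [hK, hfinM]
    have h1 := LinearMap.finrank_range_add_finrank_ker (LiftC_stack P A).mulVecLin
    have h2 := LinearMap.finrank_range_add_finrank_ker (LiftC_stack P ε).mulVecLin
    have h3 : (LiftC_stack P ε).rank ≤ (LiftC_stack P A).rank := by
      have := rank_mod_le (LiftC_stack P E) σ hσ
      rwa [LiftC_stack_map, LiftC_stack_map, hEε] at this
    have h4 : finrank (ZMod p) (LinearMap.range (LiftC_stack P ε).mulVecLin) ≤
        finrank ℂ (LinearMap.range (LiftC_stack P A).mulVecLin) := h3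
    rw [Module.finrank_fintype_fun_eq_card] at h1 h2
    have h5 : finrank (ZMod p) (LinearMap.ker (LiftC_stack P ε).mulVecLin) ≤
        finrank (ZMod p) (fixV ρ P) := by
      have hle : LinearMap.ker (LiftC_stack P ε).mulVecLin ≤ (fixV ρ P).map j := by
        intro w hw
        rw [LiftC_stack_ker] at hw
        obtain ⟨hw1, hw2⟩ := hw
        have : w ∈ LinearMap.range j := by
          rw [hrange, LiftC_mem_range ε hε]; exact hw1
        obtain ⟨u, rfl⟩ := this
        refine ⟨u, ?_, rfl⟩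
        intro a ha
        apply hj
        funext i
        rw [heq, hw2 a ha]
      exact (Submodule.finrank_mono hle).trans (Submodule.finrank_map_le j _)
    omega
  · have hB1 : ((E * LiftC_B ℤ_[p] R).map (PadicInt.toZMod (p := p))).rank ≤
        ((E * LiftC_B ℤ_[p] R).map σ).rank := rank_mod_le _ σ hσ
    rw [Matrix.map_mul, Matrix.map_mul, hEε, LiftC_B_map, LiftC_B_map] at hB1
    have h1 : finrank (ZMod p) (fixV ρ R) ≤ (ε * LiftC_B (ZMod p) R).rank := by
      have hle : (fixV ρ R).map j ≤ LinearMap.range (ε * LiftC_B (ZMod p) R).mulVecLin := by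
        rintro w ⟨u, hu, rfl⟩
        obtain ⟨c, hc⟩ := LiftC_B_range (K := ZMod p) R (j u) (by
          intro r hr i
          have h2 := heq r⁻¹ u i
          have h3 : ρ r⁻¹ u = u := hu r⁻¹ (R.inv_mem hr)
          rw [h3, inv_inv] at h2
          exact h2.symm)
        refine ⟨c, ?_⟩
        rw [Matrix.mulVecLin_apply, ← Matrix.mulVec_mulVec, hc]
        exact (LiftC_mem_range ε hε _).mp (by rw [← hrange]; exact ⟨u, rfl⟩)
      have h4 : finrank (ZMod p) (fixV ρ R) = finrank (ZMod p) ((fixV ρ R).map j) :=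
        (LinearEquiv.finrank_eq (Submodule.equivMapOfInjective j hj (fixV ρ R)))
      rw [h4]
      exact Submodule.finrank_mono hle
    have h2 : (A * LiftC_B ℂ R).rank ≤
        finrank ℂ (M ⊓ (⨅ a ∈ R, LinearMap.ker (permRep (Ω := H ⧸ R) a - 1)) :
          Submodule ℂ (EuclideanSpace ℂ (H ⧸ R))) := by
      have hr : (A * LiftC_B ℂ R).rank =
          finrank ℂ (LinearMap.range ((A * LiftC_B ℂ R).mulVecLin)) := rfl
      refine le_trans (le_of_eq (hr.trans (hfinM _).symm)) (Submodule.finrank_mono ?_)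
      intro w hw
      rw [hfix R w]
      have hw' : e w ∈ LinearMap.range ((A * LiftC_B ℂ R).mulVecLin) := hw
      obtain ⟨c, hc⟩ := hw'
      rw [Matrix.mulVecLin_apply, ← Matrix.mulVec_mulVec] at hc
      refine ⟨?_, ?_⟩
      · rw [← hc, Matrix.mulVec_mulVec, hA]
      · intro a ha i
        rw [← hc, ← LiftC_mulVec_inv A hAinv]
        congr 1
        funext k
        show ∑ l, LiftC_B ℂ R (a⁻¹ • k) l * c l = ∑ l, LiftC_B ℂ R k l * c l
        apply Finset.sum_congr rfl
        intro l _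
        rw [LiftC_B_inv R (R.inv_mem ha)]
    exact h1.trans (hB1.trans h2)

end MNQ
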