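import Mathlib

namespace MNQ

open Module

theorem LinA_count {G : Type*} [Group G] [Finite G] (B A : Subgroup G) {T : Type*} [Finite T]
    (f : G → T) (h : ∀ x ∈ B, ∀ y ∈ B, f x = f y → x⁻¹ * y ∈ A) :
    Nat.card B ≤ Nat.card T * Nat.card A := by
  classical
  have hr : ∀ x : B, ∃ y ∈ B, f y = f x := fun x => ⟨x, x.2, rfl⟩
  let r : T → G := fun t => if ht : ∃ y ∈ B, f y = t then ht.choose else 1
  have hrB : ∀ x : B, r (f x) ∈ B ∧ f (r (f x)) = f x := by
    intro x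
    have ht : ∃ y ∈ B, f y = f x := hr x
    have : r (f x) = ht.choose := by simp only [r]; rw [dif_pos ht]
    rw [this]
    exact ht.choose_spec
  let φ : B → T × A := fun x => (f x, ⟨(r (f x))⁻¹ * x, h _ (hrB x).1 _ x.2 (hrB x).2⟩)
  have hφ : Function.Injective φ := by
    intro x y hxy
    have h1 : f x = f y := congrArg Prod.fst hxy
    have h2 : (r (f x))⁻¹ * (x : G) = (r (f y))⁻¹ * y :=
      congrArg (fun z : T × A => (z.2 : G)) hxy
    rw [h1] at h2
    exact Subtype.ext (mul_left_cancel h2)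
  calc Nat.card B ≤ Nat.card (T × A) := Nat.card_le_card_of_injective φ hφ
    _ = Nat.card T * Nat.card A := Nat.card_prod _ _

section

variable {p : ℕ} [Fact p.Prime] {H V : Type*} [Group H] [Finite H] [AddCommGroup V]
    [Module (ZMod p) V] [Finite V] (ρ : H →* (V →ₗ[ZMod p] V))

/-- the elements which act trivially on `W` -/
def LinA_fix (W : Submodule (ZMod p) V) : Subgroup H where
  carrier := {h | ∀ w ∈ W, ρ h w = w}
  mul_mem' := by
    intro a b ha hb w hw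
    rw [map_mul, Module.End.mul_apply, hb w hw, ha w hw]
  one_mem' := by intro w _; simp
  inv_mem' := by
    intro a ha w hw
    have h1 : ρ a⁻¹ (ρ a w) = w := by
      rw [← Module.End.mul_apply, ← map_mul, inv_mul_cancel, map_one, Module.End.one_apply]
    rw [ha w hw] at h1
    exact h1

theorem LinA_hom {W U' : Submodule (ZMod p) V} {s : ℕ} (hW : finrank (ZMod p) W ≤ s)
    (hU' : finrank (ZMod p) U' ≤ s) : Nat.card (W →ₗ[ZMod p] U') ≤ p ^ (s ^ 2) := by
  have : Module.Finite (ZMod p) V := Module.Finite.of_finite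
  rw [Module.natCard_eq_pow_finrank (K := ZMod p), Module.finrank_linearMap, Nat.card_zmod]
  apply Nat.pow_le_pow_right (Fact.out : p.Prime).pos
  rw [sq]
  exact Nat.mul_le_mul hW hU'

theorem LinA_step (B : Subgroup H) (W U' : Submodule (ZMod p) V) {s : ℕ}
    (hW : finrank (ZMod p) W ≤ s) (hU' : finrank (ZMod p) U' ≤ s)
    (hB : ∀ b ∈ B, ∀ w, ρ b w - w ∈ U') :
    Nat.card B ≤ p ^ (s ^ 2) * Nat.card (B ⊓ LinA_fix ρ W : Subgroup H) := by
  classical
  have : Finite (W →ₗ[ZMod p] U') := by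
    have : Finite (W → U') := inferInstance
    exact Finite.of_injective (fun g : W →ₗ[ZMod p] U' => (g : W → U')) DFunLike.coe_injective
  let f : H → (W →ₗ[ZMod p] U') := fun h =>
    if hb : h ∈ B then LinearMap.codRestrict U' ((ρ h - 1).domRestrict W)
      (fun w => by
        have := hB h hb w
        simpa using this) else 0
  have hf : ∀ x (hx : x ∈ B) (w : W), ((f x w : U') : V) = ρ x w - w := by
    intro x hx w
    simp only [f]
    rw [dif_pos hx]
    simp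
  refine (LinA_count B (B ⊓ LinA_fix ρ W) f ?_).trans
    (Nat.mul_le_mul_right _ (LinA_hom hW hU'))
  intro x hx y hy hxy
  refine ⟨B.mul_mem (B.inv_mem hx) hy, ?_⟩
  intro w hw
  have h1 : ρ x w - w = ρ y w - w := by
    have h2 := hf x hx ⟨w, hw⟩
    have h3 := hf y hy ⟨w, hw⟩
    rw [hxy, h3] at h2
    exact h2.symm
  have h2 : ρ x w = ρ y w := sub_left_injective h1
  rw [map_mul, Module.End.mul_apply, ← h2, ← Module.End.mul_apply, ← map_mul, inv_mul_cancel,
    map_one, Module.End.one_apply]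

theorem LinA_pgroup {X X' P : Subgroup H} (hX : IsPGroup p X) (hX' : IsPGroup p X')
    (hc : ∀ a ∈ X, ∀ b ∈ X', a * b = b * a) (n : ℕ)
    (hmax : ∀ P : Subgroup H, IsPGroup p P → Nat.card P ≤ n) (hle : X ⊓ X' ≤ P) :
    Nat.card X * Nat.card X' ≤ n * Nat.card P := by
  let φ : X × X' →* H := MonoidHom.noncommCoprod X.subtype X'.subtype
    (fun a b => hc a a.2 b b.2)
  have hφ : ∀ z : X × X', φ z = z.1 * z.2 := fun z => rfl
  have hP : IsPGroup p (X × X') := by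
    obtain ⟨a, ha⟩ := IsPGroup.iff_card.1 hX
    obtain ⟨b, hb⟩ := IsPGroup.iff_card.1 hX'
    apply IsPGroup.of_card (n := a + b)
    rw [Nat.card_prod, ha, hb, pow_add]
  have hR : IsPGroup p φ.range := hP.of_surjective φ.rangeRestrict φ.rangeRestrict_surjective
  have h1 := hmax _ hR
  have h2 : Nat.card φ.ker * Nat.card φ.range = Nat.card (X × X') := by
    rw [← Subgroup.index_ker]
    exact Subgroup.card_mul_index _
  have h3 : Nat.card φ.ker ≤ Nat.card P := by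
    let g : φ.ker → P := fun z => ⟨z.1.1, hle ⟨z.1.1.2, by
      have : ((z.1.1 : H)) * (z.1.2 : H) = 1 := z.2
      have h4 : (z.1.1 : H) = ((z.1.2 : H))⁻¹ := eq_inv_of_mul_eq_one_left this
      rw [h4]
      exact X'.inv_mem z.1.2.2⟩⟩
    apply Nat.card_le_card_of_injective g
    intro z z' hzz
    have h5 : (z.1.1 : H) = z'.1.1 := congrArg (fun t : P => (t : H)) hzz
    have h6 : ((z.1.1 : H)) * (z.1.2 : H) = 1 := z.2
    have h7 : ((z'.1.1 : H)) * (z'.1.2 : H) = 1 := z'.2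
    have h8 : (z.1.2 : H) = z'.1.2 := by
      rw [h5] at h6
      exact mul_left_cancel (h6.trans h7.symm)
    exact Subtype.ext (Prod.ext (Subtype.ext h5) (Subtype.ext h8))
  rw [Nat.card_prod] at h2
  rw [← h2, mul_comm]
  exact Nat.mul_le_mul h1 h3

theorem LinA_relIndex (I A A' : Subgroup H) (hIA : I ≤ A) (N : ℕ)
    (h : Nat.card A ≤ N * Nat.card (A ⊓ A' : Subgroup H)) :
    Nat.card I ≤ N * Nat.card (I ⊓ A' : Subgroup H) := by
  have key : ∀ B : Subgroup H, Nat.card B = A'.relIndex B * Nat.card (B ⊓ A' : Subgroup H) := by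
    intro B
    have h1 : Nat.card (A'.subgroupOf B) * (A'.subgroupOf B).index = Nat.card B :=
      Subgroup.card_mul_index _
    have h2 : Nat.card (A'.subgroupOf B) = Nat.card (B ⊓ A' : Subgroup H) := by
      rw [inf_comm, ← Subgroup.subgroupOf_map_subtype]
      exact (Nat.card_congr (Subgroup.equivMapOfInjective _ _ B.subtype_injective).toEquiv)
    rw [← h1, h2, mul_comm]
    rfl
  have h1 : A'.relIndex I ≤ A'.relIndex A :=
    Subgroup.relIndex_le_of_le_right hIA Subgroup.index_ne_zero_of_finite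
  have h2 : A'.relIndex A ≤ N := by
    rw [key A] at h
    exact Nat.le_of_mul_le_mul_right h Nat.card_pos
  rw [key I]
  exact Nat.mul_le_mul_right _ (h1.trans h2)

theorem LinA_conj {A : Subgroup H} {U : Submodule (ZMod p) V}
    (hA : ∀ a ∈ A, ∀ v, ρ a v - v ∈ U) (g : H) :
    ∀ b ∈ A.map (MulAut.conj g).toMonoidHom, ∀ v, ρ b v - v ∈ U.map (ρ g) := by
  rintro b ⟨a, ha, rfl⟩ v
  have h1 : ρ ((MulAut.conj g).toMonoidHom a) v = ρ g (ρ a (ρ g⁻¹ v)) := by
    have : (MulAut.conj g).toMonoidHom a = g * a * g⁻¹ := rfl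
    rw [this, map_mul, map_mul, Module.End.mul_apply, Module.End.mul_apply]
  have h2 : ρ g (ρ g⁻¹ v) = v := by
    rw [← Module.End.mul_apply, ← map_mul, mul_inv_cancel, map_one, Module.End.one_apply]
  refine ⟨ρ a (ρ g⁻¹ v) - ρ g⁻¹ v, hA a ha _, ?_⟩
  rw [map_sub, h1, h2]

theorem LinA_conjfix {A : Subgroup H} {U : Submodule (ZMod p) V}
    (hA : ∀ a ∈ A, ∀ u ∈ U, ρ a u = u) (g : H) :
    ∀ b ∈ A.map (MulAut.conj g).toMonoidHom, ∀ w ∈ U.map (ρ g), ρ b w = w := by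
  rintro b ⟨a, ha, rfl⟩ w ⟨u, hu, rfl⟩
  have h1 : ρ ((MulAut.conj g).toMonoidHom a) (ρ g u) = ρ g (ρ a (ρ g⁻¹ (ρ g u))) := by
    have : (MulAut.conj g).toMonoidHom a = g * a * g⁻¹ := rfl
    rw [this, map_mul, map_mul, Module.End.mul_apply, Module.End.mul_apply]
  have h2 : ρ g⁻¹ (ρ g u) = u := by
    rw [← Module.End.mul_apply, ← map_mul, inv_mul_cancel, map_one, Module.End.one_apply]
  rw [h1, h2, hA a ha u hu]

theorem LinA_comm (hinj : Function.Injective ρ) {W W' : Submodule (ZMod p) V} {a b : H}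
    (ha : ∀ v, ρ a v - v ∈ W) (haW : ∀ w ∈ W', ρ a w = w)
    (hb : ∀ v, ρ b v - v ∈ W') (hbW : ∀ w ∈ W, ρ b w = w) : a * b = b * a := by
  apply hinj
  ext v
  rw [map_mul, map_mul, Module.End.mul_apply, Module.End.mul_apply]
  have h1 : ρ a (ρ b v) = ρ a v + (ρ b v - v) := by
    rw [← haW _ (hb v), ← map_add]
    congr 1
    abel
  have h2 : ρ b (ρ a v) = ρ b v + (ρ a v - v) := by
    rw [← hbW _ (ha v), ← map_add]
    congr 1
    abel
  rw [h1, h2]
  abel

theorem LinA_inter (hinj : Function.Injective ρ) (A : Subgroup H) (U : Submodule (ZMod p) V)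
    {s : ℕ} (hs : finrank (ZMod p) U ≤ s) (hA : ∀ a ∈ A, ∀ v, ρ a v - v ∈ U)
    (hAU : ∀ a ∈ A, ∀ u ∈ U, ρ a u = u) (hAp : IsPGroup p A) (n : ℕ)
    (hmax : ∀ P : Subgroup H, IsPGroup p P → Nat.card P ≤ n)
    (hn : n ≤ p ^ (s ^ 2) * Nat.card A) (g : H) :
    Nat.card A ≤ p ^ (3 * s ^ 2) *
      Nat.card (A ⊓ A.map (MulAut.conj g).toMonoidHom : Subgroup H) := by
  have : Module.Finite (ZMod p) V := Module.Finite.of_finite
  set A' := A.map (MulAut.conj g).toMonoidHom with hA'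
  have hgs : finrank (ZMod p) (U.map (ρ g)) ≤ s := (Submodule.finrank_map_le _ _).trans hs
  have h1 := LinA_step ρ A (U.map (ρ g)) U hgs hs hA
  have h2 := LinA_step ρ A' U (U.map (ρ g)) hs hgs (LinA_conj ρ hA g)
  have hcard : Nat.card A' = Nat.card A :=
    (Nat.card_congr (Subgroup.equivMapOfInjective A _ (MulAut.conj g).injective).toEquiv).symm
  rw [hcard] at h2
  have h3 := LinA_pgroup (X := A ⊓ LinA_fix ρ (U.map (ρ g))) (X' := A' ⊓ LinA_fix ρ U)
    (P := A ⊓ A') hAp.to_inf_left (hAp.map _).to_inf_left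
    (fun a ha b hb => LinA_comm ρ hinj (hA a ha.1) ha.2 (LinA_conj ρ hA g b hb.1) hb.2) n hmax
    (fun x hx => ⟨hx.1.1, hx.2.1⟩)
  set x := Nat.card (A ⊓ LinA_fix ρ (U.map (ρ g)) : Subgroup H)
  set x' := Nat.card (A' ⊓ LinA_fix ρ U : Subgroup H)
  set y := Nat.card (A ⊓ A' : Subgroup H)
  have hpos : 0 < Nat.card A := Nat.card_pos
  have h4 : Nat.card A * Nat.card A ≤ Nat.card A * (p ^ (3 * s ^ 2) * y) := by
    calc Nat.card A * Nat.card A ≤ (p ^ (s ^ 2) * x) * (p ^ (s ^ 2) * x') := Nat.mul_le_mul h1 h2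
      _ = p ^ (s ^ 2) * p ^ (s ^ 2) * (x * x') := by ring
      _ ≤ p ^ (s ^ 2) * p ^ (s ^ 2) * (n * y) := Nat.mul_le_mul_left _ h3
      _ ≤ p ^ (s ^ 2) * p ^ (s ^ 2) * (p ^ (s ^ 2) * Nat.card A * y) :=
        Nat.mul_le_mul_left _ (Nat.mul_le_mul_right _ hn)
      _ = Nat.card A * (p ^ (3 * s ^ 2) * y) := by
        rw [show 3 * s ^ 2 = s ^ 2 + s ^ 2 + s ^ 2 by ring, pow_add, pow_add]
        ring
  exact Nat.le_of_mul_le_mul_left h4 hpos

end

/-- **Lemma 1.** `V` simple and faithful, `(r - 1) V ≤ U` for `r ∈ R`, `dim U ≤ s`,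
`R` a `p`-subgroup of maximal order; then `|R| ≤ p ^ (4 s ^ 3)`.

Proof. `|End V| = p ^ ((dim V) ^ 2)`; if `U = ⊤` then `|R| ≤ |End V| ≤ p ^ (s ^ 2)` (and if `s = 0`
every `r ∈ R` is `1` by faithfulness). Let `U ≠ ⊤`. Put `A = {r ∈ R : r = 1 on U}`; restriction to
`U` gives `|R| ≤ |End U| * |A| ≤ p ^ (s ^ 2) * |A|` (`R` maps `U` to `U`). Let `g : H`,
`g U = U.map (ρ g)`, `A' = g A g⁻¹` (trivial on `g U`, `(b - 1) V ≤ g U` for `b ∈ A'`).
`X = {a ∈ A : a = 1 on g U}`: `a ↦ (u ↦ a u - u)` is a homomorphism `A → Hom(g U, U)` with kernel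
`X` (because `(a - 1) U = 0`), so `|A| ≤ p ^ (s ^ 2) * |X|`; in the same way
`X' = {b ∈ A' : b = 1 on U}` satisfies `|A| = |A'| ≤ p ^ (s ^ 2) * |X'|`. For `a ∈ X`, `b ∈ X'`:
`(a - 1) (b - 1) = 0` (`(b - 1) V ≤ g U`) and `(b - 1) (a - 1) = 0` (`(a - 1) V ≤ U`), so
`a b = b a` (`ρ` injective), `X ⊔ X'` is a `p`-group of order `|X| |X'| / |X ⊓ X'|`, at most `|R|`,
and `X ⊓ X' ≤ A ⊓ A'`. So `|A| ^ 2 ≤ p ^ (2 s ^ 2) * |R| * |A ⊓ A'| ≤ p ^ (3 s ^ 2) |A| |A ⊓ A'|`,
i.e. `|A : A ⊓ g A g⁻¹| ≤ p ^ (3 s ^ 2)` for every `g`. The intersection of all `g U` is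
invariant and `≤ U < ⊤`, so `⊥`; as `dim U ≤ s` there are `g_1, .., g_s` with
`U ⊓ g_1 U ⊓ .. ⊓ g_s U = ⊥` (each step lowers the dimension or the intersection is already
invariant). `I = A ⊓ g_1 A g_1⁻¹ ⊓ ..` satisfies `(a - 1) V ≤ ⊥` for `a ∈ I`, so `I = ⊥`
(faithful), and `|A| = |A : I| ≤ p ^ (3 s ^ 3)`. So `|R| ≤ p ^ (3 s ^ 3 + s ^ 2)`. -/
theorem card_sylow_le (p : ℕ) [Fact p.Prime] {H V : Type*} [Group H] [Finite H] [AddCommGroup V]
    [Module (ZMod p) V] [Finite V] (ρ : H →* (V →ₗ[ZMod p] V)) (hinj : Function.Injective ρ)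
    (hirr : ∀ W : Submodule (ZMod p) V, (∀ h, ∀ w ∈ W, ρ h w ∈ W) → W = ⊥ ∨ W = ⊤)
    (R : Subgroup H) (hR : IsPGroup p R)
    (hmax : ∀ P : Subgroup H, IsPGroup p P → Nat.card P ≤ Nat.card R)
    (U : Submodule (ZMod p) V) (hU : ∀ r ∈ R, ∀ v, ρ r v - v ∈ U) (s : ℕ)
    (hs : finrank (ZMod p) U ≤ s) : Nat.card R ≤ p ^ (4 * s ^ 3) := by
  have hfin : Module.Finite (ZMod p) V := Module.Finite.of_finite
  have hp : 0 < p := (Fact.out : p.Prime).pos
  -- elements acting trivially are trivial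
  have htriv : ∀ h : H, (∀ v, ρ h v = v) → h = 1 := by
    intro h hh
    apply hinj
    rw [map_one]
    ext v
    rw [hh v, Module.End.one_apply]
  have hbot : ∀ (I : Subgroup H) (W : Submodule (ZMod p) V), W = ⊥ →
      (∀ a ∈ I, ∀ v, ρ a v - v ∈ W) → Nat.card I = 1 := by
    intro I W hW hI
    have : I = ⊥ := by
      rw [eq_bot_iff]
      intro a ha
      rw [Subgroup.mem_bot]
      apply htriv
      intro v
      have h1 := hI a ha v
      rw [hW, Submodule.mem_bot, sub_eq_zero] at h1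
      exact h1
    rw [this]
    exact Subgroup.card_bot
  rcases Nat.eq_zero_or_pos s with rfl | hs0
  · have hU0 : U = ⊥ := by
      have : finrank (ZMod p) U = 0 := Nat.le_zero.1 hs
      exact Submodule.finrank_eq_zero.1 this
    rw [hbot R U hU0 hU]
    simp
  have hle1 : s ^ 2 ≤ 4 * s ^ 3 := by
    have : s ^ 2 * 1 ≤ s ^ 2 * s := Nat.mul_le_mul_left _ hs0
    calc s ^ 2 = s ^ 2 * 1 := (mul_one _).symm
      _ ≤ s ^ 2 * s := this
      _ = s ^ 3 := by ring
      _ ≤ 4 * s ^ 3 := by omega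
  by_cases hUtop : U = ⊤
  · have h1 : finrank (ZMod p) (⊤ : Submodule (ZMod p) V) ≤ s := by rw [← hUtop]; exact hs
    have h2 := LinA_step ρ R ⊤ ⊤ h1 h1 (fun _ _ _ => Submodule.mem_top)
    have h3 : Nat.card (R ⊓ LinA_fix ρ ⊤ : Subgroup H) = 1 := by
      apply hbot _ ⊥ rfl
      intro a ha v
      rw [Submodule.mem_bot, sub_eq_zero]
      exact ha.2 v Submodule.mem_top
    rw [h3, mul_one] at h2
    exact h2.trans (Nat.pow_le_pow_right hp hle1)
  -- the main case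
  set A : Subgroup H := R ⊓ LinA_fix ρ U with hAdef
  have h1 : Nat.card R ≤ p ^ (s ^ 2) * Nat.card A := LinA_step ρ R U U hs hs hU
  have hA : ∀ a ∈ A, ∀ v, ρ a v - v ∈ U := fun a ha => hU a ha.1
  have hAU : ∀ a ∈ A, ∀ u ∈ U, ρ a u = u := fun a ha => ha.2
  have hAp : IsPGroup p A := hR.to_inf_left
  have hint := LinA_inter ρ hinj A U hs hA hAU hAp (Nat.card R) hmax h1
  have hJ : (⨅ g : H, U.map (ρ g)) = ⊥ := by
    rcases hirr (⨅ g : H, U.map (ρ g)) (by
      intro h w hw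
      rw [Submodule.mem_iInf] at hw ⊢
      intro g
      obtain ⟨u, hu, huw⟩ := hw (h⁻¹ * g)
      refine ⟨u, hu, ?_⟩
      rw [← huw, ← Module.End.mul_apply, ← map_mul, mul_inv_cancel_left]) with h | h
    · exact h
    · exfalso
      apply hUtop
      rw [eq_top_iff, ← h]
      refine (iInf_le _ (1 : H)).trans ?_
      rw [map_one]
      rintro v ⟨u, hu, rfl⟩
      exact hu
  have key : ∀ (m : ℕ) (W : Submodule (ZMod p) V) (I : Subgroup H), finrank (ZMod p) W ≤ m →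
      I ≤ A → (∀ a ∈ I, ∀ v, ρ a v - v ∈ W) → Nat.card I ≤ p ^ (3 * s ^ 2 * m) := by
    intro m
    induction m with
    | zero =>
      intro W I hW _ hIW
      have hW0 : W = ⊥ := Submodule.finrank_eq_zero.1 (Nat.le_zero.1 hW)
      rw [hbot I W hW0 hIW]
      exact Nat.one_le_iff_ne_zero.2 (pow_pos hp _).ne'
    | succ m ih =>
      intro W I hW hIA hIW
      by_cases hW0 : W = ⊥
      · rw [hbot I W hW0 hIW]
        exact Nat.one_le_iff_ne_zero.2 (pow_pos hp _).ne'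
      obtain ⟨w, hwW, hw0⟩ := Submodule.exists_mem_ne_zero_of_ne_bot hW0
      have hwJ : w ∉ (⨅ g : H, U.map (ρ g)) := by
        rw [hJ]
        exact fun h => hw0 ((Submodule.mem_bot _).1 h)
      rw [Submodule.mem_iInf] at hwJ
      push Not at hwJ
      obtain ⟨g, hg⟩ := hwJ
      have hlt : W ⊓ U.map (ρ g) < W := by
        refine lt_of_le_of_ne inf_le_left ?_
        intro h
        have : w ∈ W ⊓ U.map (ρ g) := by rw [h]; exact hwW
        exact hg this.2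
      have hfr : finrank (ZMod p) (W ⊓ U.map (ρ g) : Submodule (ZMod p) V) ≤ m := by
        have := Submodule.finrank_lt_finrank_of_lt hlt
        omega
      have h2 := ih (W ⊓ U.map (ρ g)) (I ⊓ A.map (MulAut.conj g).toMonoidHom) hfr
        (inf_le_left.trans hIA)
        (fun a ha v => ⟨hIW a ha.1 v, LinA_conj ρ hA g a ha.2 v⟩)
      have h3 := LinA_relIndex I A (A.map (MulAut.conj g).toMonoidHom) hIA _ (hint g)
      calc Nat.card I ≤ p ^ (3 * s ^ 2) *
            Nat.card (I ⊓ A.map (MulAut.conj g).toMonoidHom : Subgroup H) := h3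
        _ ≤ p ^ (3 * s ^ 2) * p ^ (3 * s ^ 2 * m) := Nat.mul_le_mul_left _ h2
        _ = p ^ (3 * s ^ 2 * (m + 1)) := by rw [← pow_add]; ring_nf
  have h2 := key s U A hs le_rfl hA
  calc Nat.card R ≤ p ^ (s ^ 2) * Nat.card A := h1
    _ ≤ p ^ (s ^ 2) * p ^ (3 * s ^ 2 * s) := Nat.mul_le_mul_left _ h2
    _ = p ^ (s ^ 2 + 3 * s ^ 2 * s) := (pow_add _ _ _).symm
    _ ≤ p ^ (4 * s ^ 3) := by
      apply Nat.pow_le_pow_right hp
      have h3 : s ^ 2 * 1 ≤ s ^ 2 * s := Nat.mul_le_mul_left _ hs0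
      nlinarith [h3]

end MNQ
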