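import Mathlib

/-! MP_0649d4_al, Theorem Q: orders of products of elements of conjugate Sylow subgroups. -/

namespace MNQ

open Module

theorem LinO_pow (p : ℕ) {V : Type*} [AddCommGroup V] [Module (ZMod p) V]
    (T : V →ₗ[ZMod p] V) (Y : Submodule (ZMod p) V) (h1 : ∀ y ∈ Y, T y = y)
    (h2 : ∀ v, T v - v ∈ Y) (n : ℕ) (v : V) :
    (T ^ n) v = v + (n : ZMod p) • (T v - v) := by
  induction n with
  | zero => simp
  | succ n ih =>
    rw [pow_succ', Module.End.mul_apply, ih, map_add, map_smul, h1 _ (h2 v), Nat.cast_succ,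
      add_smul, one_smul]
    abel

theorem LinO_one (p : ℕ) {V : Type*} [AddCommGroup V] [Module (ZMod p) V]
    (T : V →ₗ[ZMod p] V) (Y : Submodule (ZMod p) V) (h1 : ∀ y ∈ Y, T y = y)
    (h2 : ∀ v, T v - v ∈ Y) : T ^ p = 1 := by
  ext v
  rw [LinO_pow p T Y h1 h2, CharP.cast_eq_zero, zero_smul, add_zero, Module.End.one_apply]

theorem LinO_sub (p : ℕ) {H V : Type*} [Group H] [AddCommGroup V] [Module (ZMod p) V]
    (ρ : H →* (V →ₗ[ZMod p] V)) (Y : Submodule (ZMod p) V) (h : H)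
    (hY : ∀ v, ρ h v - v ∈ Y) (j : ℕ) (v : V) : ρ (h ^ j) v - v ∈ Y := by
  induction j with
  | zero =>
    rw [pow_zero, map_one, Module.End.one_apply, sub_self]
    exact Y.zero_mem
  | succ j ih =>
    have e : ρ (h ^ (j + 1)) v - v = (ρ h (ρ (h ^ j) v) - ρ (h ^ j) v) + (ρ (h ^ j) v - v) := by
      rw [pow_succ', map_mul, Module.End.mul_apply]
      abel
    rw [e]
    exact Y.add_mem (hY _) ih

theorem LinO_res (p : ℕ) {H V : Type*} [Group H] [AddCommGroup V] [Module (ZMod p) V]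
    (ρ : H →* (V →ₗ[ZMod p] V)) (Y : Submodule (ZMod p) V) (h : H)
    (hm : ∀ y ∈ Y, ρ h y ∈ Y) (j : ℕ) (y : Y) :
    ((((ρ h).restrict hm) ^ j) y : V) = ρ (h ^ j) y := by
  induction j with
  | zero => simp
  | succ j ih =>
    rw [pow_succ', Module.End.mul_apply, LinearMap.restrict_coe_apply, ih, pow_succ', map_mul,
      Module.End.mul_apply]

theorem LinO_card (p : ℕ) [Fact p.Prime] {V : Type*} [AddCommGroup V]
    [Module (ZMod p) V] [Finite V] (Y : Submodule (ZMod p) V) (s : ℕ)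
    (hY : finrank (ZMod p) Y ≤ 2 * s) :
    Nat.card (Y →ₗ[ZMod p] Y) ≤ p ^ (4 * s ^ 2) := by
  have h1 := Module.natCard_eq_pow_finrank (K := ZMod p) (V := (Y →ₗ[ZMod p] Y))
  rw [Nat.card_zmod, Module.finrank_linearMap] at h1
  rw [h1]
  refine Nat.pow_le_pow_right (Fact.out : p.Prime).pos ?_
  calc finrank (ZMod p) Y * finrank (ZMod p) Y ≤ (2 * s) * (2 * s) := Nat.mul_le_mul hY hY
    _ = 4 * s ^ 2 := by ring

/-- Orders: `ρ` faithful, `(r - 1) V ≤ U` for `r ∈ R`, `dim U ≤ s`, `|U| `-part as in the text: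
`h = a (g b g⁻¹)` satisfies `(h - 1) V ≤ Y = U ⊔ g U`, `dim Y ≤ 2 s`; `m` = order of `h` on `Y`,
`m ≤ |End Y| = p ^ (dim Y) ^ 2 ≤ p ^ (4 s ^ 2)`; `(h ^ m - 1) ^ 2 = 0`, so `h ^ (m p) = 1`
(`(1 + n) ^ p = 1 + p n = 1`). -/
theorem order_le (p : ℕ) [Fact p.Prime] {H V : Type*} [Group H] [Finite H] [AddCommGroup V]
    [Module (ZMod p) V] [Finite V] (ρ : H →* (V →ₗ[ZMod p] V)) (hinj : Function.Injective ρ)
    (R : Subgroup H) (U : Submodule (ZMod p) V) (hU : ∀ r ∈ R, ∀ v, ρ r v - v ∈ U) (s : ℕ)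
    (hs : finrank (ZMod p) U ≤ s) (a b : H) (ha : a ∈ R) (hb : b ∈ R) (g : H) :
    ∃ m, 1 ≤ m ∧ m ≤ p ^ (4 * s ^ 2 + 1) ∧ (a * (g * b * g⁻¹)) ^ m = 1 := by
  classical
  have hp : p.Prime := Fact.out
  set h : H := a * (g * b * g⁻¹) with hh
  set Y : Submodule (ZMod p) V := U ⊔ U.map (ρ g) with hYdef
  have hgg : ∀ v, ρ g (ρ g⁻¹ v) = v := by
    intro v
    rw [← Module.End.mul_apply, ← map_mul, mul_inv_cancel, map_one, Module.End.one_apply]
  have hY : ∀ v, ρ h v - v ∈ Y := by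
    intro v
    have e : ρ h v - v = (ρ a (ρ (g * b * g⁻¹) v) - ρ (g * b * g⁻¹) v) +
        ρ g (ρ b (ρ g⁻¹ v) - ρ g⁻¹ v) := by
      rw [map_sub, hgg, hh, map_mul, Module.End.mul_apply, map_mul, map_mul,
        Module.End.mul_apply, Module.End.mul_apply]
      abel
    rw [e]
    refine Y.add_mem ?_ ?_
    · exact (le_sup_left : U ≤ Y) (hU a ha _)
    · exact (le_sup_right : U.map (ρ g) ≤ Y) (Submodule.mem_map_of_mem (hU b hb _))
  have hm : ∀ y ∈ Y, ρ h y ∈ Y := by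
    intro y hy
    have e : ρ h y = (ρ h y - y) + y := by abel
    rw [e]
    exact Y.add_mem (hY y) hy
  have hd : finrank (ZMod p) Y ≤ 2 * s := by
    have h1 := Submodule.finrank_add_le_finrank_add_finrank U (U.map (ρ g))
    have h2 : finrank (ZMod p) (U.map (ρ g)) ≤ finrank (ZMod p) U := Submodule.finrank_map_le _ _
    have h3 : finrank (ZMod p) Y ≤ finrank (ZMod p) U + finrank (ZMod p) (U.map (ρ g)) := h1
    omega
  set f : Y →ₗ[ZMod p] Y := (ρ h).restrict hm with hf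
  have hfin : Finite (Y →ₗ[ZMod p] Y) := Finite.of_injective (fun u : Y →ₗ[ZMod p] Y => (u : Y → Y)) DFunLike.coe_injective
  have := Fintype.ofFinite (Y →ₗ[ZMod p] Y)
  have hpos : 0 < orderOf f := by
    rw [orderOf_pos_iff, isOfFinOrder_iff_pow_eq_one]
    refine ⟨orderOf h, orderOf_pos h, ?_⟩
    ext y
    rw [hf, LinO_res, pow_orderOf_eq_one, map_one, Module.End.one_apply, Module.End.one_apply]
  have hle : orderOf f ≤ p ^ (4 * s ^ 2) := by
    refine le_trans ?_ (LinO_card p Y s hd)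
    rw [Nat.card_eq_fintype_card]
    exact orderOf_le_card_univ
  refine ⟨orderOf f * p, Nat.mul_pos hpos hp.pos, ?_, ?_⟩
  · rw [pow_succ]
    exact Nat.mul_le_mul_right p hle
  · apply hinj
    rw [pow_mul, map_pow, map_one]
    refine LinO_one p _ Y ?_ (fun v => LinO_sub p ρ Y h hY _ v)
    intro y hy
    have h1 := LinO_res p ρ Y h hm (orderOf f) ⟨y, hy⟩
    rw [← hf, pow_orderOf_eq_one] at h1
    exact h1.symm

end MNQ
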