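import Pool.Agent.W_0649q_h65.OrthB

/-! MP_0649d4_al, Theorem Q: from irreducible to arbitrary unitary representations. -/

namespace MNQ

open Module

universe u v

/-- the subrepresentation on an invariant subspace -/
private noncomputable def Semi_sub {H : Type*} {N : Type*} [Group H] [NormedAddCommGroup N]
    [InnerProductSpace ℂ N] (ρ : H →* (N →ₗ[ℂ] N)) (W : Submodule ℂ N)
    (hW : ∀ g, ∀ w ∈ W, ρ g w ∈ W) : H →* (W →ₗ[ℂ] W) where
  toFun g := (ρ g).restrict (hW g)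
  map_one' := by
    ext w
    simp
  map_mul' g h := by
    ext w
    simp [map_mul]

private theorem Semi_sub_apply {H : Type*} {N : Type*} [Group H] [NormedAddCommGroup N]
    [InnerProductSpace ℂ N] (ρ : H →* (N →ₗ[ℂ] N)) (W : Submodule ℂ N)
    (hW : ∀ g, ∀ w ∈ W, ρ g w ∈ W) (g : H) (w : W) :
    ((Semi_sub ρ W hW g w : W) : N) = ρ g w := rfl

/-- isometries preserve the orthogonal complement of an invariant subspace -/
private theorem Semi_orth {H : Type*} {N : Type*} [Group H] [NormedAddCommGroup N]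
    [InnerProductSpace ℂ N] (ρ : H →* (N →ₗ[ℂ] N)) (hiso : ∀ g x, ‖ρ g x‖ = ‖x‖)
    (W : Submodule ℂ N) (hW : ∀ g, ∀ w ∈ W, ρ g w ∈ W) : ∀ g, ∀ x ∈ Wᗮ, ρ g x ∈ Wᗮ := by
  intro g x hx
  rw [Submodule.mem_orthogonal] at hx ⊢
  intro w hw
  have h1 : w = ρ g (ρ g⁻¹ w) := by
    rw [← Module.End.mul_apply, ← map_mul, mul_inv_cancel, map_one, Module.End.one_apply]
  have h2 := LinearIsometry.inner_map_map (⟨ρ g, hiso g⟩ : N →ₗᵢ[ℂ] N) (ρ g⁻¹ w) x
  have h3 : inner ℂ (ρ g (ρ g⁻¹ w)) (ρ g x) = inner ℂ (ρ g⁻¹ w) x := h2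
  rw [h1, h3]
  exact hx _ (hW _ _ hw)

/-- the irreducible case, by passing to the image of the group -/
private theorem Semi_irr (r τ c : ℕ) (Φ : ℕ → ℕ)
    (hΦ : ∀ r' : ℕ, ∀ (p : ℕ) [Fact p.Prime] {G : Type u} {N : Type v}
    [Group G] [Finite G] [NormedAddCommGroup N] [InnerProductSpace ℂ N] [FiniteDimensional ℂ N]
    (ρ : G →* (N →ₗ[ℂ] N)) (_hinj : Function.Injective ρ) (_hiso : ∀ g x, ‖ρ g x‖ = ‖x‖)
    (_hirr : ∀ W : Submodule ℂ N, (∀ g, ∀ w ∈ W, ρ g w ∈ W) → W = ⊥ ∨ W = ⊤)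
    (R : Subgroup G) (_hR : IsPGroup p R) (_hne : R ≠ ⊥) (_hcard : Nat.card R = r')
    (_hmax : ∀ P : Subgroup G, IsPGroup p P → Nat.card P ≤ Nat.card R)
    (_hτ : finrank ℂ N ≤ finrank ℂ (fixR ρ R) + τ)
    (_hord : ∀ a ∈ R, ∀ b ∈ R, ∀ g, ∃ m, 1 ≤ m ∧ m ≤ c ∧ (a * (g * b * g⁻¹)) ^ m = 1),
    finrank ℂ N ≤ Φ r')
    (p : ℕ) [Fact p.Prime] {H : Type u} {N : Type v}
    [Group H] [Finite H] [NormedAddCommGroup N] [InnerProductSpace ℂ N] [FiniteDimensional ℂ N]
    (ρ : H →* (N →ₗ[ℂ] N)) (hiso : ∀ g x, ‖ρ g x‖ = ‖x‖)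
    (R : Sylow p H) (hcard : Nat.card R ≤ r)
    (hτ : finrank ℂ N ≤ finrank ℂ (fixR ρ (R : Subgroup H)) + τ)
    (hord : ∀ a ∈ R, ∀ b ∈ R, ∀ g : H, ∃ m, 1 ≤ m ∧ m ≤ c ∧ (a * (g * b * g⁻¹)) ^ m = 1)
    (W : Submodule ℂ N) (hW : ∀ g, ∀ w ∈ W, ρ g w ∈ W)
    (hmin : ∀ U : Submodule ℂ N, (∀ g, ∀ w ∈ U, ρ g w ∈ U) → U ≤ W → U = ⊥ ∨ U = W)
    (hact : ∃ a ∈ R, ∃ w ∈ W, ρ a w ≠ w) :
    ∃ r' ≤ r, finrank ℂ W ≤ Φ r' := by
  classical
  set ρW : H →* (W →ₗ[ℂ] W) := Semi_sub ρ W hW with hρW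
  let G' := H ⧸ ρW.ker
  let π : H →* G' := QuotientGroup.mk' ρW.ker
  have hπ : Function.Surjective π := QuotientGroup.mk'_surjective _
  let ρ' : G' →* (W →ₗ[ℂ] W) := QuotientGroup.lift ρW.ker ρW le_rfl
  have hρ' : ∀ g, ρ' (π g) = ρW g := fun g => rfl
  have hinj : Function.Injective ρ' := by
    intro a b hab
    obtain ⟨a, rfl⟩ := hπ a
    obtain ⟨b, rfl⟩ := hπ b
    rw [hρ', hρ'] at hab
    apply QuotientGroup.eq.2
    rw [MonoidHom.mem_ker, map_mul, ← hab, ← map_mul, inv_mul_cancel, map_one]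
  let R' : Sylow p G' := R.mapSurjective hπ
  have hR' : (R' : Subgroup G') = (R : Subgroup H).map π := Sylow.coe_mapSurjective hπ R
  have hmem : ∀ a' ∈ (R' : Subgroup G'), ∃ a ∈ R, π a = a' := by
    intro a' ha'
    rw [hR'] at ha'
    obtain ⟨a, ha, rfl⟩ := Subgroup.mem_map.1 ha'
    exact ⟨a, ha, rfl⟩
  have hmem' : ∀ a ∈ R, π a ∈ (R' : Subgroup G') := by
    intro a ha
    rw [hR']
    exact Subgroup.mem_map.2 ⟨a, ha, rfl⟩
  refine ⟨Nat.card (R' : Subgroup G'), ?_, ?_⟩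
  · refine le_trans ?_ hcard
    have hs : Function.Surjective (fun a : (R : Subgroup H) =>
        (⟨π a, hmem' a a.2⟩ : (R' : Subgroup G'))) := by
      rintro ⟨a', ha'⟩
      obtain ⟨a, ha, rfl⟩ := hmem a' ha'
      exact ⟨⟨a, ha⟩, rfl⟩
    exact Nat.card_le_card_of_surjective _ hs
  · refine hΦ _ p ρ' hinj ?_ ?_ (R' : Subgroup G') R'.isPGroup' ?_ rfl ?_ ?_ ?_
    · intro g x
      obtain ⟨g, rfl⟩ := hπ g
      rw [hρ']
      exact hiso g x
    · intro W0 hW0
      have hU : ∀ g, ∀ w ∈ W0.map W.subtype, ρ g w ∈ W0.map W.subtype := by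
        intro g w hw
        obtain ⟨x, hx, rfl⟩ := Submodule.mem_map.1 hw
        refine Submodule.mem_map.2 ⟨ρ' (π g) x, hW0 _ _ hx, rfl⟩
      rcases hmin _ hU (Submodule.map_subtype_le _ _) with h | h
      · left
        apply Submodule.map_injective_of_injective W.injective_subtype
        rw [h, Submodule.map_bot]
      · right
        apply Submodule.map_injective_of_injective W.injective_subtype
        rw [h, Submodule.map_subtype_top]
    · obtain ⟨a, ha, w, hw, hne⟩ := hact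
      intro hbot
      have h1 : π a ∈ (R' : Subgroup G') := hmem' a ha
      rw [hbot, Subgroup.mem_bot] at h1
      apply hne
      have h2 : ρW a = 1 := by rw [← hρ', h1, map_one]
      have h3 : ((ρW a ⟨w, hw⟩ : W) : N) = w := by rw [h2]; rfl
      exact h3
    · intro P hP
      obtain ⟨Q, hQ⟩ := hP.exists_le_sylow
      calc Nat.card P ≤ Nat.card (Q : Subgroup G') := Subgroup.card_le_of_le hQ
        _ = Nat.card (R' : Subgroup G') := by
          rw [Sylow.card_eq_multiplicity, Sylow.card_eq_multiplicity]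
    · have h1 := Submodule.finrank_sup_add_finrank_inf_eq W (fixR ρ (R : Subgroup H))
      have h2 : finrank ℂ (W ⊔ fixR ρ (R : Subgroup H) : Submodule ℂ N) ≤ finrank ℂ N :=
        Submodule.finrank_le _
      have h3 : finrank ℂ (W ⊓ fixR ρ (R : Subgroup H) : Submodule ℂ N) ≤
          finrank ℂ (fixR ρ' (R' : Subgroup G')) := by
        have h4 : (W ⊓ fixR ρ (R : Subgroup H) : Submodule ℂ N) ≤
            (fixR ρ' (R' : Subgroup G')).map W.subtype := by
          rintro x ⟨hx1, hx2⟩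
          refine Submodule.mem_map.2 ⟨⟨x, hx1⟩, ?_, rfl⟩
          intro a' ha'
          obtain ⟨a, ha, rfl⟩ := hmem a' ha'
          apply Subtype.ext
          exact hx2 a ha
        calc finrank ℂ (W ⊓ fixR ρ (R : Subgroup H) : Submodule ℂ N) ≤
            finrank ℂ ((fixR ρ' (R' : Subgroup G')).map W.subtype) :=
              Submodule.finrank_mono h4
          _ = finrank ℂ (fixR ρ' (R' : Subgroup G')) :=
              Submodule.finrank_map_subtype_eq W _
      omega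
    · intro a' ha' b' hb' g'
      obtain ⟨a, ha, rfl⟩ := hmem a' ha'
      obtain ⟨b, hb, rfl⟩ := hmem b' hb'
      obtain ⟨g, rfl⟩ := hπ g'
      obtain ⟨m, hm1, hm2, hm3⟩ := hord a ha b hb g
      refine ⟨m, hm1, hm2, ?_⟩
      rw [← map_inv, ← map_mul, ← map_mul, ← map_mul, ← map_pow, hm3, map_one]

/-- `N` unitary representation of `H` (not faithful, not irreducible), `R` a Sylow `p`-subgroup of
order at most `r`, no non-zero vector of `N` is fixed by all conjugates of `R`, and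
`dim N - dim N^R ≤ τ`. Then `dim N` is bounded. Proof: take `Φ = τ * max_{r' ≤ r} Φ_{r'}` with
`Φ_{r'}` from `orth_bound r' τ c`; induction on `dim N`: if `N ≠ 0` let `W` be a minimal non-zero
invariant subspace. Some `a ∈ R` acts non-trivially on `W` (otherwise all conjugates of `R` fix `W`
pointwise). The image `G'` of `H` in `End W` is a finite group (`G' = (restriction).range` in
units, or `H ⧸ ker`), the image of `R` is a Sylow subgroup of it (`Sylow.mapSurjective`), non-trivial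
of order `≤ r`, so `dim W ≤ Φ_{r'}`; `Wᗮ` is invariant, satisfies the hypotheses and
`dim (Wᗮ) - dim (Wᗮ)^R ≤ τ - 1` (`N^R = W^R ⊕ (Wᗮ)^R`). State the induction as
`dim N ≤ (dim N - dim N^R) * Φ_max`. -/
theorem semi_bound (r τ c : ℕ) : ∃ Φ : ℕ, ∀ (p : ℕ) [Fact p.Prime] {H : Type u} {N : Type v}
    [Group H] [Finite H] [NormedAddCommGroup N] [InnerProductSpace ℂ N] [FiniteDimensional ℂ N]
    (ρ : H →* (N →ₗ[ℂ] N)) (_hiso : ∀ g x, ‖ρ g x‖ = ‖x‖)
    (R : Sylow p H) (_hcard : Nat.card R ≤ r)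
    (_hL : ∀ w : N, (∀ g : H, ∀ a ∈ R, ρ (g * a * g⁻¹) w = w) → w = 0)
    (_hτ : finrank ℂ N ≤ finrank ℂ (fixR ρ (R : Subgroup H)) + τ)
    (_hord : ∀ a ∈ R, ∀ b ∈ R, ∀ g : H, ∃ m, 1 ≤ m ∧ m ≤ c ∧ (a * (g * b * g⁻¹)) ^ m = 1),
    finrank ℂ N ≤ Φ := by
  classical
  choose Φ hΦ using fun r' : ℕ => orth_bound.{u, v} r' τ c
  set M := ∑ r' ∈ Finset.range (r + 1), Φ r' with hM
  have hMle : ∀ r' ≤ r, Φ r' ≤ M := fun r' hr' =>
    Finset.single_le_sum (f := Φ) (fun _ _ => Nat.zero_le _)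
      (Finset.mem_range.2 (Nat.lt_succ_of_le hr'))
  refine ⟨M * τ, ?_⟩
  intro p _ H N _ _ _ _ _ ρ hiso R hcard hL hτ hord
  set F := fixR ρ (R : Subgroup H) with hF
  have key : ∀ n : ℕ, ∀ V : Submodule ℂ N, (∀ g, ∀ w ∈ V, ρ g w ∈ V) → finrank ℂ V = n →
      finrank ℂ V + M * finrank ℂ (V ⊓ F : Submodule ℂ N) ≤ M * finrank ℂ V := by
    intro n
    induction n using Nat.strong_induction_on with
    | _ n ih =>
      intro V hV hn
      by_cases hV0 : V = ⊥
      · subst hV0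
        simp
      -- a minimal nonzero invariant subspace
      have hex : ∃ k : ℕ, ∃ W : Submodule ℂ N, (∀ g, ∀ w ∈ W, ρ g w ∈ W) ∧ W ≤ V ∧ W ≠ ⊥ ∧
          finrank ℂ W = k := ⟨_, V, hV, le_rfl, hV0, rfl⟩
      obtain ⟨W, hW, hWV, hW0, hWk⟩ := Nat.find_spec hex
      have hmin : ∀ U : Submodule ℂ N, (∀ g, ∀ w ∈ U, ρ g w ∈ U) → U ≤ W → U = ⊥ ∨ U = W := by
        intro U hU hUW
        by_cases hU0 : U = ⊥
        · exact Or.inl hU0
        · right
          have h1 : Nat.find hex ≤ finrank ℂ U :=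
            Nat.find_min' hex ⟨U, hU, hUW.trans hWV, hU0, rfl⟩
          exact Submodule.eq_of_le_of_finrank_le hUW (hWk.le.trans h1)
      obtain ⟨w, hw, hw0⟩ := (Submodule.ne_bot_iff W).1 hW0
      have hact : ∃ a ∈ R, ∃ w ∈ W, ρ a w ≠ w := by
        by_contra hcon
        push Not at hcon
        apply hw0
        apply hL w
        intro g a ha
        have h1 := hcon a ha (ρ g⁻¹ w) (hW _ _ hw)
        rw [map_mul, map_mul, Module.End.mul_apply, Module.End.mul_apply, h1,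
          ← Module.End.mul_apply, ← map_mul, mul_inv_cancel, map_one, Module.End.one_apply]
      obtain ⟨r', hr', hWb⟩ := Semi_irr r τ c Φ (fun r' => hΦ r') p ρ hiso R hcard hτ hord
        W hW hmin hact
      have hWM : finrank ℂ W ≤ M := hWb.trans (hMle r' hr')
      have hlt : finrank ℂ (W ⊓ F : Submodule ℂ N) < finrank ℂ W := by
        apply Submodule.finrank_lt_finrank_of_lt
        refine lt_of_le_of_ne inf_le_left ?_
        intro he
        obtain ⟨a, ha, w1, hw1, hne⟩ := hact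
        rw [← he] at hw1
        exact hne (hw1.2 a ha)
      -- the complement
      set W' : Submodule ℂ N := V ⊓ Wᗮ with hW'
      have hW'inv : ∀ g, ∀ x ∈ W', ρ g x ∈ W' := fun g x hx =>
        ⟨hV g x hx.1, Semi_orth ρ hiso W hW g x hx.2⟩
      have hdec : ∀ v ∈ V, ∃ x ∈ W, ∃ y ∈ W', x + y = v := by
        intro v hv
        obtain ⟨x, hx, y, hy, hxy⟩ := Submodule.mem_sup.1
          (show v ∈ W ⊔ Wᗮ by rw [Submodule.sup_orthogonal_of_hasOrthogonalProjection]; trivial)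
        refine ⟨x, hx, y, ⟨?_, hy⟩, hxy⟩
        have : y = v - x := by rw [← hxy]; abel
        rw [this]
        exact V.sub_mem hv (hWV hx)
      have hdisj : W ⊓ W' = ⊥ := by
        rw [eq_bot_iff]
        rintro x ⟨hx1, hx2⟩
        have := (Submodule.inf_orthogonal_eq_bot W).le ⟨hx1, hx2.2⟩
        exact this
      have hsup : W ⊔ W' = V := by
        apply le_antisymm (sup_le hWV inf_le_left)
        intro v hv
        obtain ⟨x, hx, y, hy, hxy⟩ := hdec v hv
        exact Submodule.mem_sup.2 ⟨x, hx, y, hy, hxy⟩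
      have hfin : finrank ℂ V = finrank ℂ W + finrank ℂ W' := by
        have h1 := Submodule.finrank_sup_add_finrank_inf_eq W W'
        rw [hdisj, hsup, finrank_bot] at h1
        omega
      have hfix : finrank ℂ (V ⊓ F : Submodule ℂ N) ≤
          finrank ℂ (W ⊓ F : Submodule ℂ N) + finrank ℂ (W' ⊓ F : Submodule ℂ N) := by
        have h1 : V ⊓ F ≤ (W ⊓ F) ⊔ (W' ⊓ F) := by
          rintro v ⟨hv1, hv2⟩
          obtain ⟨x, hx, y, hy, hxy⟩ := hdec v hv1
          have hxF : x ∈ F := by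
            intro a ha
            have h2 : ρ a v = v := hv2 a ha
            have h3 : ρ a x - x = y - ρ a y := by
              rw [← hxy, map_add] at h2
              have : ρ a x = x + y - ρ a y := by rw [← h2]; abel
              rw [this]; abel
            have h4 : ρ a x - x ∈ W ⊓ Wᗮ := by
              refine ⟨W.sub_mem (hW a x hx) hx, ?_⟩
              rw [h3]
              exact Submodule.sub_mem _ hy.2 (Semi_orth ρ hiso W hW a y hy.2)
            rw [Submodule.inf_orthogonal_eq_bot, Submodule.mem_bot] at h4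
            exact sub_eq_zero.1 h4
          have hyF : y ∈ F := by
            have : y = v - x := by rw [← hxy]; abel
            rw [this]
            exact F.sub_mem hv2 hxF
          exact Submodule.mem_sup.2 ⟨x, ⟨hx, hxF⟩, y, ⟨hy, hyF⟩, hxy⟩
        exact (Submodule.finrank_mono h1).trans (Submodule.finrank_add_le_finrank_add_finrank _ _)
      have hWpos : 0 < finrank ℂ W := by omega
      have h1 : finrank ℂ W + M * finrank ℂ (W ⊓ F : Submodule ℂ N) ≤ M * finrank ℂ W := by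
        have : M * (finrank ℂ (W ⊓ F : Submodule ℂ N) + 1) ≤ M * finrank ℂ W :=
          Nat.mul_le_mul_left _ hlt
        rw [Nat.mul_add, Nat.mul_one] at this
        omega
      have h2 := ih (finrank ℂ W') (by omega) W' hW'inv rfl
      have h3 : M * finrank ℂ (V ⊓ F : Submodule ℂ N) ≤
          M * finrank ℂ (W ⊓ F : Submodule ℂ N) + M * finrank ℂ (W' ⊓ F : Submodule ℂ N) := by
        rw [← Nat.mul_add]
        exact Nat.mul_le_mul_left _ hfix
      have h4 : M * finrank ℂ V = M * finrank ℂ W + M * finrank ℂ W' := by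
        rw [hfin, Nat.mul_add]
      omega
  have h1 := key _ ⊤ (fun _ _ _ => trivial) rfl
  rw [top_inf_eq, finrank_top] at h1
  have h2 : M * finrank ℂ N ≤ M * (finrank ℂ F + τ) := Nat.mul_le_mul_left _ hτ
  rw [Nat.mul_add] at h2
  omega

end MNQ
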