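import Pool.Agent.W_0649q_h65.LinA
import Pool.Agent.W_0649q_h65.LinO
import Pool.Agent.W_0649q_h65.Semi
import Pool.Agent.W_0649q_h65.LiftC

/-! MP_0649d4_al, Theorem Q, Lemma 3. -/

namespace MNQ

open Module

universe u v

/-- The codimension of the fixed space of a finite group acting trivially modulo `U`. -/
theorem LinB_codim {p : ℕ} [Fact p.Prime] {H : Type u} {V : Type v}
    [Group H] [Finite H] [AddCommGroup V] [Module (ZMod p) V] [Finite V]
    (ρ : H →* (V →ₗ[ZMod p] V)) (R : Subgroup H) (U : Submodule (ZMod p) V)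
    (hU : ∀ r ∈ R, ∀ v, ρ r v - v ∈ U) :
    finrank (ZMod p) V ≤ finrank (ZMod p) (fixV ρ R) + Nat.card R * finrank (ZMod p) U := by
  classical
  have : Fintype R := Fintype.ofFinite R
  let f : V →ₗ[ZMod p] (R → U) := LinearMap.pi fun r : R =>
    ((ρ r - 1 : V →ₗ[ZMod p] V)).codRestrict U (fun v => by simpa using hU r r.2 v)
  have hker : LinearMap.ker f = fixV ρ R := by
    ext v
    constructor
    · intro hv a ha
      have h1 := congrFun (LinearMap.mem_ker.1 hv) ⟨a, ha⟩
      have h2 : ρ a v - v = 0 := by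
        have h3 := congrArg (Subtype.val) h1
        simpa [f] using h3
      exact sub_eq_zero.1 h2
    · intro hv
      rw [LinearMap.mem_ker]
      funext a
      apply Subtype.ext
      have h2 : ρ a v = v := hv a a.2
      simp [f, h2]
  have h1 := LinearMap.finrank_range_add_finrank_ker f
  have h2 : finrank (ZMod p) (LinearMap.range f) ≤ finrank (ZMod p) (R → U) :=
    Submodule.finrank_le _
  have h3 : finrank (ZMod p) (R → U) = Nat.card R * finrank (ZMod p) U := by
    rw [Module.finrank_pi_fintype, Finset.sum_const, Finset.card_univ, smul_eq_mul,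
      Nat.card_eq_fintype_card]
  rw [hker] at h1
  omega

/-- A Sylow subgroup has maximal order among the `p`-subgroups. -/
theorem LinB_sylow_max {p : ℕ} [Fact p.Prime] {H : Type u} [Group H] [Finite H] (R : Sylow p H)
    (P : Subgroup H) (hP : IsPGroup p P) : Nat.card P ≤ Nat.card (R : Subgroup H) := by
  obtain ⟨Q, hQ⟩ := hP.exists_le_sylow
  have h1 : Nat.card (Q : Subgroup H) = Nat.card (R : Subgroup H) :=
    Nat.card_congr (Sylow.equiv Q R).toEquiv
  rw [← h1]
  exact Nat.le_of_dvd Nat.card_pos (Subgroup.card_dvd_of_le hQ)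

/-- The restriction of the permutation representation to an invariant subspace. -/
noncomputable def LinB_restr {H : Type u} {Ω : Type u} [Fintype Ω] [Group H] [MulAction H Ω]
    (M : Submodule ℂ (EuclideanSpace ℂ Ω))
    (hM : ∀ h : H, ∀ w ∈ M, permRep h w ∈ M) : H →* (M →ₗ[ℂ] M) where
  toFun h := (permRep (Ω := Ω) h).restrict (hM h)
  map_one' := by
    ext w
    simp
  map_mul' g h := by
    ext w
    simp

theorem LinB_restr_coe {H : Type u} {Ω : Type u} [Fintype Ω] [Group H] [MulAction H Ω]
    (M : Submodule ℂ (EuclideanSpace ℂ Ω))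
    (hM : ∀ h : H, ∀ w ∈ M, permRep h w ∈ M) (h : H) (w : M) :
    ((LinB_restr M hM h w : M) : EuclideanSpace ℂ Ω) = permRep h (w : EuclideanSpace ℂ Ω) := rfl

/-- The fixed space of a normal subgroup containing `R` is zero. -/
theorem LinB_fix_normal {p : ℕ} [Fact p.Prime] {H : Type u} {V : Type v}
    [Group H] [AddCommGroup V] [Module (ZMod p) V]
    (ρ : H →* (V →ₗ[ZMod p] V))
    (hirr : ∀ W : Submodule (ZMod p) V, (∀ h, ∀ w ∈ W, ρ h w ∈ W) → W = ⊥ ∨ W = ⊤)
    (R : Subgroup H) (hne : ∃ r ∈ R, ρ r ≠ 1) (L : Subgroup H) [L.Normal] (hRL : R ≤ L) :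
    fixV ρ L = ⊥ := by
  rcases hirr (fixV ρ L) (fun h w hw a ha => by
    have h1 : h⁻¹ * a * h ∈ L := by
      have := (inferInstance : L.Normal).conj_mem a ha h⁻¹
      simpa using this
    have h2 : ρ (h⁻¹ * a * h) w = w := hw _ h1
    have h3 : ρ a (ρ h w) = ρ h (ρ (h⁻¹ * a * h) w) := by
      rw [← Module.End.mul_apply, ← Module.End.mul_apply, ← map_mul, ← map_mul]
      congr 2
      group
    rw [h3, h2]) with h | h
  · exact h
  · exfalso
    obtain ⟨r, hr, hr1⟩ := hne
    apply hr1
    ext v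
    have hv : v ∈ fixV ρ L := by rw [h]; trivial
    simpa using hv r (hRL hr)

/-- Lemma 3 for faithful `V`. `r = p ^ (4 s ^ 3)`, `c1 = r s`, `Φ` from
`semi_bound r c1 (p ^ (4 s ^ 2 + 1))`; the bound is `s + c1 + Φ`. `codim V^R ≤ |R| s = c1`
(`V^R` is the intersection of the kernels of `ρ a - 1`, `a ∈ R`, of codimension `≤ s`). If
`V^R ≤ U` then `dim V ≤ s + c1`. Otherwise `exists_complex`, and `semi_bound` for the restriction
of `permRep` to `M` (with the group `H`): `hL`: let `L` be the normal closure of `R`; `V^L` is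
invariant and not `⊤` (some `r ∈ R` acts non-trivially), so `⊥`, so `M^L = 0`. -/
theorem dim_bound_faithful (p : ℕ) [Fact p.Prime] (s : ℕ) : ∃ D : ℕ, ∀ {H : Type u} {V : Type v}
    [Group H] [Finite H] [AddCommGroup V] [Module (ZMod p) V] [Finite V]
    (ρ : H →* (V →ₗ[ZMod p] V)) (_hinj : Function.Injective ρ)
    (_hirr : ∀ W : Submodule (ZMod p) V, (∀ h, ∀ w ∈ W, ρ h w ∈ W) → W = ⊥ ∨ W = ⊤)
    (R : Sylow p H) (U : Submodule (ZMod p) V) (_hU : ∀ r ∈ R, ∀ v, ρ r v - v ∈ U)
    (_hs : finrank (ZMod p) U ≤ s) (_hne : ∃ r ∈ R, ρ r ≠ 1), finrank (ZMod p) V ≤ D := by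
  obtain ⟨Φ, hΦ⟩ := semi_bound.{u, u} (p ^ (4 * s ^ 3)) (p ^ (4 * s ^ 3) * s) (p ^ (4 * s ^ 2 + 1))
  refine ⟨s + p ^ (4 * s ^ 3) * s + Φ, ?_⟩
  intro H V _ _ _ _ _ ρ hinj hirr R U hU hs hne
  have hcard : Nat.card (R : Subgroup H) ≤ p ^ (4 * s ^ 3) :=
    card_sylow_le p ρ hinj hirr (R : Subgroup H) R.isPGroup' (fun P hP => LinB_sylow_max R P hP)
      U hU s hs
  have hcod := LinB_codim ρ (R : Subgroup H) U hU
  have hcod' : finrank (ZMod p) V ≤ finrank (ZMod p) (fixV ρ (R : Subgroup H)) +
      p ^ (4 * s ^ 3) * s := hcod.trans (Nat.add_le_add_left (Nat.mul_le_mul hcard hs) _)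
  by_cases hle : fixV ρ (R : Subgroup H) ≤ U
  · have h1 := Submodule.finrank_mono hle
    omega
  · obtain ⟨v, hv, hvU⟩ := SetLike.not_le_iff_exists.1 hle
    have : Fintype (H ⧸ (R : Subgroup H)) := Fintype.ofFinite _
    obtain ⟨M, hM, hdim, hP, hRM⟩ := exists_complex p ρ hirr (R : Subgroup H)
      (Sylow.not_dvd_index R) U hU v hv hvU
    have hfin : finrank ℂ M ≤ Φ := by
      refine hΦ p (N := M) (LinB_restr M hM) ?_ R hcard ?_ ?_ ?_
      · intro g x
        have h1 := norm_permRep g (x : EuclideanSpace ℂ (H ⧸ (R : Subgroup H)))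
        rw [← LinB_restr_coe M hM] at h1
        exact h1
      · intro w hw
        let L : Subgroup H := Subgroup.normalClosure ((R : Subgroup H) : Set H)
        have hRL : (R : Subgroup H) ≤ L := Subgroup.le_normalClosure
        have hbot := LinB_fix_normal ρ hirr (R : Subgroup H) hne L hRL
        have h1 := hP L
        rw [hbot, finrank_bot, Nat.le_zero, Submodule.finrank_eq_zero] at h1
        have hmem : (w : EuclideanSpace ℂ (H ⧸ (R : Subgroup H))) ∈
            (M ⊓ (⨅ a ∈ L, LinearMap.ker (permRep (Ω := H ⧸ (R : Subgroup H)) a - 1)) :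
              Submodule ℂ (EuclideanSpace ℂ (H ⧸ (R : Subgroup H)))) := by
          refine ⟨w.2, ?_⟩
          rw [SetLike.mem_coe, Submodule.mem_iInf]
          intro a
          rw [Submodule.mem_iInf]
          intro ha
          have hst : permRep (Ω := H ⧸ (R : Subgroup H)) a
              (w : EuclideanSpace ℂ (H ⧸ (R : Subgroup H))) = w := by
            refine Subgroup.closure_induction (p := fun a _ =>
              permRep (Ω := H ⧸ (R : Subgroup H)) a
              (w : EuclideanSpace ℂ (H ⧸ (R : Subgroup H))) = w) ?_ ?_ ?_ ?_ ha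
            · intro x hx
              obtain ⟨b, hb, hbx⟩ := Group.mem_conjugatesOfSet_iff.1 hx
              obtain ⟨c, hc⟩ := isConj_iff.1 hbx
              rw [← hc, ← LinB_restr_coe M hM, hw c b hb]
            · rw [map_one]; rfl
            · intro x y _ _ hx hy
              rw [map_mul, Module.End.mul_apply, hy, hx]
            · intro x _ hx
              conv_lhs => rw [← hx]
              rw [← Module.End.mul_apply, ← map_mul, inv_mul_cancel, map_one]; rfl
          rw [LinearMap.mem_ker, LinearMap.sub_apply, hst]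
          simp
        rw [h1] at hmem
        exact Subtype.ext ((Submodule.mem_bot ℂ).1 hmem)
      · rw [hdim]
        refine hcod'.trans (Nat.add_le_add_right (hRM.trans ?_) _)
        have hmap : finrank ℂ ((fixR (N := M) (LinB_restr M hM) (R : Subgroup H)).map M.subtype) ≤
            finrank ℂ (fixR (N := M) (LinB_restr M hM) (R : Subgroup H)) :=
          Submodule.finrank_map_le _ _
        refine le_trans (Submodule.finrank_mono ?_) hmap
        rintro x ⟨hxM, hx⟩
        refine ⟨⟨x, hxM⟩, ?_, rfl⟩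
        intro a ha
        apply Subtype.ext
        rw [LinB_restr_coe]
        rw [SetLike.mem_coe, Submodule.mem_iInf] at hx
        have h2 := hx a
        rw [Submodule.mem_iInf] at h2
        have h3 := h2 ha
        rw [LinearMap.mem_ker, LinearMap.sub_apply, sub_eq_zero] at h3
        simpa using h3
      · intro a ha b hb g
        exact order_le p ρ hinj (R : Subgroup H) U hU s hs a b ha hb g
    omega

end MNQ
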