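import Pool.Agent.W_0649q_h65.LinB

/-! MP_0649d4_al, Theorem Q, Lemma 3, reduction to the faithful case, and its multiplicative form. -/

namespace MNQ

open Module

universe u v

/-- **Lemma 3.** The faithful case for the image of `H` (`ρ.range` as a subgroup of the units, or
`H ⧸ ρ.ker`; the image of `R` is a Sylow subgroup). -/
theorem dim_bound (p : ℕ) [Fact p.Prime] (s : ℕ) : ∃ D : ℕ, ∀ {H : Type u} {V : Type v}
    [Group H] [Finite H] [AddCommGroup V] [Module (ZMod p) V] [Finite V]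
    (ρ : H →* (V →ₗ[ZMod p] V))
    (_hirr : ∀ W : Submodule (ZMod p) V, (∀ h, ∀ w ∈ W, ρ h w ∈ W) → W = ⊥ ∨ W = ⊤)
    (R : Sylow p H) (U : Submodule (ZMod p) V) (_hU : ∀ r ∈ R, ∀ v, ρ r v - v ∈ U)
    (_hs : finrank (ZMod p) U ≤ s) (_hne : ∃ r ∈ R, ρ r ≠ 1), finrank (ZMod p) V ≤ D := by
  obtain ⟨D, hD⟩ := dim_bound_faithful.{u, v} p s
  refine ⟨D, ?_⟩
  intro H V _ _ _ _ _ ρ hirr R U hU hs hne
  let π : H →* H ⧸ ρ.ker := QuotientGroup.mk' ρ.ker
  have hπ : Function.Surjective π := QuotientGroup.mk'_surjective ρ.ker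
  let ρ' : (H ⧸ ρ.ker) →* (V →ₗ[ZMod p] V) := QuotientGroup.lift ρ.ker ρ (fun x hx => hx)
  have hρ' : ∀ h, ρ' (π h) = ρ h := fun h => rfl
  have hinj : Function.Injective ρ' := by
    intro x y hxy
    obtain ⟨a, rfl⟩ := hπ x
    obtain ⟨b, rfl⟩ := hπ y
    rw [hρ', hρ'] at hxy
    have : a⁻¹ * b ∈ ρ.ker := by
      rw [MonoidHom.mem_ker, map_mul, ← hxy, ← map_mul, inv_mul_cancel, map_one]
    exact (QuotientGroup.eq).2 this
  refine hD ρ' hinj ?_ (R.mapSurjective hπ) U ?_ hs ?_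
  · intro W hW
    exact hirr W (fun h w hw => by have := hW (π h) w hw; rwa [hρ'] at this)
  · intro r' hr' v
    have hr2 : r' ∈ ((R.mapSurjective hπ : Sylow p (H ⧸ ρ.ker)) : Subgroup (H ⧸ ρ.ker)) := hr'
    rw [Sylow.coe_mapSurjective] at hr2
    obtain ⟨r, hr, rfl⟩ := hr2
    rw [hρ']
    exact hU r hr v
  · obtain ⟨r, hr, hr1⟩ := hne
    refine ⟨π r, ?_, by rw [hρ']; exact hr1⟩
    have : π r ∈ ((R.mapSurjective hπ : Sylow p (H ⧸ ρ.ker)) : Subgroup (H ⧸ ρ.ker)) := by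
      rw [Sylow.coe_mapSurjective]
      exact ⟨r, hr, rfl⟩
    exact this

/-- The linear representation on `Additive N` given by an action on the commutative group `N`. -/
noncomputable def LinC_rho (p : ℕ) {H N : Type*} [Group H] [CommGroup N]
    [Module (ZMod p) (Additive N)] (φ : H →* MulAut N) :
    H →* (Additive N →ₗ[ZMod p] Additive N) where
  toFun h := (MulEquiv.toAdditive (φ h)).toAddMonoidHom.toZModLinearMap p
  map_one' := by
    apply LinearMap.ext
    intro x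
    change Additive.ofMul (φ 1 x.toMul) = x
    rw [map_one]
    rfl
  map_mul' := by
    intro a b
    apply LinearMap.ext
    intro x
    change Additive.ofMul (φ (a * b) x.toMul) = Additive.ofMul (φ a (φ b x.toMul))
    rw [map_mul]
    rfl

theorem LinC_aux1 (p : ℕ) [Fact p.Prime] (s D : ℕ) {H : Type u} {N : Type v}
    [Group H] [Finite H] [CommGroup N] [Finite N] [Module (ZMod p) (Additive N)]
    (φ : H →* MulAut N)
    (hirr : ∀ W : Subgroup N, (∀ h, ∀ w ∈ W, φ h w ∈ W) → W = ⊥ ∨ W = ⊤)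
    (R : Sylow p H) (C : Subgroup N) (hC : ∀ r ∈ R, ∀ x, φ r x * x⁻¹ ∈ C)
    (hs : Nat.card C ≤ p ^ s) (hne : ∃ r ∈ R, φ r ≠ 1)
    (hD : ∀ (ρ : H →* (Additive N →ₗ[ZMod p] Additive N))
    (_hirr : ∀ W : Submodule (ZMod p) (Additive N), (∀ h, ∀ w ∈ W, ρ h w ∈ W) → W = ⊥ ∨ W = ⊤)
    (R : Sylow p H) (U : Submodule (ZMod p) (Additive N)) (_hU : ∀ r ∈ R, ∀ v, ρ r v - v ∈ U)
    (_hs : finrank (ZMod p) U ≤ s) (_hne : ∃ r ∈ R, ρ r ≠ 1),
      finrank (ZMod p) (Additive N) ≤ D) : Nat.card N ≤ p ^ D := by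
  have hp : 1 < p := (Fact.out : p.Prime).one_lt
  have hρ : ∀ h (x : N), LinC_rho p φ h (Additive.ofMul x) = Additive.ofMul (φ h x) :=
    fun h x => rfl
  let U : Submodule (ZMod p) (Additive N) := AddSubgroup.toZModSubmodule p (Subgroup.toAddSubgroup C)
  have hUmem : ∀ x : N, Additive.ofMul x ∈ U ↔ x ∈ C := fun x => Iff.rfl
  have hcard : ∀ W : Submodule (ZMod p) (Additive N), Nat.card W = p ^ finrank (ZMod p) W := by
    intro W
    rw [Module.natCard_eq_pow_finrank (K := ZMod p), Nat.card_zmod]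
  have hcardV : Nat.card N = p ^ finrank (ZMod p) (Additive N) := by
    have := Module.natCard_eq_pow_finrank (K := ZMod p) (V := Additive N)
    rw [Nat.card_zmod] at this
    exact this
  rw [hcardV]
  refine Nat.pow_le_pow_right hp.le ?_
  refine hD (LinC_rho p φ) ?_ R U ?_ ?_ ?_
  · intro W hW
    let W' : Subgroup N := AddSubgroup.toSubgroup' W.toAddSubgroup
    have hW' : ∀ x : N, x ∈ W' ↔ Additive.ofMul x ∈ W := fun x => Iff.rfl
    rcases hirr W' (fun h w hw => by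
      rw [hW'] at hw ⊢
      exact hW h _ hw) with h1 | h1
    · left
      ext x
      have : x.toMul ∈ W' ↔ x.toMul ∈ (⊥ : Subgroup N) := by rw [h1]
      rw [hW'] at this
      simpa using this
    · right
      ext x
      have : x.toMul ∈ W' ↔ x.toMul ∈ (⊤ : Subgroup N) := by rw [h1]
      rw [hW'] at this
      simpa using this
  · intro r hr v
    have := hC r hr v.toMul
    rw [← hUmem, ofMul_mul, ← hρ, ofMul_inv, ← sub_eq_add_neg] at this
    exact this
  · have h1 : Nat.card U ≤ p ^ s := hs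
    rw [hcard U] at h1
    exact (Nat.pow_le_pow_iff_right hp).1 h1
  · obtain ⟨r, hr, hr1⟩ := hne
    refine ⟨r, hr, fun h => hr1 ?_⟩
    ext x
    have h2 := LinearMap.congr_fun h (Additive.ofMul x)
    rw [hρ] at h2
    exact Additive.ofMul.injective h2

/-- Lemma 3 in multiplicative form: `N` a finite commutative group of exponent `p` without proper
invariant subgroups, `c` with `[N, R] ≤ C`, `|C| ≤ p ^ s`, `R` non-trivial on `N`: `|N| ≤ D`.
(`Additive N` is a `ZMod p`-module by `AddCommGroup.zmodModule`; additive subgroups are submodules;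
`|C| = p ^ dim`, `|N| = p ^ dim`.) -/
theorem card_bound (p : ℕ) [Fact p.Prime] (s : ℕ) : ∃ D : ℕ, ∀ {H : Type u} {N : Type v}
    [Group H] [Finite H] [CommGroup N] [Finite N] (_hN : ∀ x : N, x ^ p = 1)
    (φ : H →* MulAut N)
    (_hirr : ∀ W : Subgroup N, (∀ h, ∀ w ∈ W, φ h w ∈ W) → W = ⊥ ∨ W = ⊤)
    (R : Sylow p H) (C : Subgroup N) (_hC : ∀ r ∈ R, ∀ x, φ r x * x⁻¹ ∈ C)
    (_hs : Nat.card C ≤ p ^ s) (_hne : ∃ r ∈ R, φ r ≠ 1), Nat.card N ≤ D := by
  obtain ⟨D, hD⟩ := dim_bound.{u, v} p s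
  refine ⟨p ^ D, ?_⟩
  intro H N _ _ _ _ hN φ hirr R C hC hs hne
  let _ : Module (ZMod p) (Additive N) := AddCommGroup.zmodModule (n := p) (fun x => by
    have := hN x.toMul
    exact this)
  exact LinC_aux1 p s D φ hirr R C hC hs hne (fun ρ h1 R U h2 h3 h4 => hD ρ h1 R U h2 h3 h4)

end MNQ
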