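import Pool.Agent.W_0649q_h65.OrthA

/-! MP_0649d4_al, Theorem Q, Lemma 2, linear algebra part. -/

set_option linter.unusedSectionVars false

namespace MNQ

open Module

variable {G N : Type*} [Group G] [Fintype G] [NormedAddCommGroup N] [InnerProductSpace ℂ N]
  [FiniteDimensional ℂ N] (ρ : G →* (N →ₗ[ℂ] N))

theorem OrthA2_mul_avg (R : Subgroup G) {a : G} (ha : a ∈ R) : ρ a * avg ρ R = avg ρ R := by
  classical
  have : Fintype R := Fintype.ofFinite R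
  unfold avg
  rw [finsum_eq_sum_of_fintype, mul_smul_comm, Finset.mul_sum]
  congr 1
  refine Fintype.sum_equiv (Equiv.mulLeft (⟨a, ha⟩ : R)) _ _ fun r => ?_
  rw [← map_mul]
  rfl

theorem OrthA2_avg_mul (R : Subgroup G) {a : G} (ha : a ∈ R) : avg ρ R * ρ a = avg ρ R := by
  classical
  have : Fintype R := Fintype.ofFinite R
  unfold avg
  rw [finsum_eq_sum_of_fintype, smul_mul_assoc, Finset.sum_mul]
  congr 1
  refine Fintype.sum_equiv (Equiv.mulRight (⟨a, ha⟩ : R)) _ _ fun r => ?_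
  rw [← map_mul]
  rfl

theorem OrthA2_avg_sq (R : Subgroup G) : avg ρ R * avg ρ R = avg ρ R := by
  classical
  have : Fintype R := Fintype.ofFinite R
  have h : (∑ r : R, ρ r) * avg ρ R = (Nat.card R : ℂ) • avg ρ R := by
    rw [Finset.sum_mul, Finset.sum_congr rfl fun r _ => OrthA2_mul_avg ρ R r.2]
    rw [Finset.sum_const, Finset.card_univ, ← Nat.card_eq_fintype_card, Nat.cast_smul_eq_nsmul]
  have hc : (Nat.card R : ℂ) ≠ 0 := Nat.cast_ne_zero.2 Nat.card_pos.ne'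
  have e : avg ρ R = (Nat.card R : ℂ)⁻¹ • ∑ r : R, ρ r := by
    unfold avg
    rw [finsum_eq_sum_of_fintype]
  calc avg ρ R * avg ρ R = ((Nat.card R : ℂ)⁻¹ • ∑ r : R, ρ r) * avg ρ R := by rw [← e]
    _ = avg ρ R := by rw [smul_mul_assoc, h, smul_smul, inv_mul_cancel₀ hc, one_smul]

theorem OrthA2_inner (hiso : ∀ g x, ‖ρ g x‖ = ‖x‖) (g : G) (x y : N) :
    inner ℂ (ρ g x) y = inner ℂ x (ρ g⁻¹ y) := by
  have h : ∀ x y : N, inner ℂ (ρ g x) (ρ g y) = inner ℂ x y :=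
    (LinearIsometry.mk (ρ g) (hiso g)).inner_map_map
  have h1 : ρ g (ρ g⁻¹ y) = y := by
    rw [← Module.End.mul_apply, ← map_mul, mul_inv_cancel, map_one, Module.End.one_apply]
  rw [← h x (ρ g⁻¹ y), h1]

theorem OrthA2_avg_inner (hiso : ∀ g x, ‖ρ g x‖ = ‖x‖) (R : Subgroup G) (x y : N) :
    inner ℂ (avg ρ R x) y = inner ℂ x (avg ρ R y) := by
  classical
  have : Fintype R := Fintype.ofFinite R
  unfold avg
  rw [finsum_eq_sum_of_fintype, LinearMap.smul_apply, LinearMap.smul_apply, inner_smul_left,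
    inner_smul_right, LinearMap.sum_apply, LinearMap.sum_apply, sum_inner, inner_sum]
  have hc : (starRingEnd ℂ) ((Nat.card R : ℂ)⁻¹) = (Nat.card R : ℂ)⁻¹ := by
    rw [map_inv₀, Complex.conj_natCast]
  rw [hc]
  congr 1
  refine Fintype.sum_equiv (Equiv.inv R) _ _ fun r => ?_
  rw [OrthA2_inner ρ hiso]
  rfl

/-- the projection -/
theorem OrthA2_pi_sq (R : Subgroup G) : (1 - avg ρ R) * (1 - avg ρ R) = 1 - avg ρ R := by
  rw [mul_sub, mul_one, sub_mul, one_mul, OrthA2_avg_sq, sub_self, sub_zero]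

theorem OrthA2_pi_inner (hiso : ∀ g x, ‖ρ g x‖ = ‖x‖) (R : Subgroup G) (x y : N) :
    inner ℂ ((1 - avg ρ R) x) y = inner ℂ x ((1 - avg ρ R) y) := by
  rw [LinearMap.sub_apply, LinearMap.sub_apply, Module.End.one_apply, Module.End.one_apply,
    inner_sub_left, inner_sub_right, OrthA2_avg_inner ρ hiso]

theorem OrthA2_rho_inv (g : G) : ρ g⁻¹ * ρ g = 1 := by
  rw [← map_mul, inv_mul_cancel, map_one]

theorem OrthA2_conj_mul (g : G) (S T : N →ₗ[ℂ] N) :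
    (ρ g * S * ρ g⁻¹) * (ρ g * T * ρ g⁻¹) = ρ g * (S * T) * ρ g⁻¹ := by
  calc (ρ g * S * ρ g⁻¹) * (ρ g * T * ρ g⁻¹) = ρ g * S * (ρ g⁻¹ * ρ g) * T * ρ g⁻¹ := by
        simp only [mul_assoc]
    _ = ρ g * (S * T) * ρ g⁻¹ := by
        rw [OrthA2_rho_inv, mul_one]
        simp only [mul_assoc]

theorem OrthA2_conj_inner (hiso : ∀ g x, ‖ρ g x‖ = ‖x‖) (g : G) (S : N →ₗ[ℂ] N)
    (hS : ∀ x y, inner ℂ (S x) y = inner ℂ x (S y)) (x y : N) :
    inner ℂ ((ρ g * S * ρ g⁻¹) x) y = inner ℂ x ((ρ g * S * ρ g⁻¹) y) := by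
  rw [Module.End.mul_apply, Module.End.mul_apply, Module.End.mul_apply, Module.End.mul_apply,
    OrthA2_inner ρ hiso, hS, OrthA2_inner ρ hiso, inv_inv]

omit [Fintype G] in
/-- the trace of a product of two orthogonal projections -/
theorem OrthA2_trace (P Q : N →ₗ[ℂ] N) (hP : P * P = P) (hQ : Q * Q = Q)
    (hP' : ∀ x y, inner ℂ (P x) y = inner ℂ x (P y))
    (hQ' : ∀ x y, inner ℂ (Q x) y = inner ℂ x (Q y)) :
    LinearMap.trace ℂ N (P * Q) =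
      ((∑ i, ‖P (Q (stdOrthonormalBasis ℂ N i))‖ ^ 2 : ℝ) : ℂ) := by
  have h1 : LinearMap.trace ℂ N (P * Q) = LinearMap.trace ℂ N (Q * (P * Q)) := by
    rw [LinearMap.trace_mul_comm ℂ Q (P * Q), mul_assoc, hQ]
  rw [h1, LinearMap.trace_eq_sum_inner _ (stdOrthonormalBasis ℂ N), Complex.ofReal_sum]
  refine Finset.sum_congr rfl fun i _ => ?_
  have h2 : inner ℂ (P (Q (stdOrthonormalBasis ℂ N i))) (P (Q (stdOrthonormalBasis ℂ N i))) =
      ((‖P (Q (stdOrthonormalBasis ℂ N i))‖ : ℂ)) ^ 2 := inner_self_eq_norm_sq_to_K _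
  have h3 : P (P (Q (stdOrthonormalBasis ℂ N i))) = P (Q (stdOrthonormalBasis ℂ N i)) := by
    rw [← Module.End.mul_apply P P, hP]
  rw [Module.End.mul_apply, Module.End.mul_apply, ← hQ', Complex.ofReal_pow, ← h2, hP', h3]

/-- If all `ρ g` are isometries and `π = 1 - avg ρ R`, `π_g = ρ(g) π ρ(g⁻¹)`: the trace of
`π π_g` is real and `≥ 0` (it is `∑ ‖π_g π e_i‖ ^ 2` over an orthonormal basis: `π`, `π_g` are
self-adjoint idempotents). -/
theorem trace_nonneg (hiso : ∀ g x, ‖ρ g x‖ = ‖x‖) (R : Subgroup G) (g : G) :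
    0 ≤ (LinearMap.trace ℂ N ((1 - avg ρ R) * (ρ g * (1 - avg ρ R) * ρ g⁻¹))).re ∧
    (LinearMap.trace ℂ N ((1 - avg ρ R) * (ρ g * (1 - avg ρ R) * ρ g⁻¹))).im = 0 := by
  rw [OrthA2_trace (1 - avg ρ R) (ρ g * (1 - avg ρ R) * ρ g⁻¹) (OrthA2_pi_sq ρ R)
    (by rw [OrthA2_conj_mul, OrthA2_pi_sq]) (OrthA2_pi_inner ρ hiso R)
    (OrthA2_conj_inner ρ hiso g _ (OrthA2_pi_inner ρ hiso R))]
  rw [Complex.ofReal_re, Complex.ofReal_im]
  exact ⟨Finset.sum_nonneg fun i _ => by positivity, rfl⟩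

/-- If that trace is `0`, then `π_g π = 0 = π π_g`, and for `a, b ∈ R`, `b' = g b g⁻¹`:
`(ρ a - 1) (ρ b' - 1) = 0 = (ρ b' - 1) (ρ a - 1)`: indeed `ρ a - 1 = (ρ a - 1) π = π (ρ a - 1)`
(because `ρ a e = e = e ρ a`), `ρ b' - 1 = (ρ b' - 1) π_g = π_g (ρ b' - 1)`. -/
theorem orth_of_trace_eq_zero (hiso : ∀ g x, ‖ρ g x‖ = ‖x‖) (R : Subgroup G) (g : G)
    (h0 : LinearMap.trace ℂ N ((1 - avg ρ R) * (ρ g * (1 - avg ρ R) * ρ g⁻¹)) = 0) :
    (∀ a ∈ R, ∀ b ∈ R, (ρ a - 1) * (ρ (g * b * g⁻¹) - 1) = 0 ∧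
      (ρ (g * b * g⁻¹) - 1) * (ρ a - 1) = 0) := by
  set P : N →ₗ[ℂ] N := 1 - avg ρ R with hPdef
  set Q : N →ₗ[ℂ] N := ρ g * P * ρ g⁻¹ with hQdef
  have hP : P * P = P := OrthA2_pi_sq ρ R
  have hQ : Q * Q = Q := by rw [hQdef, OrthA2_conj_mul, hP]
  have hP' : ∀ x y, inner ℂ (P x) y = inner ℂ x (P y) := OrthA2_pi_inner ρ hiso R
  have hQ' : ∀ x y, inner ℂ (Q x) y = inner ℂ x (Q y) := OrthA2_conj_inner ρ hiso g _ hP'
  rw [OrthA2_trace P Q hP hQ hP' hQ', Complex.ofReal_eq_zero,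
    Finset.sum_eq_zero_iff_of_nonneg fun i _ => by positivity] at h0
  have hPQ : P * Q = 0 := by
    refine (stdOrthonormalBasis ℂ N).toBasis.ext fun i => ?_
    have := h0 i (Finset.mem_univ i)
    rw [OrthonormalBasis.coe_toBasis, Module.End.mul_apply, LinearMap.zero_apply]
    exact norm_eq_zero.1 (pow_eq_zero_iff two_ne_zero |>.1 this)
  have hQP : Q * P = 0 := by
    refine LinearMap.ext fun x => ?_
    rw [LinearMap.zero_apply, ← inner_self_eq_zero (𝕜 := ℂ), Module.End.mul_apply, hQ', hP',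
      ← Module.End.mul_apply P Q, hPQ, LinearMap.zero_apply, inner_zero_right]
  intro a ha b hb
  have ea1 : (ρ a - 1) * P = ρ a - 1 := by
    rw [hPdef, mul_sub, mul_one, sub_mul, OrthA2_mul_avg ρ R ha, one_mul, sub_self, sub_zero]
  have ea2 : P * (ρ a - 1) = ρ a - 1 := by
    rw [hPdef, sub_mul, one_mul, mul_sub, OrthA2_avg_mul ρ R ha, mul_one, sub_self, sub_zero]
  have eb1 : (ρ b - 1) * P = ρ b - 1 := by
    rw [hPdef, mul_sub, mul_one, sub_mul, OrthA2_mul_avg ρ R hb, one_mul, sub_self, sub_zero]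
  have eb2 : P * (ρ b - 1) = ρ b - 1 := by
    rw [hPdef, sub_mul, one_mul, mul_sub, OrthA2_avg_mul ρ R hb, mul_one, sub_self, sub_zero]
  have eb : ρ (g * b * g⁻¹) - 1 = ρ g * (ρ b - 1) * ρ g⁻¹ := by
    rw [map_mul, map_mul, mul_sub, sub_mul, mul_one, ← map_mul ρ g g⁻¹, mul_inv_cancel, map_one]
  have ec1 : (ρ (g * b * g⁻¹) - 1) * Q = ρ (g * b * g⁻¹) - 1 := by
    rw [eb, hQdef, OrthA2_conj_mul, eb1]
  have ec2 : Q * (ρ (g * b * g⁻¹) - 1) = ρ (g * b * g⁻¹) - 1 := by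
    rw [eb, hQdef, OrthA2_conj_mul, eb2]
  constructor
  · calc (ρ a - 1) * (ρ (g * b * g⁻¹) - 1)
        = ((ρ a - 1) * P) * (Q * (ρ (g * b * g⁻¹) - 1)) := by rw [ea1, ec2]
      _ = (ρ a - 1) * (P * Q) * (ρ (g * b * g⁻¹) - 1) := by simp only [mul_assoc]
      _ = 0 := by rw [hPQ, mul_zero, zero_mul]
  · calc (ρ (g * b * g⁻¹) - 1) * (ρ a - 1)
        = ((ρ (g * b * g⁻¹) - 1) * Q) * (P * (ρ a - 1)) := by rw [ea2, ec1]
      _ = (ρ (g * b * g⁻¹) - 1) * (Q * P) * (ρ a - 1) := by simp only [mul_assoc]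
      _ = 0 := by rw [hQP, mul_zero, zero_mul]

end MNQ
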