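import Pool.Agent.W_0649q_h65.OrthA

/-! MP_0649d4_al, Theorem Q, Lemma 2, linear algebra part. -/

namespace MNQ

open Module

variable {G N : Type*} [Group G] [Fintype G] [NormedAddCommGroup N] [InnerProductSpace ℂ N]
  [FiniteDimensional ℂ N] (ρ : G →* (N →ₗ[ℂ] N))

/-- The trace as a sum: with `π = 1 - avg = |R|⁻¹ ∑_a (1 - ρ a)`,
`|R| ^ 2 tr (π π_g) = ∑_{a, b ∈ R} (tr (1 - ρ a) + tr (1 - ρ b') - tr (1 - ρ (a b')))`,
`b' = g b g⁻¹`. -/
theorem card_sq_mul_trace (R : Subgroup G) (g : G) :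
    (Nat.card R : ℂ) ^ 2 *
      LinearMap.trace ℂ N ((1 - avg ρ R) * (ρ g * (1 - avg ρ R) * ρ g⁻¹)) =
    ∑ᶠ x : R × R, (LinearMap.trace ℂ N (1 - ρ x.1) +
      LinearMap.trace ℂ N (1 - ρ (g * x.2 * g⁻¹)) -
      LinearMap.trace ℂ N (1 - ρ (x.1 * (g * x.2 * g⁻¹)))) := by
  classical
  have : Fintype R := Fintype.ofFinite R
  have hc : (Nat.card R : ℂ) ≠ 0 := Nat.cast_ne_zero.2 Nat.card_pos.ne'
  obtain ⟨P, hP⟩ : ∃ P : N →ₗ[ℂ] N, P = ∑ a : R, (1 - ρ a) := ⟨_, rfl⟩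
  have h1 : (Nat.card R : ℂ) • (1 - avg ρ R) = P := by
    unfold avg
    rw [finsum_eq_sum_of_fintype, smul_sub, smul_smul, mul_inv_cancel₀ hc, one_smul, hP,
      Finset.sum_sub_distrib, Finset.sum_const, Finset.card_univ, Nat.card_eq_fintype_card,
      Nat.cast_smul_eq_nsmul]
  have h2 : ρ g * P * ρ g⁻¹ = ∑ b : R, (1 - ρ (g * b * g⁻¹)) := by
    rw [hP, Finset.mul_sum, Finset.sum_mul]
    refine Finset.sum_congr rfl fun b _ => ?_
    rw [mul_sub, sub_mul, mul_one, OrthA_mul_inv, map_mul, map_mul]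
  have h3 : (Nat.card R : ℂ) ^ 2 *
      LinearMap.trace ℂ N ((1 - avg ρ R) * (ρ g * (1 - avg ρ R) * ρ g⁻¹)) =
      LinearMap.trace ℂ N (P * (ρ g * P * ρ g⁻¹)) := by
    rw [← h1]
    simp only [smul_mul_assoc, mul_smul_comm, map_smul, smul_eq_mul]
    ring
  rw [h3, h2, hP, Finset.sum_mul_sum, map_sum, finsum_eq_sum_of_fintype, Fintype.sum_prod_type]
  refine Finset.sum_congr rfl fun a _ => ?_
  rw [map_sum]
  refine Finset.sum_congr rfl fun b _ => ?_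
  rw [← map_add, ← map_sub]
  congr 1
  have h4 : ρ ((a : G) * (g * b * g⁻¹)) = ρ a * ρ (g * b * g⁻¹) := map_mul _ _ _
  rw [h4]
  noncomm_ring

/-- `rank (1 - ρ a) ≤ dim N - dim N^R` for `a ∈ R`, the same for `g a g⁻¹`, and twice this for the
products (kernels contain `N^R`, `ρ(g) N^R`, and their intersection). -/
theorem rank_le (R : Subgroup G) (g : G) (τ : ℕ)
    (hτ : finrank ℂ N ≤ finrank ℂ (fixR ρ R) + τ) (a b : G) (ha : a ∈ R) (hb : b ∈ R) :
    finrank ℂ (LinearMap.range (1 - ρ a)) ≤ 2 * τ ∧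
    finrank ℂ (LinearMap.range (1 - ρ (g * b * g⁻¹))) ≤ 2 * τ ∧
    finrank ℂ (LinearMap.range (1 - ρ (a * (g * b * g⁻¹)))) ≤ 2 * τ := by
  have hr : ∀ c ∈ R, finrank ℂ (LinearMap.range (1 - ρ c)) ≤ τ := by
    intro c hc
    have h1 : fixR ρ R ≤ LinearMap.ker (1 - ρ c) := by
      intro w hw
      rw [LinearMap.mem_ker, LinearMap.sub_apply, Module.End.one_apply, hw c hc, sub_self]
    have h2 := Submodule.finrank_mono h1
    have h3 := LinearMap.finrank_range_add_finrank_ker (1 - ρ c)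
    omega
  have hconj : finrank ℂ (LinearMap.range (1 - ρ (g * b * g⁻¹))) ≤ τ := by
    have h1 : (1 - ρ (g * b * g⁻¹)) = (ρ g).comp ((1 - ρ b).comp (ρ g⁻¹)) := by
      have h2 : (1 - ρ (g * b * g⁻¹)) = ρ g * ((1 - ρ b) * ρ g⁻¹) := by
        rw [sub_mul, mul_sub, one_mul, OrthA_mul_inv, map_mul, map_mul, mul_assoc]
      exact h2
    rw [h1, LinearMap.range_comp]
    refine (Submodule.finrank_map_le _ _).trans ?_
    exact (Submodule.finrank_mono (LinearMap.range_comp_le_range _ _)).trans (hr b hb)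
  refine ⟨(hr a ha).trans (by omega), hconj.trans (by omega), ?_⟩
  have h1 : (1 - ρ (a * (g * b * g⁻¹))) =
      (1 - ρ (g * b * g⁻¹)) + (1 - ρ a).comp (ρ (g * b * g⁻¹)) := by
    have h2 : (1 - ρ (a * (g * b * g⁻¹))) =
        (1 - ρ (g * b * g⁻¹)) + (1 - ρ a) * (ρ (g * b * g⁻¹)) := by
      rw [map_mul ρ a]
      noncomm_ring
    exact h2
  rw [h1]
  have h2 : LinearMap.range ((1 - ρ (g * b * g⁻¹)) + (1 - ρ a).comp (ρ (g * b * g⁻¹))) ≤
      LinearMap.range (1 - ρ (g * b * g⁻¹)) ⊔ LinearMap.range (1 - ρ a) := by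
    rintro _ ⟨w, rfl⟩
    rw [LinearMap.add_apply]
    exact Submodule.add_mem_sup (LinearMap.mem_range_self _ w)
      (LinearMap.mem_range_self (1 - ρ a) (ρ (g * b * g⁻¹) w))
  have h3 := Submodule.finrank_mono h2
  have h4 := Submodule.finrank_add_le_finrank_add_finrank (LinearMap.range (1 - ρ (g * b * g⁻¹)))
    (LinearMap.range (1 - ρ a))
  have h5 := hr a ha
  omega

end MNQ
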