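import Pool.Agent.W_0649q_h65.TraceVal
import Pool.Agent.W_0649q_h65.OrthA2
import Pool.Agent.W_0649q_h65.OrthA3

/-! MP_0649d4_al, Theorem Q, Lemma 2. -/

namespace MNQ

open Module

/-- Two commuting `p`-groups with trivial intersection: if `R ≠ ⊥` has the maximal order of a
`p`-subgroup then `R` and `g R g⁻¹` do not commute elementwise with trivial intersection. -/
theorem not_commute_conj (p : ℕ) [Fact p.Prime] {G : Type*} [Group G] [Finite G]
    (R : Subgroup G) (hR : IsPGroup p R) (hne : R ≠ ⊥)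
    (hmax : ∀ P : Subgroup G, IsPGroup p P → Nat.card P ≤ Nat.card R) (g : G)
    (hc : ∀ a ∈ R, ∀ b ∈ R, a * (g * b * g⁻¹) = (g * b * g⁻¹) * a)
    (hi : ∀ a ∈ R, ∀ b ∈ R, a = g * b * g⁻¹ → a = 1) : False := by
  let c : R →* G := (MulAut.conj g).toMonoidHom.comp R.subtype
  have hcomm : ∀ (m n : R), Commute (R.subtype m) (c n) := by
    intro m n
    exact hc m.1 m.2 n.1 n.2
  let φ : R × R →* G := MonoidHom.noncommCoprod R.subtype c hcomm
  have hφ : ∀ x : R × R, φ x = x.1.1 * (g * x.2.1 * g⁻¹) := fun x => rfl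
  have hinj : Function.Injective φ := by
    rw [injective_iff_map_eq_one]
    intro x hx
    rw [hφ] at hx
    have h1 : ((x.1⁻¹ : R) : G) = g * x.2.1 * g⁻¹ := by
      rw [Subgroup.coe_inv]
      exact inv_eq_of_mul_eq_one_right hx
    have h2 := hi _ (x.1⁻¹).2 _ x.2.2 h1
    have h3 : x.1 = 1 := by
      have : x.1⁻¹ = 1 := Subtype.ext h2
      exact inv_eq_one.1 this
    have h4 : x.2 = 1 := by
      rw [h2] at h1
      have h5 : (x.2 : G) = 1 := by
        have h6 : g * x.2.1 * g⁻¹ = 1 := h1.symm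
        rwa [conj_eq_one_iff] at h6
      exact Subtype.ext h5
    exact Prod.ext h3 h4
  obtain ⟨n, hn⟩ := IsPGroup.iff_card.1 hR
  have hcard : Nat.card φ.range = Nat.card R * Nat.card R := by
    rw [← Nat.card_prod]
    exact (Nat.card_congr (MonoidHom.ofInjective hinj).toEquiv).symm
  have hp : IsPGroup p φ.range := by
    refine IsPGroup.of_card (n := n + n) ?_
    rw [hcard, hn, pow_add]
  have h1 := hmax _ hp
  rw [hcard] at h1
  have h2 : 0 < Nat.card R := Nat.card_pos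
  have h3 : Nat.card R ≤ 1 := by
    by_contra h
    push Not at h
    nlinarith
  have h4 : Nat.card R = 1 := le_antisymm h3 h2
  exact hne (Subgroup.card_eq_one.1 h4)

universe u v

/-- Unipotent of square zero and finite order is trivial. -/
theorem OrthB_aux1 {N : Type*} [AddCommGroup N] [Module ℂ N] (T : N →ₗ[ℂ] N) (m : ℕ) (hm : 1 ≤ m)
    (hT : T ^ m = 1) (hn : (T - 1) * (T - 1) = 0) : T = 1 := by
  have h1 : ∀ k : ℕ, T ^ k = 1 + (k : ℂ) • (T - 1) := by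
    intro k
    induction k with
    | zero => simp
    | succ k ih =>
      have h2 : T = 1 + (T - 1) := by abel
      calc T ^ (k + 1) = T ^ k * T := pow_succ _ _
        _ = (1 + (k : ℂ) • (T - 1)) * (1 + (T - 1)) := by rw [ih, ← h2]
        _ = 1 + (T - 1) + (k : ℂ) • (T - 1) + (k : ℂ) • ((T - 1) * (T - 1)) := by
            rw [add_mul, one_mul, mul_add, mul_one, smul_mul_assoc, ← add_assoc]
        _ = 1 + ((k + 1 : ℕ) : ℂ) • (T - 1) := by
            rw [hn, smul_zero, add_zero, Nat.cast_add, Nat.cast_one, add_smul, one_smul]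
            abel
  have h2 := h1 m
  rw [hT] at h2
  have h3 : (m : ℂ) • (T - 1) = 0 := by
    have h4 : (1 : N →ₗ[ℂ] N) + (m : ℂ) • (T - 1) = 1 + 0 := by rw [← h2, add_zero]
    exact add_left_cancel h4
  have hm0 : (m : ℂ) ≠ 0 := by
    have : m ≠ 0 := by omega
    exact_mod_cast this
  exact sub_eq_zero.1 ((smul_eq_zero.1 h3).resolve_left hm0)

/-- The difference of a fixed space dimension. -/
theorem OrthB_aux2 {G : Type u} {N : Type v}
    [Group G] [Fintype G] [NormedAddCommGroup N] [InnerProductSpace ℂ N] [FiniteDimensional ℂ N]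
    (ρ : G →* (N →ₗ[ℂ] N)) (R : Subgroup G) (r τ c : ℕ) (hcard : Nat.card R = r) (g : G)
    (hτ : finrank ℂ N ≤ finrank ℂ (fixR ρ R) + τ)
    (hord : ∀ a ∈ R, ∀ b ∈ R, ∀ g, ∃ m, 1 ≤ m ∧ m ≤ c ∧ (a * (g * b * g⁻¹)) ^ m = 1) :
    ∃ x y w : Fin (r ^ 2) → ℂ, (∀ i, x i ∈ rootSum (2 * τ) c) ∧ (∀ i, y i ∈ rootSum (2 * τ) c) ∧
      (∀ i, w i ∈ rootSum (2 * τ) c) ∧
      (r : ℂ) ^ 2 * LinearMap.trace ℂ N ((1 - avg ρ R) * (ρ g * (1 - avg ρ R) * ρ g⁻¹)) =
        ∑ i, (x i + y i - w i) := by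
  have hc2 : Nat.card (R × R) = r ^ 2 := by rw [Nat.card_prod, hcard, pow_two]
  haveI : Finite (R × R) := inferInstance
  let e : R × R ≃ Fin (r ^ 2) := Finite.equivFinOfCardEq hc2
  refine ⟨fun i => LinearMap.trace ℂ N (1 - ρ (e.symm i).1),
    fun i => LinearMap.trace ℂ N (1 - ρ (g * (e.symm i).2 * g⁻¹)),
    fun i => LinearMap.trace ℂ N (1 - ρ ((e.symm i).1 * (g * (e.symm i).2 * g⁻¹))),
    fun i => ?_, fun i => ?_, fun i => ?_, ?_⟩
  · obtain ⟨m, hm1, hmc, hm⟩ := hord _ (e.symm i).1.2 1 R.one_mem g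
    rw [mul_one, mul_inv_cancel, mul_one] at hm
    refine trace_mem_rootSum (ρ (e.symm i).1) m c (2 * τ) hm1 hmc ?_
      (rank_le ρ R g τ hτ _ _ (e.symm i).1.2 (e.symm i).2.2).1
    rw [← map_pow, hm, map_one]
  · obtain ⟨m, hm1, hmc, hm⟩ := hord 1 R.one_mem _ (e.symm i).2.2 g
    rw [one_mul] at hm
    refine trace_mem_rootSum _ m c (2 * τ) hm1 hmc ?_
      (rank_le ρ R g τ hτ _ _ (e.symm i).1.2 (e.symm i).2.2).2.1
    rw [← map_pow, hm, map_one]
  · obtain ⟨m, hm1, hmc, hm⟩ := hord _ (e.symm i).1.2 _ (e.symm i).2.2 g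
    refine trace_mem_rootSum _ m c (2 * τ) hm1 hmc ?_
      (rank_le ρ R g τ hτ _ _ (e.symm i).1.2 (e.symm i).2.2).2.2
    rw [← map_pow, hm, map_one]
  · have h := card_sq_mul_trace ρ R g
    rw [hcard, ← finsum_comp_equiv e.symm, finsum_eq_sum_of_fintype] at h
    exact h

/-- **Lemma 2.** See the text: if the dimension is larger than `r ^ 2 τ ^ 2 / δ`, then
`tr (π π_g) = 0` for some `g` (`sum_trace`, `trace_one_sub_avg`, `trace_nonneg`,
`card_sq_mul_trace`, `rank_le`, `trace_mem_rootSum`, `exists_delta (r ^ 2) (2 * τ) c`), and then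
`orth_of_trace_eq_zero` contradicts `not_commute_conj`: `(ρ a - 1) (ρ b' - 1) = 0 =
(ρ b' - 1) (ρ a - 1)` gives `a b' = b' a` by injectivity of `ρ`; if `a = b'` then
`(ρ a - 1) ^ 2 = 0`, and `ρ a` has finite order (isometry), so `ρ a = 1`: with `n = ρ a - 1`,
`n ^ 2 = 0`: `1 = (1 + n) ^ m = 1 + m n`. (Orders of `a` and of `g b g⁻¹`: `hord` with `b = 1`,
respectively `a = 1`.) -/
theorem orth_bound (r τ c : ℕ) : ∃ Φ : ℕ, ∀ (p : ℕ) [Fact p.Prime] {G : Type u} {N : Type v}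
    [Group G] [Finite G] [NormedAddCommGroup N] [InnerProductSpace ℂ N] [FiniteDimensional ℂ N]
    (ρ : G →* (N →ₗ[ℂ] N)) (_hinj : Function.Injective ρ) (_hiso : ∀ g x, ‖ρ g x‖ = ‖x‖)
    (_hirr : ∀ W : Submodule ℂ N, (∀ g, ∀ w ∈ W, ρ g w ∈ W) → W = ⊥ ∨ W = ⊤)
    (R : Subgroup G) (_hR : IsPGroup p R) (_hne : R ≠ ⊥) (_hcard : Nat.card R = r)
    (_hmax : ∀ P : Subgroup G, IsPGroup p P → Nat.card P ≤ Nat.card R)
    (_hτ : finrank ℂ N ≤ finrank ℂ (fixR ρ R) + τ)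
    (_hord : ∀ a ∈ R, ∀ b ∈ R, ∀ g, ∃ m, 1 ≤ m ∧ m ≤ c ∧ (a * (g * b * g⁻¹)) ^ m = 1),
    finrank ℂ N ≤ Φ := by
  obtain ⟨δ, hδ, hδ'⟩ := exists_delta (r ^ 2) (2 * τ) c
  refine ⟨⌈(r : ℝ) ^ 2 * (τ : ℝ) ^ 2 / δ⌉₊, ?_⟩
  intro p _ G N _ _ _ _ _ ρ hinj hiso hirr R hR hne hcard hmax hτ hord
  haveI : Fintype G := Fintype.ofFinite G
  by_cases hz : ∃ g, LinearMap.trace ℂ N ((1 - avg ρ R) * (ρ g * (1 - avg ρ R) * ρ g⁻¹)) = 0
  · exfalso
    obtain ⟨g, hg⟩ := hz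
    have ho := orth_of_trace_eq_zero ρ hiso R g hg
    refine not_commute_conj p R hR hne hmax g ?_ ?_
    · intro a ha b hb
      obtain ⟨h1, h2⟩ := ho a ha b hb
      have h3 : ρ a * ρ (g * b * g⁻¹) = ρ (g * b * g⁻¹) * ρ a := by
        have h4 : ρ a * ρ (g * b * g⁻¹) - ρ (g * b * g⁻¹) * ρ a =
            (ρ a - 1) * (ρ (g * b * g⁻¹) - 1) - (ρ (g * b * g⁻¹) - 1) * (ρ a - 1) := by
          noncomm_ring
        rw [h1, h2, sub_zero] at h4
        exact sub_eq_zero.1 h4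
      rw [← map_mul, ← map_mul] at h3
      exact hinj h3
    · intro a ha b hb hab
      have h1 := (ho a ha b hb).1
      rw [← hab] at h1
      obtain ⟨m, hm1, hmc, hm⟩ := hord a ha 1 R.one_mem g
      rw [mul_one, mul_inv_cancel, mul_one] at hm
      have h2 : ρ a = 1 := OrthB_aux1 (ρ a) m hm1 (by rw [← map_pow, hm, map_one]) h1
      exact hinj (by rw [h2, map_one])
  · push Not at hz
    rcases Nat.eq_zero_or_pos (finrank ℂ N) with h0 | hpos
    · rw [h0]; exact Nat.zero_le _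
    haveI : Nontrivial N := Module.finrank_pos_iff.1 hpos
    have hsum := sum_trace ρ hirr (1 - avg ρ R)
    have htr := trace_one_sub_avg ρ R
    have hlow : ∀ g, δ ≤ (r : ℝ) ^ 2 *
        (LinearMap.trace ℂ N ((1 - avg ρ R) * (ρ g * (1 - avg ρ R) * ρ g⁻¹))).re := by
      intro g
      obtain ⟨x, y, w, hx, hy, hw, he⟩ := OrthB_aux2 ρ R r τ c hcard g hτ hord
      obtain ⟨hre, him⟩ := trace_nonneg ρ hiso R g
      have hr0 : (r : ℂ) ≠ 0 := by
        have : r ≠ 0 := by rw [← hcard]; exact Nat.card_pos.ne'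
        exact_mod_cast this
      have h1 := hδ' _ (mul_ne_zero (pow_ne_zero 2 hr0) (hz g)) ⟨x, y, w, hx, hy, hw, he⟩
      refine h1.trans (le_of_eq ?_)
      set t := LinearMap.trace ℂ N ((1 - avg ρ R) * (ρ g * (1 - avg ρ R) * ρ g⁻¹)) with ht
      have h2 : t = ((t.re : ℝ) : ℂ) := Complex.ext (by simp) (by simp [him])
      rw [norm_mul, norm_pow, Complex.norm_natCast]
      congr 1
      rw [h2, Complex.norm_real, Complex.ofReal_re, Real.norm_of_nonneg hre]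
    have hτ' : ∃ s : ℕ, s ≤ τ ∧ LinearMap.trace ℂ N (1 - avg ρ R) = (s : ℂ) := by
      refine ⟨finrank ℂ N - finrank ℂ (fixR ρ R), by omega, ?_⟩
      rw [htr, Nat.cast_sub (Submodule.finrank_le _)]
    obtain ⟨s, hs, hs'⟩ := hτ'
    rw [hs'] at hsum
    have hre := congrArg Complex.re hsum
    have h1 : (finrank ℂ N : ℝ) * ∑ g : G,
        (LinearMap.trace ℂ N ((1 - avg ρ R) * (ρ g * (1 - avg ρ R) * ρ g⁻¹))).re =
        Nat.card G * (s : ℝ) ^ 2 := by
      have h2 : ((finrank ℂ N : ℂ) * ∑ g : G,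
        LinearMap.trace ℂ N ((1 - avg ρ R) * (ρ g * (1 - avg ρ R) * ρ g⁻¹))).re =
        (finrank ℂ N : ℝ) * ∑ g : G,
        (LinearMap.trace ℂ N ((1 - avg ρ R) * (ρ g * (1 - avg ρ R) * ρ g⁻¹))).re := by
        rw [← Complex.ofReal_natCast, Complex.re_ofReal_mul, Complex.re_sum]
      rw [← h2, hre]
      have h3 : ((Nat.card G : ℂ) * (s : ℂ) ^ 2) = (((Nat.card G : ℝ) * (s : ℝ) ^ 2 : ℝ) : ℂ) := by
        push_cast; ring
      rw [h3, Complex.ofReal_re]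
    have hG : (0 : ℝ) < Nat.card G := by exact_mod_cast Nat.card_pos
    have h4 : (Nat.card G : ℝ) * δ ≤ (r : ℝ) ^ 2 * ∑ g : G,
        (LinearMap.trace ℂ N ((1 - avg ρ R) * (ρ g * (1 - avg ρ R) * ρ g⁻¹))).re := by
      rw [Finset.mul_sum, Nat.card_eq_fintype_card]
      calc (Fintype.card G : ℝ) * δ = ∑ _g : G, δ := by
            rw [Finset.sum_const, Finset.card_univ, nsmul_eq_mul]
        _ ≤ _ := Finset.sum_le_sum fun g _ => hlow g
    have h5 : (finrank ℂ N : ℝ) * δ ≤ (r : ℝ) ^ 2 * (τ : ℝ) ^ 2 := by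
      have hs2 : (s : ℝ) ^ 2 ≤ (τ : ℝ) ^ 2 := by
        have : (s : ℝ) ≤ τ := by exact_mod_cast hs
        exact pow_le_pow_left₀ (Nat.cast_nonneg _) this 2
      have h6 : (Nat.card G : ℝ) * ((finrank ℂ N : ℝ) * δ) ≤
          (Nat.card G : ℝ) * ((r : ℝ) ^ 2 * (τ : ℝ) ^ 2) := by
        calc (Nat.card G : ℝ) * ((finrank ℂ N : ℝ) * δ)
            = (finrank ℂ N : ℝ) * ((Nat.card G : ℝ) * δ) := by ring
          _ ≤ (finrank ℂ N : ℝ) * ((r : ℝ) ^ 2 * ∑ g : G,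
              (LinearMap.trace ℂ N ((1 - avg ρ R) * (ρ g * (1 - avg ρ R) * ρ g⁻¹))).re) :=
              mul_le_mul_of_nonneg_left h4 (Nat.cast_nonneg _)
          _ = (r : ℝ) ^ 2 * ((finrank ℂ N : ℝ) * ∑ g : G,
              (LinearMap.trace ℂ N ((1 - avg ρ R) * (ρ g * (1 - avg ρ R) * ρ g⁻¹))).re) := by ring
          _ = (r : ℝ) ^ 2 * (Nat.card G * (s : ℝ) ^ 2) := by rw [h1]
          _ = (Nat.card G : ℝ) * ((r : ℝ) ^ 2 * (s : ℝ) ^ 2) := by ring
          _ ≤ _ := by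
              apply mul_le_mul_of_nonneg_left _ hG.le
              exact mul_le_mul_of_nonneg_left hs2 (by positivity)
      exact le_of_mul_le_mul_left h6 hG
    have h7 : (finrank ℂ N : ℝ) ≤ (r : ℝ) ^ 2 * (τ : ℝ) ^ 2 / δ := by
      rw [le_div_iff₀ hδ]; exact h5
    exact_mod_cast h7.trans (Nat.le_ceil _)

end MNQ
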