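import Pool.Agent.W_0649d4_h52.RankLe

/-! MP_0649d4_al, Theorem Q: matrices over `ℤ_p`, modulo `p` and over `ℂ` (proved in
`W_0649d4_h52.RankLe`). -/

namespace MNQ

open Module

variable {p : ℕ} [Fact p.Prime]

/-- The rank modulo `p` is at most the rank over `ℂ`. -/
theorem rank_mod_le {m n : Type*} [Fintype m] [Fintype n] [DecidableEq m] [DecidableEq n]
    (A : Matrix m n ℤ_[p]) (σ : ℤ_[p] →+* ℂ) (hσ : Function.Injective σ) :
    (A.map (PadicInt.toZMod (p := p))).rank ≤ (A.map σ).rank :=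
  Pool.Agent.W_0649d4_h52.rank_toZMod_le p σ hσ A

end MNQ
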