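import Mathlib

/-! MP_0649d4_al, Theorem Q: traces of operators of bounded finite order take values in a finite
set. -/

namespace MNQ

open Module

/-- Sums of `k` numbers `1 - ζ`, `ζ` a root of unity of order at most `c`. -/
def rootSum (k c : ℕ) : Set ℂ :=
  {z | ∃ ζ : Fin k → ℂ, (∀ i, ∃ m, 1 ≤ m ∧ m ≤ c ∧ ζ i ^ m = 1) ∧ z = ∑ i, (1 - ζ i)}

theorem TraceVal_roots_finite (c : ℕ) :
    {x : ℂ | ∃ m, 1 ≤ m ∧ m ≤ c ∧ x ^ m = 1}.Finite := by
  have h : {x : ℂ | ∃ m, 1 ≤ m ∧ m ≤ c ∧ x ^ m = 1} ⊆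
      ⋃ m ∈ Finset.Icc 1 c, {x : ℂ | x ^ m = 1} := by
    rintro x ⟨m, h1, h2, h3⟩
    simp only [Set.mem_iUnion]
    exact ⟨m, Finset.mem_Icc.2 ⟨h1, h2⟩, h3⟩
  refine Set.Finite.subset ?_ h
  refine Set.Finite.biUnion (Finset.finite_toSet _) (fun m hm => ?_)
  have hm1 : 0 < m := (Finset.mem_Icc.1 hm).1
  refine (Polynomial.nthRootsFinset m (1 : ℂ)).finite_toSet.subset (fun x hx => ?_)
  exact (Polynomial.mem_nthRootsFinset hm1 (1 : ℂ)).2 hx

theorem TraceVal_sum_getD (L : List ℂ) : ∀ k : ℕ, L.length ≤ k →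
    ∑ i ∈ Finset.range k, (1 - L.getD i 1) = (L.map (fun x => 1 - x)).sum := by
  induction L with
  | nil =>
    intro k _
    simp
  | cons a L ih =>
    intro k hk
    cases k with
    | zero => simp at hk
    | succ k =>
      rw [Finset.sum_range_succ']
      simp only [List.getD_cons_succ, List.getD_cons_zero, List.map_cons, List.sum_cons]
      rw [ih k (by simpa using hk), add_comm]

/-- The set of roots of unity of order at most `c` is finite, so is the set of functions
`Fin k → ` (this set), and `rootSum k c` is its image. -/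
theorem rootSum_finite (k c : ℕ) : (rootSum k c).Finite := by
  have hS := TraceVal_roots_finite c
  have h1 : (Set.univ.pi (fun _ : Fin k => {x : ℂ | ∃ m, 1 ≤ m ∧ m ≤ c ∧ x ^ m = 1})).Finite :=
    Set.Finite.pi (fun _ => hS)
  refine (h1.image (fun ζ : Fin k → ℂ => ∑ i, (1 - ζ i))).subset ?_
  rintro z ⟨ζ, hζ, rfl⟩
  exact ⟨ζ, fun i _ => hζ i, rfl⟩

/-- `T ^ m = 1` and `rank (1 - T) ≤ k`: the trace of `1 - T` is `∑ (1 - ζ)` over the roots `ζ` of
the characteristic polynomial (`Matrix.trace_eq_sum_roots_charpoly` or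
`LinearMap.trace_eq_sum_roots_charpoly`..), all of them satisfy `ζ ^ m = 1`, the root `1` has
multiplicity at least `dim ker (T - 1) = dim N - rank (1 - T)`
(`LinearMap.finrank_maxGenEigenspace_eq` or similar), so at most `k` of them are `≠ 1`; fill up with
`ζ = 1` (terms `0`, `m = 1`; if `k ≥ 1` then `c ≥ m ≥ 1`). -/
theorem trace_mem_rootSum {N : Type*} [AddCommGroup N] [Module ℂ N] [FiniteDimensional ℂ N]
    (T : N →ₗ[ℂ] N) (m c k : ℕ) (hm : 1 ≤ m) (hmc : m ≤ c) (hT : T ^ m = 1)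
    (hk : finrank ℂ (LinearMap.range (1 - T)) ≤ k) :
    LinearMap.trace ℂ N (1 - T) ∈ rootSum k c := by
  classical
  have hsp : T.charpoly.Splits := IsAlgClosed.splits _
  have htr : LinearMap.trace ℂ N T = T.charpoly.roots.sum :=
    Module.End.trace_eq_sum_roots_charpoly_of_splits hsp
  have hcard : T.charpoly.roots.card = finrank ℂ N := by
    rw [← LinearMap.charpoly_natDegree T]
    exact hsp.natDegree_eq_card_roots.symm
  have hne : T.charpoly ≠ 0 := (LinearMap.charpoly_monic T).ne_zero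
  have hroot : ∀ x ∈ T.charpoly.roots, x ^ m = 1 := by
    intro x hx
    have h1 : T.charpoly.IsRoot x := (Polynomial.mem_roots hne).1 hx
    have h2 : Module.End.HasEigenvalue T x :=
      (Module.End.hasEigenvalue_iff_isRoot_charpoly T x).2 h1
    obtain ⟨v, hv⟩ := h2.exists_hasEigenvector
    have h3 := hv.pow_apply m
    rw [hT] at h3
    have h4 : (1 - x ^ m) • v = 0 := by
      rw [sub_smul, ← h3]
      simp
    rcases smul_eq_zero.1 h4 with h5 | h5
    · exact (sub_eq_zero.1 h5).symm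
    · exact absurd h5 hv.2
  have hker : finrank ℂ (LinearMap.range (1 - T)) + finrank ℂ (LinearMap.ker (1 - T)) =
      finrank ℂ N := LinearMap.finrank_range_add_finrank_ker (1 - T)
  have hkere : LinearMap.ker (1 - T) = Module.End.eigenspace T 1 := by
    ext v
    rw [Module.End.mem_eigenspace_iff, LinearMap.mem_ker, LinearMap.sub_apply, Module.End.one_apply,
      sub_eq_zero, one_smul]
    exact eq_comm
  have hge : finrank ℂ (Module.End.eigenspace T 1) ≤ T.charpoly.roots.count 1 := by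
    rw [Polynomial.count_roots, ← LinearMap.finrank_maxGenEigenspace_eq]
    exact Submodule.finrank_mono Module.End.eigenspace_le_maxGenEigenspace
  have hfil : (T.charpoly.roots.filter (fun x => ¬ (1 = x))).card ≤ k := by
    have h1 := Multiset.filter_add_not (fun x => (1 : ℂ) = x) T.charpoly.roots
    have h2 := congrArg Multiset.card h1
    rw [Multiset.card_add, hcard] at h2
    have h3 : (T.charpoly.roots.filter (fun x => (1 : ℂ) = x)).card =
        T.charpoly.roots.count 1 := by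
      rw [Multiset.count_eq_card_filter_eq]
    rw [hkere] at hker
    omega
  have hsum : LinearMap.trace ℂ N (1 - T) =
      ((T.charpoly.roots.filter (fun x => ¬ (1 = x))).map (fun x => 1 - x)).sum := by
    have h1 : LinearMap.trace ℂ N (1 - T) = (T.charpoly.roots.map (fun x => 1 - x)).sum := by
      rw [map_sub, htr, Multiset.sum_map_sub, Multiset.map_id', Multiset.map_const',
        Multiset.sum_replicate, hcard, LinearMap.trace_one]
      simp
    rw [h1]
    conv_lhs => rw [← Multiset.filter_add_not (fun x => (1 : ℂ) = x) T.charpoly.roots]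
    rw [Multiset.map_add, Multiset.sum_add]
    have h2 : ((T.charpoly.roots.filter (fun x => (1 : ℂ) = x)).map (fun x => 1 - x)).sum = 0 := by
      refine Multiset.sum_eq_zero (fun y hy => ?_)
      obtain ⟨x, hx, rfl⟩ := Multiset.mem_map.1 hy
      rw [← (Multiset.mem_filter.1 hx).2, sub_self]
    rw [h2, zero_add]
  set R := T.charpoly.roots.filter (fun x => ¬ (1 = x)) with hR
  refine ⟨fun i => R.toList.getD i 1, fun i => ?_, ?_⟩
  · refine ⟨m, hm, hmc, ?_⟩
    by_cases hi : (i : ℕ) < R.toList.length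
    · show (R.toList.getD (i : ℕ) 1) ^ m = 1
      rw [List.getD_eq_getElem _ _ hi]
      refine hroot _ ?_
      have h1 : R.toList[(i : ℕ)] ∈ R := Multiset.mem_toList.1 (List.getElem_mem hi)
      exact (Multiset.mem_filter.1 h1).1
    · show (R.toList.getD (i : ℕ) 1) ^ m = 1
      rw [List.getD_eq_default _ _ (not_lt.1 hi), one_pow]
  · rw [hsum, Fin.sum_univ_eq_sum_range (fun i => 1 - R.toList.getD i 1) k,
      TraceVal_sum_getD _ k (by rw [Multiset.length_toList]; exact hfil)]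
    conv_lhs => rw [← Multiset.coe_toList R]
    rw [Multiset.map_coe, Multiset.sum_coe]

/-- The set of all `∑ i : ι, (x i + y i - w i)`, `x i, y i, w i ∈ rootSum k c`, `|ι| = r`, is
finite, so its non-zero elements are bounded below in absolute value. -/
theorem exists_delta (r k c : ℕ) : ∃ δ : ℝ, 0 < δ ∧ ∀ z : ℂ, z ≠ 0 →
    (∃ x y w : Fin r → ℂ, (∀ i, x i ∈ rootSum k c) ∧ (∀ i, y i ∈ rootSum k c) ∧
      (∀ i, w i ∈ rootSum k c) ∧ z = ∑ i, (x i + y i - w i)) → δ ≤ ‖z‖ := by
  have hF : (Set.univ.pi (fun _ : Fin r => rootSum k c)).Finite :=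
    Set.Finite.pi (fun _ => rootSum_finite k c)
  have hZ : {z : ℂ | ∃ x y w : Fin r → ℂ, (∀ i, x i ∈ rootSum k c) ∧
      (∀ i, y i ∈ rootSum k c) ∧ (∀ i, w i ∈ rootSum k c) ∧
      z = ∑ i, (x i + y i - w i)}.Finite := by
    refine (((hF.prod (hF.prod hF))).image (fun t : (Fin r → ℂ) × (Fin r → ℂ) × (Fin r → ℂ) =>
      ∑ i, (t.1 i + t.2.1 i - t.2.2 i))).subset ?_
    rintro z ⟨x, y, w, hx, hy, hw, rfl⟩
    exact ⟨(x, y, w), ⟨fun i _ => hx i, fun i _ => hy i, fun i _ => hw i⟩, rfl⟩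
  have hD := hZ.sdiff (t := {0})
  by_cases hne : ({z : ℂ | ∃ x y w : Fin r → ℂ, (∀ i, x i ∈ rootSum k c) ∧
      (∀ i, y i ∈ rootSum k c) ∧ (∀ i, w i ∈ rootSum k c) ∧
      z = ∑ i, (x i + y i - w i)} \ {0}).Nonempty
  · obtain ⟨z0, hz0, hmin⟩ := Set.exists_min_image _ (fun z : ℂ => ‖z‖) hD hne
    exact ⟨‖z0‖, norm_pos_iff.2 hz0.2, fun z hz hz2 => hmin z ⟨hz2, hz⟩⟩
  · refine ⟨1, one_pos, fun z hz hz2 => ?_⟩
    exact absurd ⟨z, hz2, hz⟩ hne

end MNQ
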