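import Pool.Agent.W_0649q_h65.Final
import Pool.Agent.W_0649d4.Trans
import Pool.Agent.W_0649d4_h66.QLandau

/-! MP_0649d4_al, Theorem Q: the bound in terms of the number of conjugacy classes of `[S, S]`. -/

namespace MNQ

open MNF

universe u w

/-- The bound of `main_bound` in terms of `c([S, S])`: `f' c = ∑_{n ≤ c ^ c} f n`. -/
theorem uniform_bound : ∃ f : ℕ → ℕ, ∀ (p : ℕ) [Fact p.Prime] {k : Type w} [Field k]
    [IsAlgClosed k] [CharP k p] {G : Type u} [Group G] [Finite G] {S : Subgroup G}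
    (_hS : IsPGroup p S) (F : FusionSystem S) (_hF : F.Saturated p)
    (α : ∀ P : Subgroup G, Cocycle (F.Out P) k) (_hα : Compatible F α),
    (∃ (X : Finset S) (Y : S → Finset (Subgroup G)) (Z : Finset (S →* ℂˣ)),
      IsElementTransversal F X ∧ (∀ x ∈ X, IsCentricTransversal (F.cent x) (Y x)) ∧
        IsLinTransversal F Z) ∧
    ∀ (X : Finset S) (Y : S → Finset (Subgroup G)) (Z : Finset (S →* ℂˣ)),
      IsElementTransversal F X → (∀ x ∈ X, IsCentricTransversal (F.cent x) (Y x)) →
        IsLinTransversal F Z →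
        kInv F α X Y ≤ f (Nat.card (ConjClasses (commutator S))) * mTop F α Z := by
  obtain ⟨f, hf⟩ := main_bound.{u, w}
  refine ⟨fun c => ∑ n ∈ Finset.range (c ^ c + 1), f n, ?_⟩
  intro p _ k _ _ _ G _ _ S hS F hF α hα
  refine ⟨exists_transversals F, fun X Y Z hX hY hZ => ?_⟩
  refine (hf p hS F hF α hα X Y Z hX hY hZ).trans (Nat.mul_le_mul_right _ ?_)
  refine Finset.single_le_sum (f := f) (fun _ _ => Nat.zero_le _) ?_
  rw [Finset.mem_range, Nat.lt_succ_iff]
  have h1 : IsPGroup p (commutator S) := hS.to_subgroup _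
  exact card_le_of_classes p (commutator S) h1

end MNQ
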